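import Pool.Agent.H20.FV.Basic

/-!
[H20 FV DUAL]  The open dual cone of an open convex cone with pointed closure.

`dual C = {z : z ⬝ᵥ x > 0 for all nonzero x in closure C}`, `Mori C = {z : z ⬝ᵥ x ≥ 0 for all x in C}`.

(1) `isAmp_dual`.  OPEN: let `K = closure C ∩ sphere 0 1` (compact).  For `z ∈ dual C` the continuous function `z ⬝ᵥ x`
has a positive minimum `m` on `K` (if `K` is empty every vector is in `dual C`); for `z'` with `|z' ⬝ᵥ x - z ⬝ᵥ x| < m` on
`K` (true when `n * ‖z' - z‖ < m`) we get `z' ⬝ᵥ x > 0` on `K`, so on all nonzero points of `closure C` by scaling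
(`IsOC.closure_smul`).  NONEMPTY: `Pool.Agent.H32.Cone.exists_pos` (file H32/Cone/Gen.lean, for a `Datum`) or directly:
for each `x ∈ K` Hahn-Banach (`geometric_hahn_banach_closed_point` for the closed convex set `closure C` and the point
`-x`, which is not in `closure C` by `pointed`) gives `z_x ∈ Mori C` with `z_x ⬝ᵥ x > 0`; finitely many of the open sets
`{y : z_x ⬝ᵥ y > 0}` cover `K`; the sum of these `z_x` is in `dual C`.  Linear functionals on `Fin n → ℝ` are
`x ↦ z ⬝ᵥ x` with `z i = f (Pi.single i 1)`.  ADD, SMUL: clear.  POINTED: a point of `closure (dual C)` is in `Mori C`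
(`dual_sub_Mori`, `Mori C` is closed); if `z` and `-z` are in `Mori C` then `z ⬝ᵥ x = 0` on `C`, which contradicts
`IsOC.pos_dot` unless `z = 0`.
(2) `closure_dual`: `⊆` as above; `⊇`: for `z ∈ Mori C` and `z0 ∈ dual C` all `z + (1/(k+1)) • z0` are in `dual C`
(`Mori.closure`), and they tend to `z`.
(3) `dual_dual`: `⊇`: `x ∈ C`, `z ∈ closure (dual C) = Mori C`, `z ≠ 0`: `IsOC.pos_dot`.  `⊆`: let `x ∉ C`.  By
`geometric_hahn_banach_open_point` (`C` open convex) there is a continuous functional `f` with `f c < f x` for all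
`c ∈ C`.  Put `z ⬝ᵥ y = - f y`.  Then `z ⬝ᵥ c > z ⬝ᵥ x` on `C`; scaling `c` by `t → 0` gives `z ⬝ᵥ x ≤ 0`, scaling by
`t → ∞` gives `z ⬝ᵥ c ≥ 0`, so `z ∈ Mori C`, and `z ≠ 0` (since `z ⬝ᵥ c > z ⬝ᵥ x`).  So `x ∉ dual (dual C)`.
(4) `mori_dual`: `closure_dual` for `dual C` and `dual_dual`.
(5) `exists_int_dual`: `IsAmp.exists_int` for `dual C`.
-/

set_option autoImplicit false

open MeasureTheory
open scoped ENNReal

namespace Pool.Agent.H20.FV

open Pool.Agent.H57.KM

variable {n : ℕ}

/-- the vector of a functional -/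
noncomputable def dualVec (f : V n →L[ℝ] ℝ) : V n := fun i => f (Pi.single i 1)

theorem dual_vec (f : V n →L[ℝ] ℝ) (x : V n) : dualVec f ⬝ᵥ x = f x := by
  have h1 : x = ∑ i, x i • (Pi.single i (1 : ℝ) : V n) := by
    funext j
    simp [Finset.sum_apply, Pi.single_apply]
  conv_rhs => rw [h1]
  rw [map_sum]
  unfold dualVec dotProduct
  exact Finset.sum_congr rfl fun i _ => by rw [map_smul, smul_eq_mul, mul_comm]

theorem dual_cont (z : V n) : Continuous fun x : V n => z ⬝ᵥ x := by
  unfold dotProduct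
  fun_prop

theorem dual_cont' (x : V n) : Continuous fun z : V n => z ⬝ᵥ x := by
  unfold dotProduct
  fun_prop

theorem dual_cont2 : Continuous fun w : V n × V n => w.1 ⬝ᵥ w.2 := by
  unfold dotProduct
  fun_prop

theorem dual_sep {C : Set (V n)} (h : IsAmp C) {x : V n} (hx : x ∈ closure C) (hx0 : x ≠ 0) :
    ∃ z ∈ Mori C, 0 < z ⬝ᵥ x := by
  have hnx : -x ∉ closure C := fun h' => hx0 (h.pointed x hx h')
  obtain ⟨f, u, h1, h2⟩ := geometric_hahn_banach_closed_point h.convex.closure
    isClosed_closure hnx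
  have hu : 0 < u := by
    have := h1 0 h.zero_closure
    rwa [map_zero] at this
  refine ⟨dualVec (-f), ?_, ?_⟩
  · intro y hy
    rw [dual_vec, neg_apply, neg_nonneg]
    by_contra hcon
    push Not at hcon
    have h4 := h1 _ (h.closure_smul (u / f y) (by positivity) y (subset_closure hy))
    rw [map_smul, smul_eq_mul, div_mul_cancel₀ _ hcon.ne'] at h4
    exact lt_irrefl _ h4
  · rw [dual_vec, neg_apply]
    have h5 : u < -(f x) := by rwa [map_neg] at h2
    exact hu.trans h5

theorem dual_cpt (C : Set (V n)) : IsCompact (closure C ∩ Metric.sphere (0 : V n) 1) :=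
  (isCompact_sphere (0 : V n) 1).inter_left isClosed_closure

theorem dual_norm {C : Set (V n)} (h : IsAmp C) {x : V n} (hx : x ∈ closure C) (hx0 : x ≠ 0) :
    ‖x‖⁻¹ • x ∈ closure C ∩ Metric.sphere (0 : V n) 1 := by
  have hn : 0 < ‖x‖ := norm_pos_iff.2 hx0
  refine ⟨h.closure_smul _ (by positivity) x hx, ?_⟩
  rw [mem_sphere_iff_norm, sub_zero, norm_smul, norm_inv, norm_norm, inv_mul_cancel₀ hn.ne']

theorem dual_mem_iff {C : Set (V n)} (h : IsAmp C) (z : V n) :
    z ∈ dual C ↔ ∀ x ∈ closure C ∩ Metric.sphere (0 : V n) 1, 0 < z ⬝ᵥ x := by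
  constructor
  · rintro hz x ⟨hx, hx1⟩
    refine hz x hx ?_
    rintro rfl
    rw [mem_sphere_iff_norm, sub_zero, norm_zero] at hx1
    exact zero_ne_one hx1
  · intro hz x hx hx0
    have hn : 0 < ‖x‖ := norm_pos_iff.2 hx0
    have h4 := hz _ (dual_norm h hx hx0)
    rw [dotProduct_smul, smul_eq_mul] at h4
    exact (pos_iff_pos_of_mul_pos h4).1 (by positivity)

theorem dual_ne {C : Set (V n)} (h : IsAmp C) : (dual C).Nonempty := by
  have key : ∃ z : V n, z ∈ Mori C ∧
      ∀ y ∈ closure C ∩ Metric.sphere (0 : V n) 1, y ∈ closure C → 0 < z ⬝ᵥ y := by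
    refine (dual_cpt C).induction_on (p := fun S => ∃ z : V n, z ∈ Mori C ∧
      ∀ y ∈ S, y ∈ closure C → 0 < z ⬝ᵥ y) ?_ ?_ ?_ ?_
    · refine ⟨0, fun x _ => ?_, by simp⟩
      rw [zero_dotProduct]
    · rintro s t hst ⟨z, h1, h2⟩
      exact ⟨z, h1, fun y hy => h2 y (hst hy)⟩
    · rintro s t ⟨z, h1, h2⟩ ⟨z', h1', h2'⟩
      refine ⟨z + z', fun y hy => ?_, ?_⟩
      · rw [add_dotProduct]
        exact add_nonneg (h1 y hy) (h1' y hy)
      · rintro y (hy | hy) hyc
        · rw [add_dotProduct]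
          exact add_pos_of_pos_of_nonneg (h2 y hy hyc) (Mori.closure h1' hyc)
        · rw [add_dotProduct]
          exact add_pos_of_nonneg_of_pos (Mori.closure h1 hyc) (h2' y hy hyc)
    · rintro x ⟨hx, hx1⟩
      have hx0 : x ≠ 0 := by
        intro h
        rw [h, mem_sphere_iff_norm, sub_zero, norm_zero] at hx1
        exact zero_ne_one hx1
      obtain ⟨z, h1, h2⟩ := dual_sep h hx hx0
      refine ⟨{y | 0 < z ⬝ᵥ y}, ?_, z, h1, fun y hy _ => hy⟩
      apply mem_nhdsWithin_of_mem_nhds
      exact (isOpen_lt continuous_const (dual_cont z)).mem_nhds h2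
  obtain ⟨z, h1, h2⟩ := key
  exact ⟨z, (dual_mem_iff h z).2 fun x hx => h2 x hx hx.1⟩

theorem dual_open {C : Set (V n)} (h : IsAmp C) : IsOpen (dual C) := by
  rw [isOpen_iff_eventually]
  intro z hz
  have h1 : ∀ᶠ z' in nhds z, ∀ x ∈ closure C ∩ Metric.sphere (0 : V n) 1, 0 < z' ⬝ᵥ x := by
    refine (dual_cpt C).eventually_forall_of_forall_eventually fun x hx => ?_
    have h2 : IsOpen {w : V n × V n | 0 < w.1 ⬝ᵥ w.2} := isOpen_lt continuous_const dual_cont2
    exact h2.mem_nhds ((dual_mem_iff h z).1 hz x hx)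
  filter_upwards [h1] with z' hz'
  exact (dual_mem_iff h z').2 hz'

theorem dual_mori_closed (C : Set (V n)) : IsClosed (Mori C) := by
  have h1 : Mori C = ⋂ x ∈ C, {z : V n | 0 ≤ z ⬝ᵥ x} := by
    ext z
    simp [Mori]
  rw [h1]
  exact isClosed_biInter fun x _ => isClosed_le continuous_const (dual_cont' x)

theorem dual_closure_sub (C : Set (V n)) : closure (dual C) ⊆ Mori C :=
  closure_minimal dual_sub_Mori (dual_mori_closed C)

theorem isAmp_dual {C : Set (V n)} (h : IsAmp C) : IsAmp (dual C) := by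
  refine ⟨dual_ne h, dual_open h, ?_, ?_, ?_⟩
  · intro z hz z' hz' x hx hx0
    rw [add_dotProduct]
    exact add_pos (hz x hx hx0) (hz' x hx hx0)
  · intro c hc z hz x hx hx0
    rw [smul_dotProduct, smul_eq_mul]
    exact mul_pos hc (hz x hx hx0)
  · intro z hz hz'
    by_contra hz0
    obtain ⟨y, hy⟩ := h.ne
    have h1 := h.oc.pos_dot (dual_closure_sub C hz) hz0 hy
    have h2 := dual_closure_sub C hz' y hy
    rw [neg_dotProduct] at h2
    linarith

theorem closure_dual {C : Set (V n)} (h : IsAmp C) : closure (dual C) = Mori C := by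
  refine Set.Subset.antisymm (dual_closure_sub C) fun z hz => ?_
  obtain ⟨z0, hz0⟩ := dual_ne h
  have h1 : Filter.Tendsto (fun k : ℕ => z + ((1 : ℝ) / ((k : ℝ) + 1)) • z0) Filter.atTop
      (nhds z) := by
    have h2 := (tendsto_one_div_add_atTop_nhds_zero_nat (𝕜 := ℝ)).smul_const z0
    have h3 := (tendsto_const_nhds (x := z) (f := Filter.atTop (α := ℕ))).add h2
    simpa using h3
  refine mem_closure_of_tendsto h1 (Filter.Eventually.of_forall fun k => ?_)
  intro x hx hx0
  rw [add_dotProduct, smul_dotProduct, smul_eq_mul]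
  have h4 := Mori.closure hz hx
  have h5 := hz0 x hx hx0
  have h6 : 0 < (1 : ℝ) / ((k : ℝ) + 1) := by positivity
  have h7 := mul_pos h6 h5
  linarith

theorem dual_dual {C : Set (V n)} (h : IsAmp C) : dual (dual C) = C := by
  refine Set.Subset.antisymm (fun x hx => ?_) fun x hx z hz hz0 => ?_
  · by_contra hxC
    obtain ⟨f, hf⟩ := geometric_hahn_banach_open_point h.convex h.op hxC
    have hM : dualVec (-f) ∈ Mori C := by
      intro c hc
      rw [dual_vec, neg_apply, neg_nonneg]
      by_contra hcon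
      push Not at hcon
      have h1 := hf _ (h.smul ((|f x| + 1) / f c) (by positivity) c hc)
      rw [map_smul, smul_eq_mul, div_mul_cancel₀ _ hcon.ne'] at h1
      have h2 := le_abs_self (f x)
      linarith
    obtain ⟨c, hc⟩ := h.ne
    have h0 : dualVec (-f) ≠ 0 := by
      intro h1
      have h2 := dual_vec (-f) x
      have h3 := dual_vec (-f) c
      rw [h1, zero_dotProduct, neg_apply] at h2 h3
      have h4 := hf c hc
      linarith
    have h5 := hx _ (by rw [closure_dual h]; exact hM) h0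
    rw [dotProduct_comm, dual_vec, neg_apply] at h5
    have h6 : f x < 0 := by linarith
    have h7 := hM c hc
    rw [dual_vec, neg_apply, neg_nonneg] at h7
    have h8 : f c < 0 := lt_trans (hf c hc) h6
    have h9 := hf _ (h.smul (f x / (2 * f c)) (div_pos_of_neg_of_neg h6 (by linarith)) c hc)
    rw [map_smul, smul_eq_mul] at h9
    have h10 : f x / (2 * f c) * f c = f x / 2 := by
      have h11 : f c ≠ 0 := h8.ne
      field_simp
    rw [h10] at h9
    linarith
  · rw [closure_dual h] at hz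
    rw [dotProduct_comm]
    exact h.oc.pos_dot hz hz0 hx

theorem mori_dual {C : Set (V n)} (h : IsAmp C) : Mori (dual C) = closure C := by
  rw [← closure_dual (isAmp_dual h), dual_dual h]

theorem exists_int_dual {C : Set (V n)} (h : IsAmp C) : ∃ z : Fin n → ℤ, toR z ∈ dual C := by
  exact (isAmp_dual h).exists_int

end Pool.Agent.H20.FV
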