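import Pool.Agent.H20.FV.Basic

/-!
[H20 FV MINI]  Minimisers of a functional on the integral points of `C`.

(1) `fin_lat`: `K = closure C ∩ sphere 0 1` is compact, `ξ ⬝ᵥ x` is positive on it, so it is `≥ δ > 0` there (if `K` is
empty then `closure C = {0}`), so `δ * ‖x‖ ≤ ξ ⬝ᵥ x` on `closure C`.  So the integral `w` with `toR w ∈ closure C` and
`ξ ⬝ᵥ toR w ≤ c` have `‖toR w‖ ≤ c / δ`, all coordinates are bounded integers: finitely many (e.g. subset of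
`Set.pi univ (Icc (-N) N)`, `Set.Finite.pi`).
(2) `mini`: there is an integral point `w0` of `C` (`IsAmp.exists_int`); the set of the integral points of `C` with
`ξ ⬝ᵥ toR w ≤ ξ ⬝ᵥ toR w0` is finite and nonempty, let `m` be the minimum of `ξ ⬝ᵥ toR w` on it; it is the minimum over
all integral points of `C`.  Among the finitely many integral points of `C` with value `m` take `v` with `v ⬝ᵥ v`
maximal.  If `v + x` and `v - x` are in `C` then their values are `≥ m` and have the sum `2 m`, so both are `m`;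
`(v+x)⬝(v+x) + (v-x)⬝(v-x) = 2 v⬝v + 2 x⬝x ≤ 2 v⬝v`, so `x = 0` (`dotProduct_self_eq_zero`).  So `v ∈ SInd C`.
-/

set_option autoImplicit false

open MeasureTheory
open scoped ENNReal

namespace Pool.Agent.H20.FV

open Pool.Agent.H57.KM

variable {n : ℕ}

theorem mini_delta {C : Set (V n)} (h : IsAmp C) {ξ : V n} (hξ : ξ ∈ dual C) :
    ∃ δ : ℝ, 0 < δ ∧ ∀ x ∈ closure C, δ * ‖x‖ ≤ ξ ⬝ᵥ x := by
  have hK : IsCompact (closure C ∩ Metric.sphere (0 : V n) 1) :=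
    (isCompact_sphere (0 : V n) 1).inter_left isClosed_closure
  have hcont : Continuous fun x : V n => ξ ⬝ᵥ x := by
    unfold dotProduct
    fun_prop
  have hmem : ∀ x ∈ closure C, x ≠ 0 → ‖x‖⁻¹ • x ∈ closure C ∩ Metric.sphere (0 : V n) 1 := by
    intro x hx hx0
    have hn : 0 < ‖x‖ := norm_pos_iff.2 hx0
    refine ⟨h.closure_smul _ (by positivity) x hx, ?_⟩
    rw [mem_sphere_iff_norm, sub_zero, norm_smul, norm_inv, norm_norm, inv_mul_cancel₀ hn.ne']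
  rcases (closure C ∩ Metric.sphere (0 : V n) 1).eq_empty_or_nonempty with hE | hE
  · refine ⟨1, one_pos, fun x hx => ?_⟩
    by_cases hx0 : x = 0
    · rw [hx0, norm_zero, mul_zero, dotProduct_zero]
    · exact absurd (hmem x hx hx0) (by rw [hE]; exact Set.notMem_empty _)
  · obtain ⟨y, hy, hmin⟩ := hK.exists_isMinOn hE hcont.continuousOn
    have hy0 : y ≠ 0 := by
      rintro rfl
      have h1 := hy.2
      rw [mem_sphere_iff_norm, sub_zero, norm_zero] at h1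
      exact zero_ne_one h1
    refine ⟨ξ ⬝ᵥ y, hξ y hy.1 hy0, fun x hx => ?_⟩
    by_cases hx0 : x = 0
    · rw [hx0, norm_zero, mul_zero, dotProduct_zero]
    · have hn : 0 < ‖x‖ := norm_pos_iff.2 hx0
      have h1 : ξ ⬝ᵥ y ≤ ξ ⬝ᵥ (‖x‖⁻¹ • x) := hmin (hmem x hx hx0)
      rw [dotProduct_smul, smul_eq_mul, inv_mul_eq_div, le_div_iff₀ hn] at h1
      exact h1

theorem fin_lat {C : Set (V n)} (h : IsAmp C) {ξ : V n} (hξ : ξ ∈ dual C) (c : ℝ) :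
    {w : Fin n → ℤ | toR w ∈ closure C ∧ ξ ⬝ᵥ toR w ≤ c}.Finite := by
  obtain ⟨δ, hδ, h1⟩ := mini_delta h hξ
  have hfin : (Set.pi Set.univ fun _ : Fin n => Set.Icc (-⌈c / δ⌉) ⌈c / δ⌉).Finite :=
    Set.Finite.pi fun _ => Set.finite_Icc _ _
  refine hfin.subset ?_
  rintro w ⟨hw, hwc⟩
  rw [Set.mem_univ_pi]
  intro i
  have h2 : ‖toR w‖ ≤ c / δ := by
    rw [le_div_iff₀ hδ, mul_comm]
    exact (h1 _ hw).trans hwc
  have h3 : ‖toR w i‖ ≤ c / δ := (norm_le_pi_norm (toR w) i).trans h2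
  have h4 : |(w i : ℝ)| ≤ c / δ := h3
  have h5 : |(w i : ℝ)| ≤ (⌈c / δ⌉ : ℝ) := h4.trans (Int.le_ceil _)
  have h6 : |w i| ≤ ⌈c / δ⌉ := by exact_mod_cast h5
  exact abs_le.1 h6

theorem mini {C : Set (V n)} (h : IsAmp C) {ξ : V n} (hξ : ξ ∈ dual C) :
    ∃ v ∈ SInd C, ∀ w : Fin n → ℤ, toR w ∈ C → ξ ⬝ᵥ toR v ≤ ξ ⬝ᵥ toR w := by
  obtain ⟨w0, hw0⟩ := h.exists_int
  have hS0 : {w : Fin n → ℤ | toR w ∈ C ∧ ξ ⬝ᵥ toR w ≤ ξ ⬝ᵥ toR w0}.Finite :=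
    (fin_lat h hξ (ξ ⬝ᵥ toR w0)).subset fun w hw => ⟨subset_closure hw.1, hw.2⟩
  obtain ⟨v0, hv0, hmin⟩ := Set.exists_min_image _ (fun w : Fin n → ℤ => ξ ⬝ᵥ toR w) hS0
    ⟨w0, hw0, le_rfl⟩
  have hmin' : ∀ w : Fin n → ℤ, toR w ∈ C → ξ ⬝ᵥ toR v0 ≤ ξ ⬝ᵥ toR w := by
    intro w hw
    by_cases h1 : ξ ⬝ᵥ toR w ≤ ξ ⬝ᵥ toR w0
    · exact hmin w ⟨hw, h1⟩
    · exact hv0.2.trans (not_le.1 h1).le
  have hS1 : {w : Fin n → ℤ | toR w ∈ C ∧ ξ ⬝ᵥ toR w ≤ ξ ⬝ᵥ toR v0}.Finite :=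
    (fin_lat h hξ (ξ ⬝ᵥ toR v0)).subset fun w hw => ⟨subset_closure hw.1, hw.2⟩
  obtain ⟨v, hv, hmax⟩ := Set.exists_max_image _ (fun w : Fin n → ℤ => w ⬝ᵥ w) hS1
    ⟨v0, hv0.1, le_rfl⟩
  refine ⟨v, ⟨hv.1, fun x h1 h2 => ?_⟩, fun w hw => hv.2.trans (hmin' w hw)⟩
  have h3 := hmin' _ h1
  have h4 := hmin' _ h2
  have h5 := hv.2
  rw [toR_add, dotProduct_add] at h3
  rw [toR_sub, dotProduct_sub] at h4
  have h6 := hmax (v + x) ⟨h1, by rw [toR_add, dotProduct_add]; linarith⟩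
  have h7 := hmax (v - x) ⟨h2, by rw [toR_sub, dotProduct_sub]; linarith⟩

  rw [add_dotProduct, dotProduct_add, dotProduct_add] at h6
  rw [sub_dotProduct, dotProduct_sub, dotProduct_sub] at h7
  have h8 : x ⬝ᵥ x ≤ 0 := by linarith
  have h9 : 0 ≤ x ⬝ᵥ x := Finset.sum_nonneg fun i _ => mul_self_nonneg (x i)
  exact dotProduct_self_eq_zero.1 (le_antisymm h8 h9)

end Pool.Agent.H20.FV
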