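import Pool.Agent.H20.FV.Defs

/-!
[H20 FV BASIC]  Elementary properties (proved).
-/

set_option autoImplicit false

open MeasureTheory
open scoped ENNReal

namespace Pool.Agent.H20.FV

open Pool.Agent.H57.KM

variable {n : ℕ}

theorem toR_add (a b : Fin n → ℤ) : toR (a + b) = toR a + toR b := by
  funext i; simp [toR]

theorem toR_sub (a b : Fin n → ℤ) : toR (a - b) = toR a - toR b := by
  funext i; simp [toR]

theorem toR_neg (a : Fin n → ℤ) : toR (-a) = - toR a := by
  funext i; simp [toR]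

theorem toR_zero : toR (0 : Fin n → ℤ) = 0 := by
  funext i; simp [toR]

theorem toR_smul (k : ℤ) (a : Fin n → ℤ) : toR (k • a) = (k : ℝ) • toR a := by
  funext i; simp [toR]

theorem toR_sum {ι : Type*} (A : Finset ι) (f : ι → Fin n → ℤ) :
    toR (∑ i ∈ A, f i) = ∑ i ∈ A, toR (f i) := by
  funext j; simp [toR]

theorem toR_inj {a b : Fin n → ℤ} (h : toR a = toR b) : a = b := by
  funext i
  have := congrFun h i
  simp only [toR] at this
  exact_mod_cast this

theorem toR_ne_zero {a : Fin n → ℤ} (h : a ≠ 0) : toR a ≠ 0 := fun h0 =>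
  h (toR_inj (h0.trans toR_zero.symm))

theorem dot_toR (a b : Fin n → ℤ) : toR a ⬝ᵥ toR b = ((a ⬝ᵥ b : ℤ) : ℝ) := by
  simp [toR, dotProduct]

theorem act_toR (g : GL (Fin n) ℤ) (s : Fin n → ℤ) :
    act g (toR s) = toR ((g : Matrix (Fin n) (Fin n) ℤ).mulVec s) := by
  funext i
  simp [act, toR, Matrix.mulVec, dotProduct]

theorem exists_toR_act (g : GL (Fin n) ℤ) (s : Fin n → ℤ) : ∃ t : Fin n → ℤ, toR t = act g (toR s) :=
  ⟨_, (act_toR g s).symm⟩

theorem act_zero (g : GL (Fin n) ℤ) : act g (0 : V n) = 0 := by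
  unfold act; rw [Matrix.mulVec_zero]

theorem act_neg (g : GL (Fin n) ℤ) (x : V n) : act g (-x) = - act g x := by
  unfold act; rw [Matrix.mulVec_neg]

theorem act_sub (g : GL (Fin n) ℤ) (x y : V n) : act g (x - y) = act g x - act g y := by
  unfold act; rw [Matrix.mulVec_sub]

theorem act_sum (g : GL (Fin n) ℤ) {ι : Type*} (A : Finset ι) (f : ι → V n) :
    act g (∑ i ∈ A, f i) = ∑ i ∈ A, act g (f i) := by
  classical
  induction A using Finset.induction_on with
  | empty => simp [act_zero]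
  | insert a A ha ih => rw [Finset.sum_insert ha, Finset.sum_insert ha, act_add, ih]

theorem act_inv_act (g : GL (Fin n) ℤ) (x : V n) : act g⁻¹ (act g x) = x := by
  rw [← act_mul, inv_mul_cancel, act_one]

theorem act_act_inv (g : GL (Fin n) ℤ) (x : V n) : act g (act g⁻¹ x) = x := by
  rw [← act_mul, mul_inv_cancel, act_one]

/-- `act g` as a linear map -/
def actL (g : GL (Fin n) ℤ) : V n →ₗ[ℝ] V n where
  toFun := act g
  map_add' := act_add g
  map_smul' := act_smul g

theorem mem_image_act {g : GL (Fin n) ℤ} {A : Set (V n)} {x : V n} :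
    x ∈ act g '' A ↔ act g⁻¹ x ∈ A := by
  constructor
  · rintro ⟨y, hy, rfl⟩
    rwa [act_inv_act]
  · intro h
    exact ⟨_, h, act_act_inv g x⟩

theorem Pres.iff {G : Subgroup (GL (Fin n) ℤ)} {C : Set (V n)} (h : Pres G C) {g : GL (Fin n) ℤ}
    (hg : g ∈ G) (x : V n) : act g x ∈ C ↔ x ∈ C := by
  constructor
  · intro hx
    have := h _ (G.inv_mem hg) _ hx
    rwa [act_inv_act] at this
  · exact h g hg x

theorem Pres.closure {G : Subgroup (GL (Fin n) ℤ)} {C : Set (V n)} (h : Pres G C) :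
    Pres G (closure C) := fun g hg => act_closure (h g hg)

/-! ### cones -/

theorem zero_mem_cone (S : Finset (Fin n → ℤ)) : (0 : V n) ∈ cone S :=
  ⟨fun _ => 0, fun _ => le_rfl, by simp⟩

theorem cone_add {S : Finset (Fin n → ℤ)} {x y : V n} (hx : x ∈ cone S) (hy : y ∈ cone S) :
    x + y ∈ cone S := by
  obtain ⟨c, hc, rfl⟩ := hx
  obtain ⟨d, hd, rfl⟩ := hy
  exact ⟨fun s => c s + d s, fun s => add_nonneg (hc s) (hd s), by
    rw [← Finset.sum_add_distrib]; exact Finset.sum_congr rfl fun s _ => (add_smul _ _ _).symm⟩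

theorem cone_smul {S : Finset (Fin n → ℤ)} {x : V n} {t : ℝ} (ht : 0 ≤ t) (hx : x ∈ cone S) :
    t • x ∈ cone S := by
  obtain ⟨c, hc, rfl⟩ := hx
  exact ⟨fun s => t * c s, fun s => mul_nonneg ht (hc s), by
    rw [Finset.smul_sum]; exact Finset.sum_congr rfl fun s _ => (mul_smul _ _ _).symm⟩

theorem cone_mono {S T : Finset (Fin n → ℤ)} (h : S ⊆ T) : cone S ⊆ cone T := by
  classical
  rintro x ⟨c, hc, rfl⟩
  refine ⟨fun s => if s ∈ S then c s else 0, fun s => by dsimp only; split_ifs; exacts [hc s, le_rfl], ?_⟩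
  rw [← Finset.sum_subset h]
  · refine Finset.sum_congr rfl fun s hs => ?_
    simp [hs]
  · intro s _ hs
    simp [hs]

theorem toR_mem_cone {S : Finset (Fin n → ℤ)} {s : Fin n → ℤ} (hs : s ∈ S) : toR s ∈ cone S := by
  classical
  refine ⟨fun t => if t = s then 1 else 0, fun t => by dsimp only; split_ifs <;> norm_num, ?_⟩
  rw [Finset.sum_eq_single s]
  · simp
  · intro t _ ht
    simp [ht]
  · exact fun h => absurd hs h

theorem sum_mem_cone {S : Finset (Fin n → ℤ)} {ι : Type*} (A : Finset ι) (f : ι → V n)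
    (h : ∀ i ∈ A, f i ∈ cone S) : ∑ i ∈ A, f i ∈ cone S := by
  classical
  induction A using Finset.induction_on with
  | empty => simpa using zero_mem_cone S
  | insert a A ha ih =>
    rw [Finset.sum_insert ha]
    exact cone_add (h a (Finset.mem_insert_self _ _))
      (ih fun i hi => h i (Finset.mem_insert_of_mem hi))

theorem cone_empty : cone (∅ : Finset (Fin n → ℤ)) = {0} := by
  ext x
  simp only [cone, Finset.sum_empty, Set.mem_ofPred_eq, Set.mem_singleton_iff]
  exact ⟨fun ⟨_, _, h⟩ => h, fun h => ⟨fun _ => 0, fun _ => le_rfl, h⟩⟩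

/-! ### open cones -/

theorem _root_.Pool.Agent.H57.KM.IsAmp.oc {C : Set (V n)} (h : IsAmp C) : IsOC C :=
  ⟨h.ne, h.op, h.add, h.smul⟩

namespace IsOC

variable {C : Set (V n)}

theorem zero_closure (h : IsOC C) : (0 : V n) ∈ closure C := by
  obtain ⟨x, hx⟩ := h.ne
  have h1 : Filter.Tendsto (fun k : ℕ => ((1 : ℝ) / ((k : ℝ) + 1)) • x) Filter.atTop (nhds 0) := by
    have h2 := (tendsto_one_div_add_atTop_nhds_zero_nat (𝕜 := ℝ)).smul_const x
    simpa using h2
  refine mem_closure_of_tendsto h1 (Filter.Eventually.of_forall (fun k => ?_))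
  exact h.smul _ (by positivity) x hx

theorem closure_add (h : IsOC C) {x y : V n} (hx : x ∈ closure C) (hy : y ∈ closure C) :
    x + y ∈ closure C :=
  map_mem_closure₂ continuous_add hx hy (fun a ha b hb => h.add a ha b hb)

theorem closure_smul (h : IsOC C) {c : ℝ} (hc : 0 ≤ c) {x : V n} (hx : x ∈ closure C) :
    c • x ∈ closure C := by
  rcases hc.eq_or_lt with hc0 | hc0
  · rw [← hc0, zero_smul]
    exact h.zero_closure
  · exact map_mem_closure (continuous_const_smul c) hx (fun a ha => h.smul c hc0 a ha)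

theorem add_mem (h : IsOC C) {x y : V n} (hx : x ∈ closure C) (hy : y ∈ C) : x + y ∈ C := by
  have hU : IsOpen {z : V n | y + (x - z) ∈ C} :=
    h.op.preimage (continuous_const.add (continuous_const.sub continuous_id))
  have hxU : x ∈ {z : V n | y + (x - z) ∈ C} := by
    change y + (x - x) ∈ C
    rw [sub_self, add_zero]
    exact hy
  obtain ⟨z, hzU, hzC⟩ := mem_closure_iff.1 hx _ hU hxU
  have h1 : x + y = z + (y + (x - z)) := by abel
  rw [h1]
  exact h.add z hzC _ hzU

theorem add_mem' (h : IsOC C) {x y : V n} (hx : x ∈ C) (hy : y ∈ closure C) : x + y ∈ C := by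
  rw [add_comm]; exact h.add_mem hy hx

theorem convex (h : IsOC C) : Convex ℝ C := by
  intro x hx y hy a b ha hb hab
  rcases ha.eq_or_lt with ha0 | ha0
  · rw [← ha0, zero_add] at hab
    rw [← ha0, hab, zero_smul, zero_add, one_smul]
    exact hy
  · rcases hb.eq_or_lt with hb0 | hb0
    · rw [← hb0, add_zero] at hab
      rw [← hb0, hab, zero_smul, add_zero, one_smul]
      exact hx
    · exact h.add _ (h.smul a ha0 x hx) _ (h.smul b hb0 y hy)

theorem sum_closure (h : IsOC C) {ι : Type*} (A : Finset ι) (f : ι → V n)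
    (hf : ∀ i ∈ A, f i ∈ closure C) : ∑ i ∈ A, f i ∈ closure C := by
  classical
  induction A using Finset.induction_on with
  | empty => simpa using h.zero_closure
  | insert a A ha ih =>
    rw [Finset.sum_insert ha]
    exact h.closure_add (hf a (Finset.mem_insert_self _ _))
      (ih fun i hi => hf i (Finset.mem_insert_of_mem hi))

theorem cone_sub (h : IsOC C) {S : Finset (Fin n → ℤ)} (hS : ∀ s ∈ S, toR s ∈ closure C) :
    cone S ⊆ closure C := by
  rintro x ⟨c, hc, rfl⟩
  exact h.sum_closure S _ fun s hs => h.closure_smul (hc s) (hS s hs)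

/-- every point of an open cone is at least a small multiple of any other point -/
theorem exists_sub (h : IsOC C) {x : V n} (hx : x ∈ C) (y : V n) : ∃ ε : ℝ, 0 < ε ∧ x - ε • y ∈ C := by
  have hc : Filter.Tendsto (fun ε : ℝ => x - ε • y) (nhdsWithin 0 (Set.Ioi 0)) (nhds x) := by
    have : Filter.Tendsto (fun ε : ℝ => x - ε • y) (nhds 0) (nhds (x - (0 : ℝ) • y)) :=
      tendsto_const_nhds.sub (Filter.tendsto_id.smul_const y)
    rw [zero_smul, sub_zero] at this
    exact this.mono_left nhdsWithin_le_nhds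
  have h1 := (hc.eventually (h.op.mem_nhds hx)).and self_mem_nhdsWithin
  obtain ⟨ε, h2, h3⟩ := h1.exists
  exact ⟨ε, h3, h2⟩

theorem pos_dot (h : IsOC C) {z : V n} (hz : z ∈ Mori C) (hz0 : z ≠ 0) {x : V n} (hx : x ∈ C) :
    0 < z ⬝ᵥ x := by
  obtain ⟨ε, hε, h1⟩ := h.exists_sub hx z
  have h2 := hz _ h1
  rw [dotProduct_sub, dotProduct_smul, smul_eq_mul] at h2
  have h3 : 0 < z ⬝ᵥ z := by
    rcases (Finset.sum_nonneg (fun i _ => mul_self_nonneg (z i)) : 0 ≤ z ⬝ᵥ z).eq_or_lt with h0 | h0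
    · exact absurd (dotProduct_self_eq_zero.1 h0.symm) hz0
    · exact h0
  nlinarith [mul_pos hε h3]

end IsOC

theorem Mori.closure {C : Set (V n)} {z : V n} (hz : z ∈ Mori C) {x : V n} (hx : x ∈ closure C) :
    0 ≤ z ⬝ᵥ x := by
  have hcl : IsClosed {x : V n | 0 ≤ z ⬝ᵥ x} := by
    refine isClosed_le continuous_const ?_
    unfold dotProduct
    fun_prop
  exact closure_minimal (fun y hy => hz y hy) hcl hx

theorem dual_sub_Mori {C : Set (V n)} : dual C ⊆ Mori C := by
  intro z hz x hx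
  by_cases h0 : x = 0
  · rw [h0, dotProduct_zero]
  · exact (hz x (subset_closure hx) h0).le

/-- integral points of `C` are in `core C` -/
theorem mem_core {C : Set (V n)} (h : IsOC C) {v : Fin n → ℤ} (hv : toR v ∈ C) : toR v ∈ core C := by
  refine ⟨hv, fun z hz hzM => ?_⟩
  have h1 := h.pos_dot hzM (toR_ne_zero hz) hv
  rw [dot_toR] at h1 ⊢
  exact_mod_cast h1

theorem sInd_sub_Ind {C : Set (V n)} (h : IsOC C) : SInd C ⊆ Ind C := by
  rintro v ⟨hv, hv2⟩
  refine ⟨hv, fun a x ha hx hvax => ?_⟩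
  refine hv2 x ?_ ?_
  · rw [toR_add]
    exact h.add_mem' hv hx
  · have : v - x = a := by rw [hvax]; abel
    rw [this]
    exact ha

theorem FinOrb.mono {G : Subgroup (GL (Fin n) ℤ)} {A B : Set (Fin n → ℤ)} (h : A ⊆ B)
    (hB : FinOrb G B) : FinOrb G A := by
  obtain ⟨F, hF, h1⟩ := hB
  exact ⟨F, hF, fun v hv => h1 v (h hv)⟩

end Pool.Agent.H20.FV
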