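import Pool.Agent.H32.Cone.Fund
import Pool.Agent.H20.FV.Basic

/-!
[H20 FV DATUM]  The exact fundamental domain from a covering: translation of `H32/Cone/Fund.lean` into coordinates.

Build a `Pool.Agent.H32.Cone.Datum (V n)`: `L` = the `ℤ`-span of the unit vectors
(`Submodule.span ℤ (Set.range (Pi.basisFun ℝ (Fin n)))`, discrete and spanning; its elements are the `toR s`), `C` the given
cone, `E = C ∪ closure C = closure C`.  `G' : Subgroup (V n ≃ₗ[ℝ] V n)` = the set of the linear equivalences given by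
`act g`, `g ∈ G` (image of `G` under a homomorphism; `g ↦ act g` is injective, `act_inj`).  `D.Pres` holds.  With
`S' = S.image toR` one has `pcone S' = cone S` (`toR` injective).
(1) `Pool.Agent.H32.Cone.fund` gives a finite set `T` of lattice vectors with `D.Plus = ⋃ g '' pcone T` and disjoint
interiors (there in the form: if the interiors meet then `g = 1`); `Pool.Agent.H32.Cone.cover_plus` gives
`D.Plus ⊆ ⋃ g '' pcone S'`.
(2) `D.Plus = convexHull ℝ {x | x ∈ closure C ∧ ∃ q, x = qR q}`.  `⊆`: let `x = ∑_{t ∈ T} c_t t`, `c_t ≥ 0`,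
`t ∈ L ∩ closure C`; each `c_t t` lies on the segment from `0` to `N t` for an integer `N ≥ k c_t` ... precisely, with
`k = #T` (if `k = 0`, `x = 0` is a rational point of `closure C`), `x = (1/k) ∑ k c_t t`, and `k c_t t` is a convex
combination of the rational points `0` and `N t` of `closure C`, `N ≥ k c_t`, `N ≥ 1` natural.  `⊇`: `D.Plus` is convex (sum
and nonnegative multiples) and a rational point `qR q` of `closure C` is `(1/d) • toR s` with `toR s = d • qR q ∈ closure C`.
(`Pool.Agent.H32.Cone.Basic` has lemmas about `Plus`.)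
-/

set_option autoImplicit false

open MeasureTheory
open scoped ENNReal

namespace Pool.Agent.H20.FV

open Pool.Agent.H57.KM

variable {n : ℕ}

theorem datum_toR_inj : Function.Injective (toR : (Fin n → ℤ) → V n) := fun _ _ h => toR_inj h

/-- the lattice of the integral vectors -/
def datumL (n : ℕ) : Submodule ℤ (V n) := Submodule.span ℤ (Set.range (Pi.basisFun ℝ (Fin n)))

theorem datum_memL {x : V n} : x ∈ datumL n ↔ ∃ s : Fin n → ℤ, x = toR s := by
  unfold datumL
  rw [Module.Basis.mem_span_iff_repr_mem]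
  constructor
  · intro h
    choose s hs using h
    refine ⟨s, ?_⟩
    funext i
    have := hs i
    simp only [Pi.basisFun_repr] at this
    rw [← this]
    rfl
  · rintro ⟨s, rfl⟩ i
    exact ⟨s i, by simp [toR]⟩

theorem datum_discrete : DiscreteTopology (datumL n) :=
  inferInstanceAs (DiscreteTopology (Submodule.span ℤ (Set.range (Pi.basisFun ℝ (Fin n)))))

theorem datum_span : Submodule.span ℝ (datumL n : Set (V n)) = ⊤ := by
  rw [eq_top_iff, ← (Pi.basisFun ℝ (Fin n)).span_eq]
  exact Submodule.span_mono Submodule.subset_span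

/-- the datum of a cone -/
def datumD {C : Set (V n)} (h : IsAmp C) : Pool.Agent.H32.Cone.Datum (V n) where
  L := datumL n
  C := C
  E := C
  discrete := datum_discrete
  span_top := datum_span
  open_C := h.op
  nonempty_C := h.ne
  add_C := h.add
  smul_C := h.smul
  pointed := h.pointed
  C_sub_E := subset_rfl

theorem datum_pcone (S : Finset (Fin n → ℤ)) :
    Pool.Agent.H32.Cone.pcone (S.image toR) = cone S := by
  classical
  ext x
  constructor
  · rintro ⟨c, hc, rfl⟩
    refine ⟨fun s => max (c (toR s)) 0, fun s => le_max_right _ _, ?_⟩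
    rw [Finset.sum_image (fun a _ b _ h => toR_inj h)]
    refine Finset.sum_congr rfl fun s hs => ?_
    dsimp only
    rw [max_eq_left (hc _ (Finset.mem_image_of_mem _ hs))]
  · rintro ⟨c, hc, rfl⟩
    refine ⟨Function.extend toR c 0, ?_, ?_⟩
    · intro s hs
      obtain ⟨t, _, rfl⟩ := Finset.mem_image.1 hs
      rw [datum_toR_inj.extend_apply]
      exact hc t
    · rw [Finset.sum_image (fun a _ b _ h => toR_inj h)]
      refine Finset.sum_congr rfl fun s _ => ?_
      rw [datum_toR_inj.extend_apply]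

/-- a finite set of lattice vectors comes from a finite set of integral vectors -/
theorem datum_lift {T : Finset (V n)} (hT : ∀ t ∈ T, t ∈ datumL n) :
    ∃ S : Finset (Fin n → ℤ), S.image toR = T := by
  classical
  refine ⟨T.preimage toR datum_toR_inj.injOn, ?_⟩
  rw [Finset.image_preimage]
  apply Finset.filter_true_of_mem
  intro t ht
  obtain ⟨s, hs⟩ := datum_memL.1 (hT t ht)
  exact ⟨s, hs.symm⟩

/-- `act g` as a linear equivalence -/
def datumE (g : GL (Fin n) ℤ) : V n ≃ₗ[ℝ] V n where
  toFun := act g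
  map_add' := act_add g
  map_smul' := act_smul g
  invFun := act g⁻¹
  left_inv := act_inv_act g
  right_inv := act_act_inv g

/-- the group of the linear equivalences `act g`, `g ∈ G` -/
def datumG (G : Subgroup (GL (Fin n) ℤ)) : Subgroup (V n ≃ₗ[ℝ] V n) where
  carrier := {e | ∃ g ∈ G, ∀ x, e x = act g x}
  mul_mem' := by
    rintro a b ⟨g, hg, hg2⟩ ⟨k, hk, hk2⟩
    refine ⟨g * k, G.mul_mem hg hk, fun x => ?_⟩
    show a (b x) = _
    rw [hg2, hk2, act_mul]
  one_mem' := ⟨1, G.one_mem, fun x => (act_one x).symm⟩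
  inv_mem' := by
    rintro a ⟨g, hg, hg2⟩
    refine ⟨g⁻¹, G.inv_mem hg, fun x => ?_⟩
    show a.symm x = _
    rw [LinearEquiv.symm_apply_eq, hg2, act_act_inv]

theorem datum_pres {C : Set (V n)} (h : IsAmp C) {G : Subgroup (GL (Fin n) ℤ)} (hG : Pres G C) :
    ∀ e ∈ datumG G, (datumD h).Pres e := by
  rintro e ⟨g, hg, he⟩
  constructor
  · intro x
    show e x ∈ datumL n ↔ x ∈ datumL n
    rw [he, datum_memL, datum_memL]
    constructor
    · rintro ⟨s, hs⟩
      obtain ⟨t, ht⟩ := exists_toR_act g⁻¹ s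
      refine ⟨t, ?_⟩
      rw [ht, ← hs, act_inv_act]
    · rintro ⟨s, rfl⟩
      obtain ⟨t, ht⟩ := exists_toR_act g s
      exact ⟨t, ht.symm⟩
  · intro x
    show e x ∈ C ↔ x ∈ C
    rw [he]
    exact hG.iff hg x

/-- the rational points of the closure -/
def datumR (C : Set (V n)) : Set (V n) := {x | x ∈ closure C ∧ ∃ q : Fin n → ℚ, x = qR q}

theorem datum_hull_smul {C : Set (V n)} (h : IsAmp C) {c : ℝ} (hc : 0 ≤ c) {x : V n}
    (hx : x ∈ convexHull ℝ (datumR C)) : c • x ∈ convexHull ℝ (datumR C) := by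
  have hzero : (0 : V n) ∈ convexHull ℝ (datumR C) := by
    apply subset_convexHull
    exact ⟨h.zero_closure, 0, by funext i; simp [qR]⟩
  have hnat : ∀ N : ℕ, ∀ y ∈ convexHull ℝ (datumR C), (N : ℝ) • y ∈ convexHull ℝ (datumR C) := by
    intro N
    have h1 : convexHull ℝ (datumR C) ⊆ {y | (N : ℝ) • y ∈ convexHull ℝ (datumR C)} := by
      apply convexHull_min
      · rintro y ⟨hy, q, rfl⟩
        apply subset_convexHull
        refine ⟨h.closure_smul _ (Nat.cast_nonneg N) _ hy, (N : ℚ) • q, ?_⟩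
        funext i
        simp [qR]
      · intro y hy z hz a b ha hb hab
        show (N : ℝ) • (a • y + b • z) ∈ convexHull ℝ (datumR C)
        have e : (N : ℝ) • (a • y + b • z) = a • ((N : ℝ) • y) + b • ((N : ℝ) • z) := by
          rw [smul_add, smul_comm (N : ℝ) a y, smul_comm (N : ℝ) b z]
        rw [e]
        exact convex_convexHull ℝ _ hy hz ha hb hab
    exact fun y hy => h1 hy
  obtain ⟨N, hN⟩ := exists_nat_ge (max c 1)
  have hN1 : 1 ≤ (N : ℝ) := (le_max_right _ _).trans hN
  have hNc : c ≤ N := (le_max_left _ _).trans hN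
  have hN0 : 0 < (N : ℝ) := by linarith
  have e : c • x = (c / N) • ((N : ℝ) • x) + (1 - c / N) • (0 : V n) := by
    rw [smul_zero, add_zero, smul_smul, div_mul_cancel₀ _ hN0.ne']
  rw [e]
  apply convex_convexHull ℝ _ (hnat N x hx) hzero (by positivity) _ (by ring)
  rw [sub_nonneg, div_le_one hN0]
  exact hNc

theorem datum_hull_add {C : Set (V n)} (h : IsAmp C) {x y : V n}
    (hx : x ∈ convexHull ℝ (datumR C)) (hy : y ∈ convexHull ℝ (datumR C)) :
    x + y ∈ convexHull ℝ (datumR C) := by
  have e : x + y = (1 / 2 : ℝ) • ((2 : ℝ) • x) + (1 / 2 : ℝ) • ((2 : ℝ) • y) := by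
    rw [smul_smul, smul_smul]
    norm_num
  rw [e]
  exact convex_convexHull ℝ _ (datum_hull_smul h (by norm_num) hx)
    (datum_hull_smul h (by norm_num) hy) (by norm_num) (by norm_num) (by norm_num)

theorem datum_clear (q : Fin n → ℚ) : ∃ d : ℕ, 0 < d ∧ ∃ s : Fin n → ℤ, toR s = (d : ℝ) • qR q := by
  obtain ⟨d, hd⟩ : ∃ d : ℕ, d = ∏ i, (q i).den := ⟨_, rfl⟩
  have hd0 : 0 < d := by
    rw [hd]
    exact Finset.prod_pos (fun i _ => (q i).den_pos)
  have h1 : ∀ i, ∃ z : ℤ, (z : ℚ) = (d : ℚ) * q i := by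
    intro i
    obtain ⟨e, he⟩ : (q i).den ∣ d := by
      rw [hd]
      exact Finset.dvd_prod_of_mem _ (Finset.mem_univ i)
    refine ⟨(e : ℤ) * (q i).num, ?_⟩
    have h2 : q i * (q i).den = (q i).num := Rat.mul_den_eq_num (q i)
    rw [he]
    push_cast
    rw [← h2]
    ring
  choose z hz using h1
  refine ⟨d, hd0, z, ?_⟩
  funext i
  simp only [toR, qR, Pi.smul_apply, smul_eq_mul]
  have := congrArg (fun t : ℚ => (t : ℝ)) (hz i)
  push_cast at this
  exact this

theorem datum_plus {C : Set (V n)} (h : IsAmp C) :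
    (datumD h).Plus = convexHull ℝ (datumR C) := by
  classical
  apply Set.Subset.antisymm
  · rintro x ⟨T, hT, c, hc, rfl⟩
    have key : ∀ U : Finset (V n), U ⊆ T → ∑ s ∈ U, c s • s ∈ convexHull ℝ (datumR C) := by
      intro U
      induction U using Finset.induction_on with
      | empty =>
        intro _
        rw [Finset.sum_empty]
        apply subset_convexHull
        exact ⟨h.zero_closure, 0, by funext i; simp [qR]⟩
      | insert a U ha ih =>
        intro hU
        rw [Finset.sum_insert ha]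
        apply datum_hull_add h _ (ih (fun t ht => hU (Finset.mem_insert_of_mem ht)))
        have haT := hU (Finset.mem_insert_self a U)
        apply datum_hull_smul h (hc a haT)
        apply subset_convexHull
        obtain ⟨s, hs⟩ := datum_memL.1 (hT a haT).1
        refine ⟨(hT a haT).2, fun i => (s i : ℚ), ?_⟩
        rw [hs]
        funext i
        simp [toR, qR]
    exact key T (Finset.Subset.refl T)
  · apply convexHull_min
    · rintro x ⟨hx, q, rfl⟩
      obtain ⟨d, hd, s, hs⟩ := datum_clear q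
      have hd0 : (0 : ℝ) < d := by exact_mod_cast hd
      refine ⟨{toR s}, ?_, ?_⟩
      · intro t ht
        rw [Finset.mem_singleton] at ht
        subst ht
        refine ⟨datum_memL.2 ⟨s, rfl⟩, ?_⟩
        show toR s ∈ closure C
        rw [hs]
        exact h.closure_smul _ hd0.le _ hx
      · have e : qR q = (1 / (d : ℝ)) • toR s := by
          rw [hs, smul_smul, one_div_mul_cancel hd0.ne', one_smul]
        rw [e]
        exact Pool.Agent.H32.Cone.pcone_smul (by positivity)
          (Pool.Agent.H32.Cone.pcone_mem (Finset.mem_singleton_self _))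
    · intro x hx y hy a b ha hb _
      exact Pool.Agent.H32.Cone.Datum.plus_add (Pool.Agent.H32.Cone.Datum.plus_smul ha hx)
        (Pool.Agent.H32.Cone.Datum.plus_smul hb hy)

theorem datum_union (G : Subgroup (GL (Fin n) ℤ)) (A : Set (V n)) :
    (⋃ e ∈ datumG G, (fun x => e x) '' A) = ⋃ g ∈ G, act g '' A := by
  ext x
  simp only [Set.mem_iUnion, Set.mem_image, exists_prop]
  constructor
  · rintro ⟨e, ⟨g, hg, he⟩, y, hy, rfl⟩
    exact ⟨g, hg, y, hy, (he y).symm⟩
  · rintro ⟨g, hg, y, hy, rfl⟩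
    exact ⟨datumE g, ⟨g, hg, fun _ => rfl⟩, y, hy, rfl⟩

theorem cov_domain {C : Set (V n)} (h : IsAmp C) {G : Subgroup (GL (Fin n) ℤ)} (hG : Pres G C)
    {S : Finset (Fin n → ℤ)} (hS : ∀ s ∈ S, toR s ∈ closure C)
    (hcov : C ⊆ ⋃ g ∈ G, act g '' cone S) :
    HasDomain C G ∧
      convexHull ℝ {x | x ∈ closure C ∧ ∃ q : Fin n → ℚ, x = qR q} ⊆ ⋃ g ∈ G, act g '' cone S := by
  classical
  have hS' : ∀ s ∈ S.image toR, s ∈ (datumD h).L ∧ s ∈ closure (datumD h).C := by
    intro s hs
    obtain ⟨t, ht, rfl⟩ := Finset.mem_image.1 hs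
    exact ⟨datum_memL.2 ⟨t, rfl⟩, hS t ht⟩
  have hcov' : ∀ x ∈ (datumD h).C, ∃ g ∈ datumG G,
      ∃ y ∈ Pool.Agent.H32.Cone.pcone (S.image toR), g y = x := by
    intro x hx
    have h1 := hcov hx
    rw [← datum_pcone, ← datum_union] at h1
    simpa only [Set.mem_iUnion, Set.mem_image, exists_prop] using h1
  have hP := datum_plus h
  have hP' : convexHull ℝ {x | x ∈ closure C ∧ ∃ q : Fin n → ℚ, x = qR q} = (datumD h).Plus :=
    hP.symm
  refine ⟨?_, ?_⟩
  · obtain ⟨T, hT, hT2, hT3⟩ := Pool.Agent.H32.Cone.Datum.fund (datum_pres h hG) hS' hcov'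
    obtain ⟨U, hU⟩ := datum_lift hT
    rw [← hU, datum_pcone] at hT2 hT3
    refine ⟨cone U, ⟨U, rfl⟩, ?_, ?_⟩
    · rw [hP', hT2, datum_union]
    · intro g hg hg1
      rw [Set.disjoint_iff_inter_eq_empty]
      by_contra hne
      rw [← ne_eq, ← Set.nonempty_iff_ne_empty] at hne
      have h1 := hT3 (datumE g) ⟨g, hg, fun _ => rfl⟩ hne
      apply hg1
      apply act_inj
      intro x
      rw [act_one]
      exact congrArg (fun e : V n ≃ₗ[ℝ] V n => e x) h1
  · rw [hP']
    intro x hx
    rw [← datum_pcone, ← datum_union]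
    obtain ⟨g, hg, y, hy, hyx⟩ :=
      Pool.Agent.H32.Cone.Datum.cover_plus (datum_pres h hG) hS' hcov' x hx
    simp only [Set.mem_iUnion, Set.mem_image, exists_prop]
    exact ⟨g, hg, y, hy, hyx⟩

end Pool.Agent.H20.FV
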