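import Pool.Agent.H20.FV.Basic
import Pool.Agent.H32.Cone.FM
import Pool.Agent.H20.FV.Datum

/-!
[H20 FV WEYL]  A cone defined by finitely many integral inequalities is generated by finitely many integral vectors.

`Pool.Agent.H32.Cone.Datum.fm_many` (file H32/Cone/FM.lean, import `Pool.Agent.H32.Cone.FM`) says: for a finite set `S` of
lattice vectors and a finite set of integral functionals the intersection of `pcone S` with the half spaces is `pcone T`
for a finite set `T` of lattice vectors.  Use it with the datum on `V n`: `L` = the `ℤ`-span of the unit vectors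
(`Submodule.span ℤ (Set.range (Pi.basisFun ℝ (Fin n)))`, discrete and spanning by the `ZSpan` instances; its elements are
the integral vectors `toR s`), `C` = `E` = the open positive orthant, and `S` = the unit vectors and their negatives
(`pcone S` is everything).  Alternatively prove it directly by the double description step: if `cone T0` is given and
`f` is integral then `cone T0 ∩ {f ≥ 0}` is generated by the `t ∈ T0` with `f t ≥ 0` and the vectors
`f(p) q - f(q) p` with `f(p) > 0 > f(q)`.
-/

set_option autoImplicit false

open MeasureTheory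
open scoped ENNReal

namespace Pool.Agent.H20.FV

open Pool.Agent.H57.KM

variable {n : ℕ}

/-- the open positive orthant is a cone -/
theorem weyl_amp : IsAmp {x : V n | ∀ i, 0 < x i} where
  ne := ⟨fun _ => 1, fun _ => one_pos⟩
  op := by
    have : {x : V n | ∀ i, 0 < x i} = ⋂ i, {x | 0 < x i} := by
      ext x
      simp
    rw [this]
    exact isOpen_iInter_of_finite fun i => isOpen_lt continuous_const (continuous_apply i)
  add := fun x hx y hy i => add_pos (hx i) (hy i)
  smul := fun c hc x hx i => mul_pos hc (hx i)
  pointed := by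
    have hcl : closure {x : V n | ∀ i, 0 < x i} ⊆ {x | ∀ i, 0 ≤ x i} := by
      apply closure_minimal
      · intro x hx i
        exact (hx i).le
      · have : {x : V n | ∀ i, 0 ≤ x i} = ⋂ i, {x | 0 ≤ x i} := by
          ext x
          simp
        rw [this]
        exact isClosed_iInter fun i => isClosed_le continuous_const (continuous_apply i)
    intro x hx hx'
    funext i
    have h1 := hcl hx i
    have h2 := hcl hx' i
    simp only [Pi.neg_apply] at h2
    simp only [Pi.zero_apply]
    linarith

/-- the unit vectors and their negatives -/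
def weylS (n : ℕ) : Finset (Fin n → ℤ) :=
  Finset.univ.image (fun i => Pi.single i (1 : ℤ)) ∪ Finset.univ.image (fun i => Pi.single i (-1 : ℤ))

theorem weyl_all (x : V n) : x ∈ cone (weylS n) := by
  classical
  have h1 : x = ∑ i, Pi.single i (x i) := (Finset.univ_sum_single x).symm
  rw [h1]
  apply sum_mem_cone
  intro i _
  rcases le_total 0 (x i) with h | h
  · have e : (Pi.single i (x i) : V n) = (x i) • toR (Pi.single i (1 : ℤ)) := by
      funext j
      by_cases hj : j = i
      · subst hj; simp [toR]
      · simp [toR, hj]
    rw [e]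
    apply cone_smul h
    apply toR_mem_cone
    exact Finset.mem_union_left _ (Finset.mem_image_of_mem _ (Finset.mem_univ i))
  · have e : (Pi.single i (x i) : V n) = (-x i) • toR (Pi.single i (-1 : ℤ)) := by
      funext j
      by_cases hj : j = i
      · subst hj; simp [toR]
      · simp [toR, hj]
    rw [e]
    apply cone_smul (by linarith)
    apply toR_mem_cone
    exact Finset.mem_union_right _ (Finset.mem_image_of_mem _ (Finset.mem_univ i))

/-- the functional given by an integral vector -/
def weylF (f : Fin n → ℤ) : V n →ₗ[ℝ] ℝ where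
  toFun x := toR f ⬝ᵥ x
  map_add' _ _ := dotProduct_add _ _ _
  map_smul' _ _ := dotProduct_smul _ _ _

theorem weyl (F : Finset (Fin n → ℤ)) :
    ∃ T : Finset (Fin n → ℤ), {x : V n | ∀ f ∈ F, 0 ≤ toR f ⬝ᵥ x} = cone T := by
  classical
  obtain ⟨T, hT, hT2⟩ := (datumD (weyl_amp (n := n))).fm_many (S := (weylS n).image toR)
    (by
      intro s hs
      obtain ⟨t, _, rfl⟩ := Finset.mem_image.1 hs
      exact datum_memL.2 ⟨t, rfl⟩)
    (F := weylF '' (F : Set (Fin n → ℤ))) (F.finite_toSet.image _)
    (by
      rintro _ ⟨f, _, rfl⟩ l hl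
      obtain ⟨s, rfl⟩ := datum_memL.1 hl
      exact ⟨f ⬝ᵥ s, dot_toR f s⟩)
  obtain ⟨U, hU⟩ := datum_lift hT
  refine ⟨U, ?_⟩
  rw [← datum_pcone, hU, hT2, datum_pcone]
  ext x
  constructor
  · intro hx
    refine ⟨weyl_all x, ?_⟩
    rintro _ ⟨f, hf, rfl⟩
    exact hx f hf
  · rintro ⟨-, hx⟩ f hf
    exact hx (weylF f) ⟨f, hf, rfl⟩

end Pool.Agent.H20.FV
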