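import Pool.Agent.H20.FV.Basic

/-!
[H20 FV CAR]  Caratheodory for finitely generated cones.

(1) `car`: among the subsets `T` of `X` with `y ∈ cone T` take one of least cardinality, `y = ∑_{s ∈ T} c_s toR s`.  All
`c_s > 0` for `s ∈ T` (otherwise remove `s`).  If the `toR s`, `s ∈ T`, are linearly dependent there are `d_s`, not all
zero, with `∑ d_s toR s = 0`, and some `d_s > 0` (otherwise replace `d` by `-d`).  Let `s0` minimise `c_s / d_s` over the
`s` with `d_s > 0`, `λ = c_{s0} / d_{s0}`; then `y = ∑ (c_s - λ d_s) toR s` with nonnegative coefficients and the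
coefficient of `s0` is zero: contradiction to minimality.
(2) `carb`: for each of the finitely many `T ⊆ X` with `toR` linearly independent on `T` the coefficients of a vector `y`
of the span of `toR '' T` are linear in `y`, so there is `c_T` with `|coefficient| ≤ c_T * ‖y‖` (a linear map between
finite dimensional spaces is bounded: the injective linear map `(T → ℝ) → V n`, `a ↦ ∑ a_s toR s` has
`‖a‖ ≤ c_T ‖∑ a_s toR s‖`, `LinearMap.exists_antilipschitzWith`).  `c` = the sum of the `c_T`.  Outside `T` the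
coefficients are `0`.
-/

set_option autoImplicit false

open MeasureTheory
open scoped ENNReal

namespace Pool.Agent.H20.FV

open Pool.Agent.H57.KM

variable {n : ℕ}

/-- one step: a dependency removes a vector -/
theorem car_step (T : Finset (Fin n → ℤ)) {y : V n} (hy : y ∈ cone T) (f : (Fin n → ℤ) → ℝ)
    (hf : ∑ s ∈ T, f s • (toR s : V n) = 0) (hpos : ∃ s ∈ T, 0 < f s) :
    ∃ s0 ∈ T, y ∈ cone (T.erase s0) := by
  classical
  obtain ⟨c, hc, rfl⟩ := hy
  have hne : (T.filter fun s => 0 < f s).Nonempty := by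
    obtain ⟨s, hs, h1⟩ := hpos
    exact ⟨s, Finset.mem_filter.2 ⟨hs, h1⟩⟩
  obtain ⟨s0, hs0, hmin⟩ := Finset.exists_min_image _ (fun s => c s / f s) hne
  obtain ⟨hs0T, hs0p⟩ := Finset.mem_filter.1 hs0
  refine ⟨s0, hs0T, ?_⟩
  set l : ℝ := c s0 / f s0 with hl
  have hl0 : 0 ≤ l := div_nonneg (hc s0) hs0p.le
  have hnn : ∀ s ∈ T, 0 ≤ c s - l * f s := by
    intro s hs
    rcases le_or_gt (f s) 0 with h1 | h1
    · have := mul_nonneg hl0 (neg_nonneg.2 h1)
      have := hc s
      nlinarith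
    · have h2 := hmin s (Finset.mem_filter.2 ⟨hs, h1⟩)
      have h3 : l * f s ≤ c s := (le_div_iff₀ h1).1 h2
      linarith
  refine ⟨fun s => if s ∈ T then c s - l * f s else 0, fun s => ?_, ?_⟩
  · dsimp only
    split_ifs with h
    · exact hnn s h
    · exact le_rfl
  · have h1 : ∑ s ∈ T, c s • (toR s : V n) = ∑ s ∈ T, (c s - l * f s) • (toR s : V n) := by
      have h2 : ∑ s ∈ T, (c s - l * f s) • (toR s : V n) =
          ∑ s ∈ T, c s • (toR s : V n) - l • ∑ s ∈ T, f s • (toR s : V n) := by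
        rw [Finset.smul_sum, ← Finset.sum_sub_distrib]
        refine Finset.sum_congr rfl fun s _ => ?_
        rw [sub_smul, mul_smul]
      rw [h2, hf, smul_zero, sub_zero]
    rw [h1, ← Finset.add_sum_erase T _ hs0T]
    have h2 : c s0 - l * f s0 = 0 := by
      rw [hl, div_mul_cancel₀ _ hs0p.ne', sub_self]
    rw [h2, zero_smul, zero_add]
    refine Finset.sum_congr rfl fun s hs => ?_
    dsimp only
    rw [if_pos (Finset.mem_of_mem_erase hs)]

theorem car (X : Finset (Fin n → ℤ)) {y : V n} (hy : y ∈ cone X) :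
    ∃ T ⊆ X, LinearIndependent ℝ (fun s : T => (toR (s : Fin n → ℤ) : V n)) ∧ y ∈ cone T := by
  classical
  have hne : (X.powerset.filter fun T => y ∈ cone T).Nonempty :=
    ⟨X, Finset.mem_filter.2 ⟨Finset.mem_powerset_self X, hy⟩⟩
  obtain ⟨T, hT, hmin⟩ := Finset.exists_min_image _ Finset.card hne
  obtain ⟨hTX, hyT⟩ := Finset.mem_filter.1 hT
  rw [Finset.mem_powerset] at hTX
  refine ⟨T, hTX, ?_, hyT⟩
  have key : ∀ f : (Fin n → ℤ) → ℝ, ∑ s ∈ T, f s • (toR s : V n) = 0 → ∀ s ∈ T, f s ≤ 0 := by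
    intro f hf s hs
    by_contra hc
    push Not at hc
    obtain ⟨s0, hs0, h1⟩ := car_step T hyT f hf ⟨s, hs, hc⟩
    have h2 := hmin (T.erase s0) (Finset.mem_filter.2
      ⟨Finset.mem_powerset.2 ((Finset.erase_subset _ _).trans hTX), h1⟩)
    have h3 := Finset.card_erase_lt_of_mem hs0
    omega
  have hli : LinearIndepOn ℝ (toR : (Fin n → ℤ) → V n) (T : Set (Fin n → ℤ)) := by
    rw [linearIndepOn_finset_iff]
    intro f hf s hs
    refine le_antisymm (key f hf s hs) ?_
    have h1 := key (fun s => - f s) (by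
      simp only [neg_smul, Finset.sum_neg_distrib, hf, neg_zero]) s hs
    linarith
  exact hli

theorem carb_one (T : Finset (Fin n → ℤ)) : ∃ K : ℝ, 0 ≤ K ∧
    (LinearIndependent ℝ (fun s : T => (toR (s : Fin n → ℤ) : V n)) →
      ∀ c : (Fin n → ℤ) → ℝ, ∀ s ∈ T, c s ≤ K * ‖∑ s ∈ T, c s • (toR s : V n)‖) := by
  classical
  by_cases hli : LinearIndependent ℝ (fun s : T => (toR (s : Fin n → ℤ) : V n))
  · have hker : LinearMap.ker (Fintype.linearCombination ℝ
        (fun s : T => (toR (s : Fin n → ℤ) : V n))) = ⊥ := by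
      rw [LinearMap.ker_eq_bot]
      exact hli.fintypeLinearCombination_injective
    obtain ⟨K, -, hK⟩ := LinearMap.exists_antilipschitzWith _ hker
    refine ⟨K, K.2, fun _ c s hs => ?_⟩
    have h1 := hK.le_mul_dist (fun s : T => c s) 0
    rw [map_zero, dist_zero_right, dist_zero_right, Fintype.linearCombination_apply] at h1
    have h2 : ∑ s : T, c (s : Fin n → ℤ) • (toR (s : Fin n → ℤ) : V n) =
        ∑ s ∈ T, c s • (toR s : V n) :=
      Finset.sum_coe_sort T (fun s => c s • (toR s : V n))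
    rw [h2] at h1
    have h3 := norm_le_pi_norm (fun s : T => c s) ⟨s, hs⟩
    exact (le_abs_self _).trans (h3.trans h1)
  · exact ⟨0, le_rfl, fun h => absurd h hli⟩

theorem carb (X : Finset (Fin n → ℤ)) :
    ∃ c : ℝ, 0 ≤ c ∧ ∀ y ∈ cone X, ∃ a : (Fin n → ℤ) → ℝ, (∀ s, 0 ≤ a s) ∧ (∀ s, a s ≤ c * ‖y‖) ∧
      y = ∑ s ∈ X, a s • toR s := by
  classical
  choose K hK0 hK using fun T : Finset (Fin n → ℤ) => carb_one (n := n) T
  have hc0 : 0 ≤ ∑ T ∈ X.powerset, K T := Finset.sum_nonneg fun T _ => hK0 T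
  refine ⟨∑ T ∈ X.powerset, K T, hc0, fun y hy => ?_⟩
  obtain ⟨T, hTX, hli, c, hc, rfl⟩ := car X hy
  have hKT : K T ≤ ∑ T ∈ X.powerset, K T :=
    Finset.single_le_sum (fun T _ => hK0 T) (Finset.mem_powerset.2 hTX)
  refine ⟨fun s => if s ∈ T then c s else 0, fun s => ?_, fun s => ?_, ?_⟩
  · dsimp only
    split_ifs
    · exact hc s
    · exact le_rfl
  · dsimp only
    split_ifs with h
    · exact (hK T hli c s h).trans (mul_le_mul_of_nonneg_right hKT (norm_nonneg _))
    · exact mul_nonneg hc0 (norm_nonneg _)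
  · rw [← Finset.sum_subset hTX]
    · refine Finset.sum_congr rfl fun s hs => ?_
      dsimp only
      rw [if_pos hs]
    · intro s _ hs
      dsimp only
      rw [if_neg hs, zero_smul]

end Pool.Agent.H20.FV
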