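import Pool.Agent.H20.FV.Basic

/-!
[H20 FV LEMU]  The points of `cone S` in the core stay away from the boundary of `C`.

For each subset `A` of `S` with `p_A = ∑_{s ∈ A} s`, `toR p_A ∉ C` (it is in `closure C`, `IsOC.sum_closure`) let `z_A` be
given by `hR`.  For `s ∈ A`: `0 ≤ z_A ⬝ᵥ s` (`Mori.closure`) and the sum over `A` is `0`, so `z_A ⬝ᵥ s = 0` for all
`s ∈ A`.  Let `κ > 0` be such that `κ * ∑_{s ∈ S} (z_A ⬝ᵥ s) < 1` for all these `A` (finitely many).  For the `A` with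
`toR p_A ∈ C` there is `ε_A > 0` with `toR p_A - ε_A • c0 ∈ C` (`IsOC.exists_sub`); let `ε1` be the least of them (or
`1`), `ε = κ * ε1`.
Let `y = ∑ t_s toR s ∈ cone S`, `y ∈ core C`, `A = {s ∈ S | κ ≤ t_s}`.  If `toR p_A ∉ C` then
`1 ≤ toR z_A ⬝ᵥ y = ∑_{s ∈ S \ A} t_s (z_A ⬝ᵥ s) ≤ κ ∑_{s ∈ S} (z_A ⬝ᵥ s) < 1`, contradiction.  So `toR p_A ∈ C`, and
`y - ε • c0 = (y - κ • toR p_A) + κ • (toR p_A - ε1 • c0)`; the first summand is `∑ (t_s - κ [s ∈ A]) toR s`, in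
`closure C` (`cone_sub`), the second one is in `closure C`:
`toR p_A - ε1 • c0 = (toR p_A - ε_A • c0) + (ε_A - ε1) • c0` with `ε1 ≤ ε_A`.
-/

set_option autoImplicit false

open MeasureTheory
open scoped ENNReal

namespace Pool.Agent.H20.FV

open Pool.Agent.H57.KM

variable {n : ℕ}

theorem lemU {C : Set (V n)} (h : IsAmp C)
    (hR : ∀ p : Fin n → ℤ, toR p ∈ closure C → toR p ∉ C →
      ∃ z : Fin n → ℤ, z ≠ 0 ∧ toR z ∈ Mori C ∧ z ⬝ᵥ p = 0)
    (S : Finset (Fin n → ℤ)) (hS : ∀ s ∈ S, toR s ∈ closure C) {c0 : V n} (hc0 : c0 ∈ C) :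
    ∃ ε : ℝ, 0 < ε ∧ ∀ y ∈ cone S, y ∈ core C → y - ε • c0 ∈ closure C := by
  classical
  have hoc := h.oc
  have hsum : ∀ A : Finset (Fin n → ℤ), A ⊆ S → toR (∑ s ∈ A, s) ∈ closure C := by
    intro A hA
    rw [toR_sum]
    exact hoc.sum_closure A _ fun s hs => hS s (hA hs)
  have hz : ∀ A : Finset (Fin n → ℤ), ∃ z : Fin n → ℤ, A ⊆ S → toR (∑ s ∈ A, s) ∉ C →
      z ≠ 0 ∧ toR z ∈ Mori C ∧ ∀ s ∈ A, toR z ⬝ᵥ toR s = 0 := by
    intro A
    by_cases hA : A ⊆ S ∧ toR (∑ s ∈ A, s) ∉ C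
    · obtain ⟨z, hz0, hzM, hz⟩ := hR _ (hsum A hA.1) hA.2
      refine ⟨z, fun _ _ => ⟨hz0, hzM, ?_⟩⟩
      have h1 : ∑ s ∈ A, toR z ⬝ᵥ toR s = 0 := by
        have h2 : toR z ⬝ᵥ toR (∑ s ∈ A, s) = 0 := by
          rw [dot_toR, hz]; simp
        rwa [toR_sum, dotProduct_sum] at h2
      exact fun s hs => (Finset.sum_eq_zero_iff_of_nonneg
        (fun s hs => Mori.closure hzM (hS s (hA.1 hs)))).1 h1 s hs
    · exact ⟨0, fun h1 h2 => absurd ⟨h1, h2⟩ hA⟩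
  choose z hz using hz
  have he : ∀ A : Finset (Fin n → ℤ), ∃ e : ℝ, 0 < e ∧
      (toR (∑ s ∈ A, s) ∈ C → toR (∑ s ∈ A, s) - e • c0 ∈ C) := by
    intro A
    by_cases hA : toR (∑ s ∈ A, s) ∈ C
    · obtain ⟨e, he, h1⟩ := hoc.exists_sub hA c0
      exact ⟨e, he, fun _ => h1⟩
    · exact ⟨1, one_pos, fun h1 => absurd h1 hA⟩
  choose e he0 he using he
  obtain ⟨ε1, hε1, hε1A⟩ : ∃ ε1 : ℝ, 0 < ε1 ∧ ∀ A ∈ S.powerset, ε1 ≤ e A := by
    refine ⟨S.powerset.inf' (Finset.powerset_nonempty S) e, ?_, fun A hA => Finset.inf'_le _ hA⟩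
    rw [Finset.lt_inf'_iff]
    exact fun A _ => he0 A
  set M : ℝ := ∑ A ∈ S.powerset, |∑ s ∈ S, toR (z A) ⬝ᵥ toR s| with hM
  have hM0 : 0 ≤ M := Finset.sum_nonneg fun A _ => abs_nonneg _
  have hMA : ∀ A ∈ S.powerset, ∑ s ∈ S, toR (z A) ⬝ᵥ toR s ≤ M := fun A hA =>
    (le_abs_self _).trans (Finset.single_le_sum (f := fun A => |∑ s ∈ S, toR (z A) ⬝ᵥ toR s|)
      (fun A _ => abs_nonneg _) hA)
  have hκ0 : 0 < 1 / (M + 1) := by positivity
  refine ⟨1 / (M + 1) * ε1, mul_pos hκ0 hε1, ?_⟩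
  rintro y ⟨t, ht, rfl⟩ hy
  set κ : ℝ := 1 / (M + 1) with hκ
  set A : Finset (Fin n → ℤ) := S.filter fun s => κ ≤ t s with hA
  have hAS : A ⊆ S := Finset.filter_subset _ _
  have hAP : A ∈ S.powerset := Finset.mem_powerset.2 hAS
  have hAC : toR (∑ s ∈ A, s) ∈ C := by
    by_contra hcon
    obtain ⟨h0, h1, h2⟩ := hz A hAS hcon
    have h3 := hy.2 (z A) h0 h1
    rw [dotProduct_sum] at h3
    have h4 : ∑ s ∈ S, toR (z A) ⬝ᵥ (t s • toR s) ≤ ∑ s ∈ S, κ * (toR (z A) ⬝ᵥ toR s) := by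
      refine Finset.sum_le_sum fun s hs => ?_
      rw [dotProduct_smul, smul_eq_mul]
      by_cases hsA : s ∈ A
      · rw [h2 s hsA]
        simp
      · have h5 : t s ≤ κ := by
          by_contra h6
          exact hsA (Finset.mem_filter.2 ⟨hs, (not_le.1 h6).le⟩)
        exact mul_le_mul_of_nonneg_right h5 (Mori.closure h1 (hS s hs))
    rw [← Finset.mul_sum] at h4
    have h5 : κ * ∑ s ∈ S, toR (z A) ⬝ᵥ toR s ≤ κ * M :=
      mul_le_mul_of_nonneg_left (hMA A hAP) hκ0.le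
    have h6 : κ * M < 1 := by
      rw [hκ, one_div, inv_mul_lt_iff₀ (by positivity)]
      linarith
    linarith
  have h1 : (∑ s ∈ S, t s • toR s) - (κ * ε1) • c0
      = (∑ s ∈ S, (t s - if s ∈ A then κ else 0) • toR s) + κ • (toR (∑ s ∈ A, s) - ε1 • c0) := by
    have h2 : ∑ s ∈ S, (if s ∈ A then κ else 0) • toR s = κ • toR (∑ s ∈ A, s) := by
      rw [toR_sum, Finset.smul_sum, ← Finset.sum_subset hAS]
      · refine Finset.sum_congr rfl fun s hs => by simp [hs]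
      · intro s _ hs
        simp [hs]
    have h3 : (∑ s ∈ S, (t s - if s ∈ A then κ else 0) • toR s)
        = (∑ s ∈ S, t s • toR s) - κ • toR (∑ s ∈ A, s) := by
      rw [← h2, ← Finset.sum_sub_distrib]
      exact Finset.sum_congr rfl fun s _ => sub_smul _ _ _
    rw [h3, smul_sub, mul_smul]
    abel
  rw [h1]
  refine hoc.closure_add ?_ (hoc.closure_smul hκ0.le ?_)
  · refine hoc.sum_closure S _ fun s hs => hoc.closure_smul ?_ (hS s hs)
    by_cases hsA : s ∈ A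
    · simp only [hsA, if_true]
      have := (Finset.mem_filter.1 hsA).2
      linarith
    · simp only [hsA, if_false, sub_zero]
      exact ht s
  · have h2 : toR (∑ s ∈ A, s) - ε1 • c0 = (e A - ε1) • c0 + (toR (∑ s ∈ A, s) - e A • c0) := by
      rw [sub_smul]
      abel
    rw [h2]
    exact subset_closure (hoc.add_mem (hoc.closure_smul (by linarith [hε1A A hAP])
      (subset_closure hc0)) (he A hAC))


end Pool.Agent.H20.FV
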