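import Pool.Agent.H20.FV.Basic

/-!
[H20 FV CT]  The contragredient action (proved).
-/

set_option autoImplicit false

namespace Pool.Agent.H20.FV

open Pool.Agent.H57.KM

variable {n : ℕ}

/-- the contragredient `g ↦ (g⁻¹)ᵀ` -/
def ct : GL (Fin n) ℤ →* GL (Fin n) ℤ where
  toFun g := ⟨(g⁻¹ : GL (Fin n) ℤ).val.transpose, g.val.transpose, by
    rw [← Matrix.transpose_mul, Units.mul_inv, Matrix.transpose_one], by
    rw [← Matrix.transpose_mul, Units.inv_mul, Matrix.transpose_one]⟩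
  map_one' := by
    apply Units.ext
    simp
  map_mul' g h := by
    apply Units.ext
    simp [mul_inv_rev, Matrix.transpose_mul]

theorem ct_val (g : GL (Fin n) ℤ) :
    ((ct g : GL (Fin n) ℤ) : Matrix (Fin n) (Fin n) ℤ) = (g⁻¹ : GL (Fin n) ℤ).val.transpose := rfl

theorem ct_inv_val (g : GL (Fin n) ℤ) :
    (((ct g)⁻¹ : GL (Fin n) ℤ) : Matrix (Fin n) (Fin n) ℤ) = g.val.transpose := rfl

theorem ct_ct (g : GL (Fin n) ℤ) : ct (ct g) = g := by
  apply Units.ext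
  rw [ct_val, ct_inv_val, Matrix.transpose_transpose]

theorem map_ct_ct (G : Subgroup (GL (Fin n) ℤ)) : (G.map ct).map ct = G := by
  ext g
  simp only [Subgroup.mem_map]
  constructor
  · rintro ⟨_, ⟨h, hh, rfl⟩, rfl⟩
    rwa [ct_ct]
  · intro hg
    exact ⟨ct g, ⟨g, hg, rfl⟩, ct_ct g⟩

theorem mem_map_ct {G : Subgroup (GL (Fin n) ℤ)} {h : GL (Fin n) ℤ} : h ∈ G.map ct ↔ ct h ∈ G := by
  constructor
  · rintro ⟨g, hg, rfl⟩
    rwa [ct_ct]
  · intro hh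
    exact ⟨ct h, hh, ct_ct h⟩

/-- the matrices of `act` -/
theorem act_ct_inv_dot (g : GL (Fin n) ℤ) (z x : V n) : act (ct g)⁻¹ z ⬝ᵥ x = z ⬝ᵥ act g x := by
  unfold act
  rw [ct_inv_val, Matrix.transpose_map, Matrix.mulVec_transpose, Matrix.dotProduct_mulVec]

theorem act_ct_dot (g : GL (Fin n) ℤ) (z x : V n) : act (ct g) z ⬝ᵥ x = z ⬝ᵥ act g⁻¹ x := by
  have := act_ct_inv_dot g⁻¹ z x
  rwa [map_inv, inv_inv] at this

theorem act_ct_dot_act (g : GL (Fin n) ℤ) (z x : V n) : act (ct g) z ⬝ᵥ act g x = z ⬝ᵥ x := by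
  rw [act_ct_dot, act_inv_act]

theorem Pres.dual {G : Subgroup (GL (Fin n) ℤ)} {C : Set (V n)} (h : Pres G C) :
    Pres (G.map ct) (dual C) := by
  rintro _ ⟨g, hg, rfl⟩ z hz x hx hx0
  rw [act_ct_dot]
  refine hz _ (h.closure _ (G.inv_mem hg) x hx) fun h0 => hx0 ?_
  rw [← act_act_inv g x, h0, act_zero]

theorem Pres.mori {G : Subgroup (GL (Fin n) ℤ)} {C : Set (V n)} (h : Pres G C) :
    Pres (G.map ct) (Mori C) := by
  rintro _ ⟨g, hg, rfl⟩ z hz x hx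
  rw [act_ct_dot]
  exact hz _ (h _ (G.inv_mem hg) x hx)

end Pool.Agent.H20.FV
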