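import Pool.Agent.H20.FV.Basic
import Pool.Agent.H20.FV.Ct

/-!
[H20 FV CORE]  The core of the cone is invariant and measurable; simplicial cones.

`core_act`: if `x ∈ core C`, `g ∈ G` and `z` is integral, nonzero, `toR z ∈ Mori C`, then
`toR z ⬝ᵥ act g x = act (ct g)⁻¹ (toR z) ⬝ᵥ x` (`act_ct_inv_dot`), and `act (ct g)⁻¹ (toR z) = toR z'` with `z'` integral,
nonzero (`act` is injective), in `Mori C` (`Pres.mori`, `(ct g)⁻¹ ∈ G.map ct`), so this is `≥ 1`.  Conversely use `g⁻¹`.
`core_meas`: `C` is open and `core C` is the intersection of `C` with the countably many closed half spaces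
`{x | 1 ≤ toR z ⬝ᵥ x}` (`z` integral, nonzero, `toR z ∈ Mori C`).
`core_smul`: clear.
`scone_meas`: `scone p` is closed: image of the closed orthant under the injective linear map
`t ↦ ∑ i, t i • toR (p i)` (a closed embedding, `LinearMap.isClosedEmbedding_of_injective`).
`scone_sub_cone`: `scone p ⊆ cone (Finset.univ.image p)` (`cone_smul`, `toR_mem_cone`, `sum_mem_cone`).
-/

set_option autoImplicit false

open MeasureTheory
open scoped ENNReal

namespace Pool.Agent.H20.FV

open Pool.Agent.H57.KM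

variable {n : ℕ}

/-- the simplicial cone spanned by the integral vectors `p i` -/
def scone (p : Fin n → Fin n → ℤ) : Set (V n) :=
  {y | ∃ t : Fin n → ℝ, (∀ i, 0 ≤ t i) ∧ y = ∑ i, t i • toR (p i)}

theorem core_act_sub {C : Set (V n)} {G : Subgroup (GL (Fin n) ℤ)} (hG : Pres G C)
    {g : GL (Fin n) ℤ} (hg : g ∈ G) {x : V n} (hx : x ∈ core C) : act g x ∈ core C := by
  refine ⟨hG g hg x hx.1, fun z hz hzM => ?_⟩
  have h1 : (ct g)⁻¹ ∈ G.map ct := (G.map ct).inv_mem ⟨g, hg, rfl⟩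
  have h2 := hG.mori _ h1 _ hzM
  obtain ⟨z', hz'⟩ := exists_toR_act (ct g)⁻¹ z
  rw [← act_ct_inv_dot, ← hz']
  refine hx.2 z' ?_ (hz'.symm ▸ h2)
  rintro rfl
  apply toR_ne_zero hz
  rw [← act_act_inv (ct g)⁻¹ (toR z)]
  rw [← act_inv_act (ct g)⁻¹ (toR z), ← hz', toR_zero, act_zero, act_zero, act_zero]

theorem core_act {C : Set (V n)} {G : Subgroup (GL (Fin n) ℤ)} (hG : Pres G C)
    {g : GL (Fin n) ℤ} (hg : g ∈ G) (x : V n) : act g x ∈ core C ↔ x ∈ core C := by
  constructor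
  · intro h
    have h1 := core_act_sub hG (G.inv_mem hg) h
    rwa [act_inv_act] at h1
  · exact core_act_sub hG hg

theorem core_meas {C : Set (V n)} (h : IsOC C) : MeasurableSet (core C) := by
  have h1 : core C = C ∩ ⋂ z : Fin n → ℤ, {x | z ≠ 0 → toR z ∈ Mori C → 1 ≤ toR z ⬝ᵥ x} := by
    ext x
    simp only [core, Set.mem_inter_iff, Set.mem_iInter]
    exact Iff.rfl
  rw [h1]
  refine h.op.measurableSet.inter (MeasurableSet.iInter fun z => ?_)
  by_cases hz : z ≠ 0 ∧ toR z ∈ Mori C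
  · have h2 : {x : V n | z ≠ 0 → toR z ∈ Mori C → 1 ≤ toR z ⬝ᵥ x} = {x | 1 ≤ toR z ⬝ᵥ x} := by
      ext x
      exact ⟨fun h => h hz.1 hz.2, fun h _ _ => h⟩
    rw [h2]
    refine (isClosed_le continuous_const ?_).measurableSet
    unfold dotProduct
    fun_prop
  · have h2 : {x : V n | z ≠ 0 → toR z ∈ Mori C → 1 ≤ toR z ⬝ᵥ x} = Set.univ := by
      ext x
      exact ⟨fun _ => trivial, fun _ h3 h4 => absurd ⟨h3, h4⟩ hz⟩
    rw [h2]
    exact MeasurableSet.univ

theorem core_smul {C : Set (V n)} (h : IsOC C) {x : V n} (hx : x ∈ core C) {t : ℝ} (ht : 1 ≤ t) :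
    t • x ∈ core C := by
  refine ⟨h.smul t (by linarith) x hx.1, fun z hz hzM => ?_⟩
  have h1 := hx.2 z hz hzM
  rw [dotProduct_smul, smul_eq_mul]
  nlinarith

theorem scone_meas {p : Fin n → Fin n → ℤ} (hp : LinearIndependent ℝ (fun i => (toR (p i) : V n))) :
    IsClosed (scone p) := by
  have h1 : scone p = (Fintype.linearCombination ℝ (fun i => (toR (p i) : V n))) ''
      {t : Fin n → ℝ | ∀ i, 0 ≤ t i} := by
    ext y
    constructor
    · rintro ⟨t, ht, rfl⟩
      exact ⟨t, ht, by rw [Fintype.linearCombination_apply]⟩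
    · rintro ⟨t, ht, rfl⟩
      exact ⟨t, ht, by rw [Fintype.linearCombination_apply]⟩
  rw [h1]
  have h2 : LinearMap.ker (Fintype.linearCombination ℝ (fun i => (toR (p i) : V n))) = ⊥ :=
    LinearMap.ker_eq_bot.2 hp.fintypeLinearCombination_injective
  have h3 := LinearMap.isClosedEmbedding_of_injective h2
  refine h3.isClosedMap _ ?_
  have h4 : {t : Fin n → ℝ | ∀ i, 0 ≤ t i} = ⋂ i, {t | 0 ≤ t i} := by
    ext t
    simp only [Set.mem_iInter]
    exact Iff.rfl
  rw [h4]
  exact isClosed_iInter fun i => isClosed_le continuous_const (continuous_apply i)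

theorem scone_sub_cone (p : Fin n → Fin n → ℤ) : scone p ⊆ cone (Finset.univ.image p) := by
  rintro y ⟨t, ht, rfl⟩
  exact sum_mem_cone _ _ fun i _ =>
    cone_smul (ht i) (toR_mem_cone (Finset.mem_image_of_mem _ (Finset.mem_univ i)))

end Pool.Agent.H20.FV
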