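import Pool.Agent.H20.FV.Phi
import Pool.Agent.H20.FV.Core

/-!
[H20 FV PHILOW]  A lower bound for `Phi` on simplicial cones.

The `toR (p i)` are a basis of `V n`.  `(ε/2) • c0 ∈ C`, `C` open: there is `r > 0` such that
`(ε/2) • c0 + ∑ b_i toR (p i) ∈ C` for all `b` with `|b_i| ≤ r` for all `i` (continuity of `b ↦ ∑ b_i toR (p i)` at `0`).
Let `y = ∑ t_i toR (p i)`, `t_i ≥ 0`, `y - ε • c0 ∈ closure C`.  For `|a_i| ≤ t_i / 2`, `|b_i| ≤ r`:
`y ± ∑ (a_i + b_i) toR (p i) = [∑ (t_i/2 ± a_i) toR (p i)] + [(1/2) • (y - ε • c0)] + [(ε/2) • c0 ± ∑ b_i toR (p i)]`, the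
first two brackets are in `closure C`, the third one in `C`: the sum is in `C`.  So `body C y` contains
`{∑ s_i toR (p i) : |s_i| ≤ t_i/2 + r}` (every such `s` is `a + b`), the image of a box under the linear map `P` with the
matrix of the `toR (p i)`, of volume `|det P| * ∏ (t_i + 2 r) ≥ |det P| * ∏ (t_i + r)`
(`MeasureTheory.Measure.addHaar_image_linearMap`, `Real.volume_pi_closedBall`/`Real.volume_Icc_pi`).  `c = |det P| > 0`
(linear independence).
-/

set_option autoImplicit false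

open MeasureTheory
open scoped ENNReal

namespace Pool.Agent.H20.FV

open Pool.Agent.H57.KM

variable {n : ℕ}

/-- the linear map `t ↦ ∑ t i • toR (p i)` -/
noncomputable def phiLowP (p : Fin n → Fin n → ℤ) : (Fin n → ℝ) →ₗ[ℝ] (Fin n → ℝ) :=
  Fintype.linearCombination ℝ (fun i => (toR (p i) : V n))

theorem phiLowP_apply (p : Fin n → Fin n → ℤ) (t : Fin n → ℝ) :
    phiLowP p t = ∑ i, t i • toR (p i) := rfl

theorem phiLowP_det {p : Fin n → Fin n → ℤ}
    (hp : LinearIndependent ℝ (fun i => (toR (p i) : V n))) : LinearMap.det (phiLowP p) ≠ 0 := by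
  intro h
  have h1 := LinearMap.bot_lt_ker_of_det_eq_zero h
  have h2 : Function.Injective (phiLowP p) :=
    linearIndependent_iff_injective_fintypeLinearCombination.mp hp
  rw [LinearMap.ker_eq_bot.2 h2] at h1
  exact lt_irrefl _ h1

theorem phiLow_box {C : Set (V n)} (h : IsOC C) {p : Fin n → Fin n → ℤ}
    (hpC : ∀ i, toR (p i) ∈ closure C) {c0 : V n} {ε : ℝ} {r : ℝ} (hr : 0 < r)
    (hb : ∀ b : Fin n → ℝ, (∀ i, |b i| ≤ r) → (ε / 2) • c0 + phiLowP p b ∈ C)
    (t : Fin n → ℝ) (ht : ∀ i, 0 ≤ t i) (hy : phiLowP p t - ε • c0 ∈ closure C) (s : Fin n → ℝ)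
    (hs : ∀ i, |s i| ≤ t i / 2 + r) : phiLowP p t + phiLowP p s ∈ C := by
  have hpos : ∀ i, 0 < t i / 2 + r := fun i => by
    have := ht i
    linarith
  obtain ⟨a, ha⟩ : ∃ a : Fin n → ℝ, a = fun i => s i * ((t i / 2) / (t i / 2 + r)) := ⟨_, rfl⟩
  obtain ⟨b, hbd⟩ : ∃ b : Fin n → ℝ, b = fun i => s i * (r / (t i / 2 + r)) := ⟨_, rfl⟩
  have hsab : s = a + b := by
    funext i
    rw [ha, hbd]
    have := (hpos i).ne'
    simp only [Pi.add_apply]
    rw [← mul_add, ← add_div, div_self this, mul_one]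
  have ha1 : ∀ i, 0 ≤ t i / 2 + a i := by
    intro i
    have h1 : |a i| ≤ t i / 2 := by
      rw [ha]
      simp only
      have hq : 0 ≤ (t i / 2) / (t i / 2 + r) := div_nonneg (by linarith [ht i]) (hpos i).le
      rw [abs_mul, abs_of_nonneg hq]
      calc |s i| * ((t i / 2) / (t i / 2 + r)) ≤ (t i / 2 + r) * ((t i / 2) / (t i / 2 + r)) :=
            mul_le_mul_of_nonneg_right (hs i) hq
        _ = t i / 2 := mul_div_cancel₀ _ (hpos i).ne'
    have := (abs_le.1 h1).1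
    linarith
  have hb1 : ∀ i, |b i| ≤ r := by
    intro i
    rw [hbd]
    simp only
    have hq : 0 ≤ r / (t i / 2 + r) := div_nonneg hr.le (hpos i).le
    rw [abs_mul, abs_of_nonneg hq]
    calc |s i| * (r / (t i / 2 + r)) ≤ (t i / 2 + r) * (r / (t i / 2 + r)) :=
          mul_le_mul_of_nonneg_right (hs i) hq
      _ = r := mul_div_cancel₀ _ (hpos i).ne'
  have h1 : ∑ i, (t i / 2 + a i) • toR (p i) ∈ closure C :=
    h.sum_closure _ _ fun i _ => h.closure_smul (ha1 i) (hpC i)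
  have h2 : (1 / 2 : ℝ) • (phiLowP p t - ε • c0) ∈ closure C := h.closure_smul (by norm_num) hy
  have h3 := hb b hb1
  have h4 : phiLowP p t + phiLowP p s = (∑ i, (t i / 2 + a i) • toR (p i) +
      (1 / 2 : ℝ) • (phiLowP p t - ε • c0)) + ((ε / 2) • c0 + phiLowP p b) := by
    have h5 : ∑ i, (t i / 2 + a i) • toR (p i) = (1 / 2 : ℝ) • phiLowP p t + phiLowP p a := by
      rw [phiLowP_apply, phiLowP_apply, Finset.smul_sum, ← Finset.sum_add_distrib]
      refine Finset.sum_congr rfl fun i _ => ?_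
      rw [smul_smul, ← add_smul]
      congr 1
      ring
    have h6 : phiLowP p s = phiLowP p a + phiLowP p b := by rw [hsab, map_add]
    rw [h5, h6]
    module
  rw [h4]
  exact h.add_mem (h.closure_add h1 h2) h3

theorem phi_low {C : Set (V n)} (h : IsOC C) {p : Fin n → Fin n → ℤ}
    (hp : LinearIndependent ℝ (fun i => (toR (p i) : V n))) (hpC : ∀ i, toR (p i) ∈ closure C)
    {c0 : V n} (hc0 : c0 ∈ C) {ε : ℝ} (hε : 0 < ε) :
    ∃ c : ℝ, 0 < c ∧ ∃ r : ℝ, 0 < r ∧ ∀ t : Fin n → ℝ, (∀ i, 0 ≤ t i) →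
      (∑ i, t i • toR (p i)) - ε • c0 ∈ closure C →
      ENNReal.ofReal (c * ∏ i, (t i + r)) ≤ Phi C (∑ i, t i • toR (p i)) := by
  have hdet := phiLowP_det hp
  -- the radius
  have hU : {b : Fin n → ℝ | (ε / 2) • c0 + phiLowP p b ∈ C} ∈ nhds (0 : Fin n → ℝ) := by
    have hcont : Continuous fun b : Fin n → ℝ => (ε / 2) • c0 + phiLowP p b :=
      continuous_const.add (LinearMap.continuous_of_finiteDimensional _)
    refine (h.op.preimage hcont).mem_nhds ?_
    change (ε / 2) • c0 + phiLowP p 0 ∈ C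
    rw [map_zero, add_zero]
    exact h.smul _ (by positivity) _ hc0
  obtain ⟨δ, hδ, hball⟩ := Metric.mem_nhds_iff.1 hU
  have hb : ∀ b : Fin n → ℝ, (∀ i, |b i| ≤ δ / 2) → (ε / 2) • c0 + phiLowP p b ∈ C := by
    intro b hb
    apply hball
    rw [mem_ball_zero_iff]
    have h1 : ‖b‖ ≤ δ / 2 := (pi_norm_le_iff_of_nonneg (by positivity)).2 fun i => by
      rw [Real.norm_eq_abs]
      exact hb i
    linarith
  have hr : 0 < δ / 2 := by positivity
  refine ⟨|LinearMap.det (phiLowP p)|, abs_pos.2 hdet, δ / 2, hr, fun t ht hy => ?_⟩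
  have hsub : phiLowP p '' (Set.Icc (fun i => -(t i / 2 + δ / 2)) (fun i => t i / 2 + δ / 2)) ⊆
      body C (∑ i, t i • toR (p i)) := by
    rintro _ ⟨s, hs, rfl⟩
    have hs' : ∀ i, |s i| ≤ t i / 2 + δ / 2 := fun i => abs_le.2 ⟨hs.1 i, hs.2 i⟩
    constructor
    · exact phiLow_box h hpC hr hb t ht hy s hs'
    · have h1 := phiLow_box h hpC hr hb t ht hy (-s) (fun i => by
        rw [Pi.neg_apply, abs_neg]
        exact hs' i)
      rw [map_neg, ← sub_eq_add_neg] at h1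
      exact h1
  have h1 := measure_mono (μ := volume) hsub
  rw [Measure.addHaar_image_linearMap, Real.volume_Icc_pi] at h1
  refine le_trans ?_ h1
  rw [ENNReal.ofReal_mul (abs_nonneg _)]
  refine mul_le_mul_right ?_ _
  rw [ENNReal.ofReal_prod_of_nonneg (fun i _ => by have := ht i; positivity)]
  refine Finset.prod_le_prod' fun i _ => ?_
  apply ENNReal.ofReal_le_ofReal
  have := ht i
  linarith

end Pool.Agent.H20.FV
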