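import Pool.Agent.H20.FV.Simp
import Pool.Agent.H20.FV.PhiLow
import Pool.Agent.H20.FV.LemU

/-!
[H20 FV COCO]  A covering by rational cones implies cocompactness on the core with bounded `Phi`.

Let `S` be as in `Cov`, `P` the finite set of `simp_cover`, `c0 ∈ C`, `M` finite.  For `p ∈ P`: by `lemU` for
`Finset.univ.image p` there is `ε > 0` with `y - ε • c0 ∈ closure C` for `y ∈ scone p ∩ core C`; `phi_low` gives `c, r`.
If `y = ∑ t_i toR (p i)`, `t_i ≥ 0`, `y ∈ core C`, `Phi C y ≤ M` then `c ∏ (t_i + r) ≤ M.toReal`, and since the other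
factors are `≥ r` each `t_i ≤ M.toReal / (c r^(n-1)) =: b`.  `K_p` = the set of the `∑ t_i toR (p i)` with
`0 ≤ t_i ≤ b` and `∑ t_i toR (p i) - ε • c0 ∈ closure C`: compact (image of a compact box under a continuous map,
intersected with a closed set), contained in `C` (`closure C + C ⊆ C`).  `K` = the union of the `K_p`.  COVER:
`y ∈ core C`, `Phi C y ≤ M`: `y = act g y'`, `y' ∈ cone S`, `y' ∈ core C` (`core_act`), `Phi C y' = Phi C y`
(`phi_act`), `y' ∈ scone p`, so `y' ∈ K_p`.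
-/

set_option autoImplicit false

open MeasureTheory
open scoped ENNReal

namespace Pool.Agent.H20.FV

open Pool.Agent.H57.KM

variable {n : ℕ}

theorem coco {C : Set (V n)} (h : IsAmp C) {G : Subgroup (GL (Fin n) ℤ)} (hG : Pres G C)
    (hC : Cov C G)
    (hR : ∀ p : Fin n → ℤ, toR p ∈ closure C → toR p ∉ C →
      ∃ z : Fin n → ℤ, z ≠ 0 ∧ toR z ∈ Mori C ∧ z ⬝ᵥ p = 0) : Cocompact C G := by
  classical
  obtain ⟨S, hS, hcov⟩ := hC
  obtain ⟨P, hP, hPc⟩ := simp_cover h S hS
  obtain ⟨c0, hc0⟩ := h.ne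
  intro M hM
  have key : ∀ p : Fin n → Fin n → ℤ, ∃ K : Set (V n), IsCompact K ∧ K ⊆ C ∧
      (p ∈ P → ∀ y ∈ scone p, y ∈ core C → Phi C y ≤ M → y ∈ K) := by
    intro p
    by_cases hp : p ∈ P
    · obtain ⟨ε, hε, hU⟩ := lemU h hR (Finset.univ.image p) (by
        intro s hs
        obtain ⟨i, _, rfl⟩ := Finset.mem_image.1 hs
        exact (hP p hp).2 i) hc0
      obtain ⟨c, hc, r, hr, hlow⟩ := phi_low h.oc (hP p hp).1 (hP p hp).2 hc0 hε
      refine ⟨(fun t : Fin n → ℝ => ∑ i, t i • (toR (p i) : V n)) ''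
        (Set.Icc 0 (fun _ => M.toReal / (c * r ^ (n - 1)))) ∩ {y | y - ε • c0 ∈ closure C}, ?_, ?_, ?_⟩
      · refine (isCompact_Icc.image ?_).inter_right (isClosed_closure.preimage ?_)
        · exact continuous_finsetSum _ fun i _ => (continuous_apply i).smul continuous_const
        · exact continuous_id.sub continuous_const
      · rintro y ⟨_, hy⟩
        have h1 := h.oc.add_mem hy (h.smul ε hε c0 hc0)
        rwa [sub_add_cancel] at h1
      · rintro _ y ⟨t, ht, rfl⟩ hcore hPhi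
        have h1 := hU _ (scone_sub_cone p ⟨t, ht, rfl⟩) hcore
        have h2 := (hlow t ht h1).trans hPhi
        have h3 : c * ∏ i, (t i + r) ≤ M.toReal := (ENNReal.ofReal_le_iff_le_toReal hM).1 h2
        refine ⟨⟨t, ⟨fun i => ht i, fun i => ?_⟩, rfl⟩, h1⟩
        have h5 : r ^ (n - 1) ≤ ∏ j ∈ Finset.univ.erase i, (t j + r) := by
          calc r ^ (n - 1) = ∏ j ∈ Finset.univ.erase i, r := by
                rw [Finset.prod_const, Finset.card_erase_of_mem (Finset.mem_univ i), Finset.card_univ,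
                  Fintype.card_fin]
            _ ≤ _ := Finset.prod_le_prod (fun _ _ => hr.le) fun j _ => by linarith [ht j]
        have h4 : (t i + r) * r ^ (n - 1) ≤ ∏ j, (t j + r) := by
          rw [← Finset.mul_prod_erase Finset.univ _ (Finset.mem_univ i)]
          exact mul_le_mul_of_nonneg_left h5 (by linarith [ht i])
        have h6 : 0 < r ^ (n - 1) := pow_pos hr _
        change t i ≤ M.toReal / (c * r ^ (n - 1))
        rw [le_div_iff₀ (mul_pos hc h6)]
        have h7 : c * ((t i + r) * r ^ (n - 1)) ≤ c * ∏ i, (t i + r) := mul_le_mul_of_nonneg_left h4 hc.le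
        have h8 : 0 ≤ c * (r * r ^ (n - 1)) := by positivity
        calc t i * (c * r ^ (n - 1)) ≤ c * ((t i + r) * r ^ (n - 1)) := by linarith
          _ ≤ _ := h7.trans h3
    · exact ⟨∅, isCompact_empty, Set.empty_subset _, fun h => absurd h hp⟩
  choose K hK1 hK2 hK3 using key
  refine ⟨⋃ p ∈ P, K p, P.isCompact_biUnion fun p _ => hK1 p, Set.iUnion₂_subset fun p _ => hK2 p, ?_⟩
  rintro y ⟨hy, hyM⟩
  obtain ⟨g, hg, y', hy', rfl⟩ := Set.mem_iUnion₂.1 (hcov hy.1)
  have hy2 := (core_act hG hg y').1 hy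
  rw [phi_act (hG.iff hg)] at hyM
  obtain ⟨p, hp, hpy⟩ := hPc y' hy'
  exact Set.mem_iUnion₂.2 ⟨g, hg, y', Set.mem_iUnion₂.2 ⟨p, hp, hK3 p hp y' hpy hy2 hyM⟩, rfl⟩

end Pool.Agent.H20.FV
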