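import Pool.Agent.H20.FV.Basic

/-!
[H20 FV PHI]  Properties of the volume of the order body.

`body C x = {y | x + y ∈ C ∧ x - y ∈ C}`, `Phi C x = volume (body C x)`.
(1) `phi_act`: `body C (act g x) = act g '' body C x` (if `g` preserves `C` in both directions) and `act g` preserves the
volume: its determinant is `± 1` (`MeasureTheory.Measure.addHaar_image_linearMap`, the determinant of the real matrix is the
cast of a unit of `ℤ`).
(2) `phi_mono`: `body C x ⊆ body C x'` by `IsOC.add_mem`: `x' ± y = (x' - x) + (x ± y)`.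
(3) `phi_smul`: `body C (t • x) = t • body C x`, `MeasureTheory.Measure.addHaar_smul`, `finrank = n`.
(4) `phi_pos`: `body C x` is open and contains `0` (`IsOpen.measure_pos`).
(5) `phi_lt_top`: `body C x` is bounded: otherwise there are `y_k ∈ body C x` with `‖y_k‖ → ∞`; a limit point `u` of
`y_k / ‖y_k‖` has `‖u‖ = 1` and `u, -u ∈ closure C` (`(x ± y_k) / ‖y_k‖ ∈ C`), contradiction to `pointed`.  Bounded sets
have finite volume (`Bornology.IsBounded.measure_lt_top`).
(6) `phi_meas`: the set `{(x, y) | y ∈ body C x}` is open in the product, so measurable, and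
`measurable_measure_prodMk_left` applies.
(7) `isOpen_body`: preimages of the open set `C`.
(8) `phi_meas_inv`: composition.
-/

set_option autoImplicit false

open MeasureTheory
open scoped ENNReal Pointwise

namespace Pool.Agent.H20.FV

open Pool.Agent.H57.KM

variable {n : ℕ}

theorem isOpen_body {C : Set (V n)} (h : IsOC C) (x : V n) : IsOpen (body C x) := by
  have h1 : IsOpen {y : V n | x + y ∈ C} := h.op.preimage (continuous_const.add continuous_id)
  have h2 : IsOpen {y : V n | x - y ∈ C} := h.op.preimage (continuous_const.sub continuous_id)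
  exact h1.inter h2

theorem phi_actL_det (g : GL (Fin n) ℤ) : |LinearMap.det (actL g)| = 1 := by
  have h1 : actL g = Matrix.toLin' ((g : Matrix (Fin n) (Fin n) ℤ).map (Int.cast : ℤ → ℝ)) := by
    ext x i
    rfl
  rw [h1, LinearMap.det_toLin']
  have h2 : ((g : Matrix (Fin n) (Fin n) ℤ).map (Int.cast : ℤ → ℝ)).det =
      (((g : Matrix (Fin n) (Fin n) ℤ).det : ℤ) : ℝ) := by
    rw [Int.cast_det]
  rw [h2]
  have h3 : IsUnit (g : Matrix (Fin n) (Fin n) ℤ).det := (Matrix.isUnit_iff_isUnit_det _).1 g.isUnit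
  rcases Int.isUnit_iff.1 h3 with h4 | h4
  · rw [h4]; norm_num
  · rw [h4]; norm_num

theorem volume_act (g : GL (Fin n) ℤ) (A : Set (V n)) : volume (act g '' A) = volume A := by
  have h1 := MeasureTheory.Measure.addHaar_image_linearMap (volume : Measure (V n)) (actL g) A
  rw [phi_actL_det, ENNReal.ofReal_one, one_mul] at h1
  exact h1

theorem phi_act {C : Set (V n)} {g : GL (Fin n) ℤ} (hg : ∀ x, act g x ∈ C ↔ x ∈ C) (x : V n) :
    Phi C (act g x) = Phi C x := by
  have h1 : body C (act g x) = act g '' body C x := by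
    ext y
    rw [mem_image_act]
    have h2 : act g x + y = act g (x + act g⁻¹ y) := by rw [act_add, act_act_inv]
    have h3 : act g x - y = act g (x - act g⁻¹ y) := by rw [act_sub, act_act_inv]
    constructor
    · rintro ⟨h4, h5⟩
      rw [h2, hg] at h4
      rw [h3, hg] at h5
      exact ⟨h4, h5⟩
    · rintro ⟨h4, h5⟩
      refine ⟨?_, ?_⟩
      · rw [h2, hg]; exact h4
      · rw [h3, hg]; exact h5
  unfold Phi
  rw [h1, volume_act]

theorem phi_mono {C : Set (V n)} (h : IsOC C) {x x' : V n} (hx : x' - x ∈ closure C) :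
    Phi C x ≤ Phi C x' := by
  refine measure_mono ?_
  rintro y ⟨h1, h2⟩
  refine ⟨?_, ?_⟩
  · have h3 := h.add_mem hx h1
    have h4 : x' - x + (x + y) = x' + y := by abel
    rwa [h4] at h3
  · have h3 := h.add_mem hx h2
    have h4 : x' - x + (x - y) = x' - y := by abel
    rwa [h4] at h3

theorem phi_smul_mem {C : Set (V n)} (h : IsOC C) {t : ℝ} (ht : 0 < t) (x : V n) :
    t • x ∈ C ↔ x ∈ C := by
  constructor
  · intro h1
    have h2 := h.smul t⁻¹ (inv_pos.2 ht) _ h1
    rwa [smul_smul, inv_mul_cancel₀ ht.ne', one_smul] at h2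
  · exact h.smul t ht x

theorem phi_smul {C : Set (V n)} (h : IsOC C) {t : ℝ} (ht : 0 < t) (x : V n) :
    Phi C (t • x) = ENNReal.ofReal t ^ n * Phi C x := by
  have h1 : body C (t • x) = t • body C x := by
    ext y
    rw [Set.mem_smul_set_iff_inv_smul_mem₀ ht.ne']
    have h2 : t • x + y = t • (x + t⁻¹ • y) := by
      rw [smul_add, smul_smul, mul_inv_cancel₀ ht.ne', one_smul]
    have h3 : t • x - y = t • (x - t⁻¹ • y) := by
      rw [smul_sub, smul_smul, mul_inv_cancel₀ ht.ne', one_smul]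
    constructor
    · rintro ⟨h4, h5⟩
      rw [h2, phi_smul_mem h ht] at h4
      rw [h3, phi_smul_mem h ht] at h5
      exact ⟨h4, h5⟩
    · rintro ⟨h4, h5⟩
      refine ⟨?_, ?_⟩
      · rw [h2, phi_smul_mem h ht]; exact h4
      · rw [h3, phi_smul_mem h ht]; exact h5
  unfold Phi
  rw [h1, Measure.addHaar_smul, Module.finrank_fin_fun, abs_of_pos (pow_pos ht n),
    ENNReal.ofReal_pow ht.le]

theorem phi_pos {C : Set (V n)} (h : IsOC C) {x : V n} (hx : x ∈ C) : 0 < Phi C x := by
  refine (isOpen_body h x).measure_pos volume ⟨0, ?_, ?_⟩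
  · rw [add_zero]; exact hx
  · rw [sub_zero]; exact hx

theorem phi_bounded {C : Set (V n)} (h : IsAmp C) (x : V n) : Bornology.IsBounded (body C x) := by
  by_contra hb
  have h1 : ∀ k : ℕ, ∃ y ∈ body C x, (k : ℝ) + 1 < ‖y‖ := by
    intro k
    by_contra h2
    push Not at h2
    exact hb (isBounded_iff_forall_norm_le.2 ⟨_, h2⟩)
  choose y hy hk using h1
  have hpos : ∀ k, 0 < ‖y k‖ := fun k => lt_trans (by positivity) (hk k)
  have hs : ∀ k, ‖y k‖⁻¹ • y k ∈ Metric.sphere (0 : V n) 1 := by
    intro k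
    rw [mem_sphere_zero_iff_norm, norm_smul, norm_inv, norm_norm, inv_mul_cancel₀ (hpos k).ne']
  obtain ⟨u, hu, φ, hφ, hlim⟩ := (isCompact_sphere (0 : V n) 1).tendsto_subseq hs
  have hinv : Filter.Tendsto (fun k => ‖y (φ k)‖⁻¹) Filter.atTop (nhds 0) := by
    refine Filter.Tendsto.comp (g := fun r : ℝ => r⁻¹) tendsto_inv_atTop_zero ?_
    refine Filter.tendsto_atTop_mono (f := fun k => ((φ k : ℕ) : ℝ)) (fun k => ?_) ?_
    · exact (lt_trans (lt_add_one _) (hk (φ k))).le
    · exact tendsto_natCast_atTop_atTop.comp hφ.tendsto_atTop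
  have hx0 : Filter.Tendsto (fun k => ‖y (φ k)‖⁻¹ • x) Filter.atTop (nhds 0) := by
    have := hinv.smul_const x
    rwa [zero_smul] at this
  have hu1 : u ∈ closure C := by
    have h2 : Filter.Tendsto (fun k => ‖y (φ k)‖⁻¹ • x + ‖y (φ k)‖⁻¹ • y (φ k)) Filter.atTop
        (nhds (0 + u)) := hx0.add hlim
    rw [zero_add] at h2
    refine mem_closure_of_tendsto h2 (Filter.Eventually.of_forall fun k => ?_)
    rw [← smul_add]
    exact h.smul _ (inv_pos.2 (hpos _)) _ (hy (φ k)).1
  have hu2 : -u ∈ closure C := by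
    have h2 : Filter.Tendsto (fun k => ‖y (φ k)‖⁻¹ • x - ‖y (φ k)‖⁻¹ • y (φ k)) Filter.atTop
        (nhds (0 - u)) := hx0.sub hlim
    rw [zero_sub] at h2
    refine mem_closure_of_tendsto h2 (Filter.Eventually.of_forall fun k => ?_)
    rw [← smul_sub]
    exact h.smul _ (inv_pos.2 (hpos _)) _ (hy (φ k)).2
  have h3 := h.pointed u hu1 hu2
  rw [h3, mem_sphere_zero_iff_norm, norm_zero] at hu
  exact zero_ne_one hu

theorem phi_lt_top {C : Set (V n)} (h : IsAmp C) (x : V n) : Phi C x < ∞ :=
  (phi_bounded h x).measure_lt_top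

theorem phi_meas {C : Set (V n)} (h : IsOC C) : Measurable (Phi C) := by
  have h1 : IsOpen {p : V n × V n | p.1 + p.2 ∈ C} :=
    h.op.preimage (continuous_fst.add continuous_snd)
  have h2 : IsOpen {p : V n × V n | p.1 - p.2 ∈ C} :=
    h.op.preimage (continuous_fst.sub continuous_snd)
  have h3 : MeasurableSet ({p : V n × V n | p.1 + p.2 ∈ C} ∩ {p : V n × V n | p.1 - p.2 ∈ C}) :=
    (h1.inter h2).measurableSet
  exact measurable_measure_prodMk_left (ν := (volume : Measure (V n))) h3

theorem phi_meas_inv {C : Set (V n)} (h : IsOC C) : Measurable (fun x => (Phi C x)⁻¹ ^ 2) :=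
  (phi_meas h).inv.pow_const 2

end Pool.Agent.H20.FV
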