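import Pool.Agent.H20.FV.Mink
import Pool.Agent.H20.FV.Phi
import Pool.Agent.H20.FV.Core

/-!
[H20 FV COI]  Cocompactness implies that the strongly indecomposable classes form finitely many orbits.

Let `K` be the compact set of `Cocompact` for `M = 2 ^ n`.  The set `F` of the integral vectors `f` with `toR f ∈ K` is finite
(`K` is bounded).  For `v ∈ SInd C`: `toR v ∈ core C` (`mem_core`), `Phi C (toR v) ≤ 2 ^ n` (`mink`), so
`toR v = act g y`, `y ∈ K`, and `y = act g⁻¹ (toR v)` is integral.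
-/

set_option autoImplicit false

open MeasureTheory
open scoped ENNReal

namespace Pool.Agent.H20.FV

open Pool.Agent.H57.KM

variable {n : ℕ}

private theorem coi_finite {K : Set (V n)} (hK : Bornology.IsBounded K) :
    {f : Fin n → ℤ | toR f ∈ K}.Finite := by
  obtain ⟨B, hB⟩ := isBounded_iff_forall_norm_le.1 hK
  have h1 : {f : Fin n → ℤ | toR f ∈ K} ⊆
      (Set.pi Set.univ fun _ : Fin n => Set.Icc (-⌈B⌉) ⌈B⌉) := by
    intro f hf i _
    have h2 := (norm_le_pi_norm (toR f) i).trans (hB _ hf)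
    have h3 : |((f i : ℤ) : ℝ)| ≤ (⌈B⌉ : ℤ) := by
      calc |((f i : ℤ) : ℝ)| = ‖(toR f : V n) i‖ := rfl
        _ ≤ B := h2
        _ ≤ _ := Int.le_ceil B
    rw [abs_le] at h3
    exact ⟨by exact_mod_cast h3.1, by exact_mod_cast h3.2⟩
  exact (Set.Finite.pi fun _ => Set.finite_Icc _ _).subset h1

theorem coi {C : Set (V n)} (h : IsAmp C) {G : Subgroup (GL (Fin n) ℤ)}
    (hC : Cocompact C G) : FinOrb G (SInd C) := by
  obtain ⟨K, hK, -, hKs⟩ := hC (2 ^ n) (ENNReal.pow_ne_top (by norm_num))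
  refine ⟨{f | toR f ∈ K}, coi_finite hK.isBounded, fun v hv => ?_⟩
  have h1 : toR v ∈ {x | x ∈ core C ∧ Phi C x ≤ 2 ^ n} := ⟨mem_core h.oc hv.1, mink h.oc hv⟩
  obtain ⟨g, hg, hv'⟩ := Set.mem_iUnion₂.1 (hKs h1)
  obtain ⟨t, ht⟩ := exists_toR_act g⁻¹ v
  refine ⟨g, hg, t, ?_, ?_⟩
  · show toR t ∈ K
    rw [ht]
    exact mem_image_act.1 hv'
  · rw [ht, act_act_inv]

end Pool.Agent.H20.FV
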