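import Pool.Agent.H20.FV.Mini

/-!
[H20 FV DEC]  A covering by rational cones implies that the indecomposable classes are finite modulo `G`.

Let `S` be as in `Cov`.  Claim: every `v ∈ Ind C` is `act g (toR w)` with `g ∈ G`, `w` integral,
`toR w = ∑ t_s • toR s` with `0 ≤ t_s ≤ 1` for all `s ∈ S`: finitely many `w` (norm at most `∑ ‖toR s‖`, bounded
integral vectors are finitely many).  Proof: `toR v ∈ C ⊆ ⋃ act g '' cone S`, so `toR v = act g y`, `y ∈ cone S`,
`y = act g⁻¹ (toR v) = toR w` is integral (`act_toR`), in `C` (`Pres.iff`), and `w ∈ Ind C` as well: if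
`w = a + x` with `toR a ∈ C`, `toR x ∈ closure C` then `v = a' + x'` with `toR a' = act g (toR a) ∈ C`,
`toR x' = act g (toR x) ∈ closure C` (`Pres.closure`), so `x' = 0`, `x = 0`.  Write `toR w = ∑_{s ∈ S} t_s • toR s`,
`t_s ≥ 0`; we may take `t_s = 0` when `s = 0`.  If some `t_s > 1` with `s ∈ S`, `s ≠ 0`: then
`toR w - toR s = (1 - 1/t_s) • toR w + (1/t_s) • (toR w - t_s • toR s)`, where the first summand is in `C` and the
second one in `closure C` (`toR w - t_s • toR s` is the sum of the other terms).  So `toR (w - s) ∈ C`,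
`w = (w - s) + s` with `toR s ∈ closure C`, `s ≠ 0`: contradiction to `w ∈ Ind C`.
-/

set_option autoImplicit false

open MeasureTheory
open scoped ENNReal

namespace Pool.Agent.H20.FV

open Pool.Agent.H57.KM

variable {n : ℕ}

theorem dec_fin (S : Finset (Fin n → ℤ)) :
    {w : Fin n → ℤ | ∃ c : (Fin n → ℤ) → ℝ, (∀ s ∈ S, 0 ≤ c s ∧ c s ≤ 1) ∧
      toR w = ∑ s ∈ S, c s • toR s}.Finite := by
  set N : Fin n → ℤ := fun i => ∑ s ∈ S, |s i| with hN
  refine (Set.finite_Icc (-N) N).subset ?_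
  rintro w ⟨c, hc, hw⟩
  have h1 : ∀ i, |(w i : ℝ)| ≤ (N i : ℝ) := by
    intro i
    have h2 : (w i : ℝ) = ∑ s ∈ S, c s * (s i : ℝ) := by
      have h3 := congrFun hw i
      simp only [Finset.sum_apply, Pi.smul_apply, smul_eq_mul] at h3
      exact h3
    rw [h2, hN]
    push_cast
    refine (Finset.abs_sum_le_sum_abs _ _).trans (Finset.sum_le_sum fun s hs => ?_)
    rw [abs_mul, abs_of_nonneg (hc s hs).1]
    exact mul_le_of_le_one_left (abs_nonneg _) (hc s hs).2
  have h4 : ∀ i, |w i| ≤ N i := by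
    intro i
    exact_mod_cast h1 i
  refine ⟨fun i => ?_, fun i => ?_⟩
  · exact (abs_le.1 (h4 i)).1
  · exact (abs_le.1 (h4 i)).2

theorem dec_coef {C : Set (V n)} (h : IsAmp C) (S : Finset (Fin n → ℤ))
    (hS : ∀ s ∈ S, toR s ∈ closure C) (w : Fin n → ℤ) (hw : w ∈ Ind C) (c : (Fin n → ℤ) → ℝ)
    (hc : ∀ s, 0 ≤ c s) (hwc : toR w = ∑ s ∈ S, c s • toR s) (s : Fin n → ℤ) (hs : s ∈ S)
    (hs0 : s ≠ 0) : c s ≤ 1 := by
  classical
  by_contra hlt
  push Not at hlt
  have ht0 : 0 < c s := lt_trans one_pos hlt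
  have h1 : toR w - c s • toR s ∈ closure C := by
    have h2 : toR w - c s • toR s = ∑ r ∈ S.erase s, c r • toR r := by
      rw [hwc, ← Finset.add_sum_erase S _ hs]
      abel
    rw [h2]
    refine h.oc.sum_closure _ _ fun r hr => ?_
    exact h.oc.closure_smul (hc r) (hS r (Finset.mem_of_mem_erase hr))
  have h3 : toR (w - s) ∈ C := by
    have h4 : toR (w - s) = (1 - 1 / c s) • toR w + (1 / c s) • (toR w - c s • toR s) := by
      rw [toR_sub, smul_sub, smul_smul, one_div, inv_mul_cancel₀ ht0.ne', one_smul, sub_smul,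
        one_smul]
      abel
    rw [h4]
    refine h.oc.add_mem' (h.smul _ ?_ _ hw.1) (h.oc.closure_smul (by positivity) h1)
    have : 1 / c s < 1 := by
      rw [div_lt_one ht0]
      exact hlt
    linarith
  exact hs0 (hw.2 (w - s) s h3 (hS s hs) (by abel))

theorem dec {C : Set (V n)} (h : IsAmp C) {G : Subgroup (GL (Fin n) ℤ)} (hG : Pres G C)
    (hC : Cov C G) : FinOrb G (Ind C) := by
  classical
  obtain ⟨S, hS, hcov⟩ := hC
  refine ⟨_, dec_fin S, fun v hv => ?_⟩
  obtain ⟨g, hg, hvg⟩ := Set.mem_iUnion₂.1 (hcov hv.1)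
  rw [mem_image_act] at hvg
  obtain ⟨c, hc, hvc⟩ := hvg
  obtain ⟨w, hw⟩ := exists_toR_act g⁻¹ v
  have hvw : toR v = act g (toR w) := by rw [hw, act_act_inv]
  have hwI : w ∈ Ind C := by
    refine ⟨?_, fun a x ha hx hwax => ?_⟩
    · rw [hw]
      exact hG _ (G.inv_mem hg) _ hv.1
    · obtain ⟨a', ha'⟩ := exists_toR_act g a
      obtain ⟨x', hx'⟩ := exists_toR_act g x
      have h1 : x' = 0 := by
        refine hv.2 a' x' ?_ ?_ ?_
        · rw [ha']
          exact hG g hg _ ha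
        · rw [hx']
          exact hG.closure g hg _ hx
        · apply toR_inj
          rw [toR_add, ha', hx', ← act_add, ← toR_add, ← hwax, hvw]
      rw [h1, toR_zero] at hx'
      apply toR_inj
      rw [toR_zero, ← act_inv_act g (toR x), ← hx', act_zero]
  refine ⟨g, hg, w, ⟨fun s => if s = 0 then 0 else c s, fun s hs => ?_, ?_⟩, hvw⟩
  · dsimp only
    split_ifs with h0
    · exact ⟨le_rfl, zero_le_one⟩
    · exact ⟨hc s, dec_coef h S hS w hwI c hc (hw.trans hvc) s hs h0⟩
  · rw [hw, hvc]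
    refine Finset.sum_congr rfl fun s _ => ?_
    dsimp only
    split_ifs with h0
    · rw [h0, toR_zero, smul_zero, smul_zero]
    · rfl

end Pool.Agent.H20.FV
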