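import Pool.Agent.H57.KM.Basic

/-!
# The cone conjecture as a finiteness of volume (MP_e49dc9_ag): definitions and plan

`V n = ℝ^n` is `N^1(Y)` with the lattice `ℤ^n`, `C` the ample cone, `G` the image of `Aut(Y)` in `GL_n(ℤ)`
(definitions `V`, `toR`, `qR`, `act`, `RatPoly`, `IsAmp`, `NefData`, `NefData.Q1` of `H57/KM/Defs`).  The dual
space is identified with `V n` by the scalar product `⬝ᵥ`, the dual lattice is `ℤ^n`, the dual action is `ct`.

THEOREM.  The following are equivalent:
(i) `HasDomain`: `G` has a rational polyhedral fundamental domain on the convex hull of the rational nef classes;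
(ii) the ample integral classes which are not ample + nonzero nef form finitely many orbits; the same for the
dual cone;
(iii) `Cocompact`: `G` acts cocompactly on `{x ∈ core C : Phi x ≤ M}` for all `M`;
(iv) `FiniteVolume`: the integral of `Phi^(-2)` over `core C` modulo `G` is finite.
Here `Phi C x` is the volume of `{y : x + y, x - y ∈ C}` and `core C` the set of the ample classes `x` with
`z ⬝ᵥ x ≥ 1` for all nonzero integral `z` in the Mori cone.  Finite Hilbert covolume implies (i).

PLAN.  `Cov C G`: finitely many integral vectors `S` in `closure C` with `C ⊆ ⋃ g (cone S)`.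
`Dom`: (i) ↔ Cov (exact fundamental domain from `H32/Cone/Fund`).  `Dec`: Cov → Ind finite mod `G`.
`Locf` (from `Rq`, `Diri`, `Recu`, `Ycon`, `Dens`, `Carb`, `Car`): the cone generated by `v - e` (`v` integral in
`C`) is finitely generated.  `Step2` (from `Locf`, `Mini`, `Weyl`): SInd finite mod `G` → Cov of the dual cone.
`Dual`, `Ct`: dual cones.  Hence SInd finite → Cov (`Assem`).  `LemR`, `LemU`: the points of `cone S ∩ core C` stay
away from the boundary of `C`; `Fvol`, `Coco`: Cov → (iv), (iii).  `Pack`, `Pkv`, `Hilb`, `Mink`, `StabA`, `StabB`: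
(iv) → SInd finite, finite Hilbert covolume → SInd finite, (iii) → SInd finite.
-/

set_option autoImplicit false

open MeasureTheory
open scoped ENNReal

namespace Pool.Agent.H20.FV

open Pool.Agent.H57.KM

variable {n : ℕ}

/-- the convex cone generated by a finite set of integral vectors -/
def cone (S : Finset (Fin n → ℤ)) : Set (V n) :=
  {x | ∃ c : (Fin n → ℤ) → ℝ, (∀ s, 0 ≤ c s) ∧ x = ∑ s ∈ S, c s • toR s}

/-- nonempty open convex cones -/
structure IsOC (C : Set (V n)) : Prop where
  ne : C.Nonempty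
  op : IsOpen C
  add : ∀ x ∈ C, ∀ y ∈ C, x + y ∈ C
  smul : ∀ c : ℝ, 0 < c → ∀ x ∈ C, c • x ∈ C

/-- the group preserves the cone -/
def Pres (G : Subgroup (GL (Fin n) ℤ)) (C : Set (V n)) : Prop := ∀ g ∈ G, ∀ x ∈ C, act g x ∈ C

/-- finitely many rational polyhedral cones in the closure of `C` have translates covering `C` -/
def Cov (C : Set (V n)) (G : Subgroup (GL (Fin n) ℤ)) : Prop :=
  ∃ S : Finset (Fin n → ℤ), (∀ s ∈ S, toR s ∈ closure C) ∧ C ⊆ ⋃ g ∈ G, act g '' cone S

/-- a rational polyhedral fundamental domain on the convex hull of the rational points of `closure C` -/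
def HasDomain (C : Set (V n)) (G : Subgroup (GL (Fin n) ℤ)) : Prop :=
  ∃ P : Set (V n), RatPoly P ∧
    convexHull ℝ {x | x ∈ closure C ∧ ∃ q : Fin n → ℚ, x = qR q} = ⋃ g ∈ G, act g '' P ∧
    ∀ g ∈ G, g ≠ 1 → Disjoint (interior P) (act g '' interior P)

/-- the integral points of `C` which are not the sum of an integral point of `C` and a nonzero integral point
of `closure C` -/
def Ind (C : Set (V n)) : Set (Fin n → ℤ) :=
  {v | toR v ∈ C ∧ ∀ a x : Fin n → ℤ, toR a ∈ C → toR x ∈ closure C → v = a + x → x = 0}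

/-- the integral points `v` of `C` such that `v + x` and `v - x` are in `C` for no nonzero integral `x` -/
def SInd (C : Set (V n)) : Set (Fin n → ℤ) :=
  {v | toR v ∈ C ∧ ∀ x : Fin n → ℤ, toR (v + x) ∈ C → toR (v - x) ∈ C → x = 0}

/-- `A` is contained in finitely many orbits -/
def FinOrb (G : Subgroup (GL (Fin n) ℤ)) (A : Set (Fin n → ℤ)) : Prop :=
  ∃ F : Set (Fin n → ℤ), F.Finite ∧ ∀ v ∈ A, ∃ g ∈ G, ∃ f ∈ F, toR v = act g (toR f)

/-- the order body of `x` -/
def body (C : Set (V n)) (x : V n) : Set (V n) := {y | x + y ∈ C ∧ x - y ∈ C}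

/-- the volume of the order body -/
noncomputable def Phi (C : Set (V n)) (x : V n) : ℝ≥0∞ := volume (body C x)

/-- the closed dual cone -/
def Mori (C : Set (V n)) : Set (V n) := {z | ∀ x ∈ C, 0 ≤ z ⬝ᵥ x}

/-- the open dual cone -/
def dual (C : Set (V n)) : Set (V n) := {z | ∀ x ∈ closure C, x ≠ 0 → 0 < z ⬝ᵥ x}

/-- the points of `C` at which all nonzero integral functionals, not negative on `C`, are at least `1` -/
def core (C : Set (V n)) : Set (V n) :=
  {x | x ∈ C ∧ ∀ z : Fin n → ℤ, z ≠ 0 → toR z ∈ Mori C → 1 ≤ toR z ⬝ᵥ x}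

/-- the integral of `Phi^(-2)` over `core C` modulo `G` is finite -/
def FiniteVolume (C : Set (V n)) (G : Subgroup (GL (Fin n) ℤ)) : Prop :=
  ∃ T : Set (V n), MeasurableSet T ∧ T ⊆ core C ∧ core C ⊆ ⋃ g ∈ G, act g '' T ∧
    ∫⁻ x in T, (Phi C x)⁻¹ ^ 2 ≠ ∞

/-- `G` acts cocompactly on the points of `core C` with bounded `Phi` -/
def Cocompact (C : Set (V n)) (G : Subgroup (GL (Fin n) ℤ)) : Prop :=
  ∀ M : ℝ≥0∞, M ≠ ∞ → ∃ K : Set (V n), IsCompact K ∧ K ⊆ C ∧
    {x | x ∈ core C ∧ Phi C x ≤ M} ⊆ ⋃ g ∈ G, act g '' K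

/-- the quotient by `G` of the projectivization of `C` has finite Hilbert volume: the volume of
`{x ∈ C : 1 ≤ Phi x ≤ 2^n}` modulo `G` is finite -/
def FiniteHilbert (C : Set (V n)) (G : Subgroup (GL (Fin n) ℤ)) : Prop :=
  ∃ T : Set (V n), MeasurableSet T ∧ {x | x ∈ C ∧ 1 ≤ Phi C x ∧ Phi C x ≤ 2 ^ n} ⊆ ⋃ g ∈ G, act g '' T ∧
    volume T ≠ ∞

end Pool.Agent.H20.FV
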