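import Pool.Agent.H20.FV.Diri

/-!
[H20 FV DENS]  Integral points of `C + R` can be moved into `C` by integral vectors of `R`.

Choose `δ1 > 0` with `ball c δ1 ⊆ C`.  Put `δ = min δ0 (δ1 / (2 * (n + 1)))`.  `R` is spanned by `toR '' Near u δ`; take
`b_1, ..., b_k ∈ Near u δ`, `k ≤ n`, such that the `toR b_i` form a basis of `R` (linearly independent, so `k ≤ n`),
`‖toR b_i - t_i • u‖ < δ`, `t_i ≥ 0`.  `toR l - c ∈ R`: write `- (toR l - c) = ∑ α_i toR b_i`.  Let
`n_i = round (α_i)`, `|n_i - α_i| ≤ 1/2`.  By `diri` there are an integral `l'` and `t' ≥ ∑ t_i`, `t' > 0`, with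
`‖toR l' - t' • u‖ < min δ0 (δ1 / 2)`, so `toR l' ∈ R` (it is in `Near u δ0`).  Put `m = ∑ n_i • b_i + l'`; `toR m ∈ R`.
`toR (l + m) = c - ∑ α_i toR b_i + ∑ n_i toR b_i + toR l'
 = c + [∑ (n_i - α_i) (toR b_i - t_i • u) + (toR l' - t' • u)] + (∑ (n_i - α_i) t_i + t') • u`.
The coefficient of `u` is `≥ t' - ∑ t_i / 2 ≥ 0`, the bracket has norm `≤ n δ / 2 + δ1 / 2 < δ1`.  So
`c + [...] ∈ C` and the sum with a nonnegative multiple of `u ∈ closure C` is in `C` (`IsOC.add_mem'`).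
-/

set_option autoImplicit false

open MeasureTheory
open scoped ENNReal

namespace Pool.Agent.H20.FV

open Pool.Agent.H57.KM

variable {n : ℕ}

theorem dens {C : Set (V n)} (h : IsOC C) {u : V n}
    (hu : u ∈ closure C) {R : Submodule ℝ (V n)} {δ0 : ℝ} (hδ0 : 0 < δ0)
    (hR : ∀ δ, 0 < δ → δ ≤ δ0 → Submodule.span ℝ (toR '' Near u δ) = R)
    {l : Fin n → ℤ} {c : V n} (hc : c ∈ C) (hl : toR l - c ∈ R) :
    ∃ m : Fin n → ℤ, toR m ∈ R ∧ toR (l + m) ∈ C := by
  classical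
  obtain ⟨δ1, hδ1, hball⟩ := Metric.isOpen_iff.1 h.op c hc
  obtain ⟨δ, hδd⟩ : ∃ δ : ℝ, δ = min δ0 (δ1 / (2 * (n + 1))) := ⟨_, rfl⟩
  have hn0 : (0 : ℝ) < 2 * (n + 1) := by positivity
  have hδ : 0 < δ := by rw [hδd]; exact lt_min hδ0 (by positivity)
  have hδa : δ ≤ δ0 := by rw [hδd]; exact min_le_left _ _
  have hδb : δ ≤ δ1 / (2 * (n + 1)) := by rw [hδd]; exact min_le_right _ _
  have hspan := hR δ hδ hδa
  obtain ⟨b, hb1, hb2, hb3⟩ := exists_linearIndependent ℝ (toR '' Near u δ)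
  have hbfin : b.Finite := hb3.setFinite
  obtain ⟨B, hB⟩ : ∃ B : Finset (V n), B = hbfin.toFinset := ⟨_, rfl⟩
  have hBb : (B : Set (V n)) = b := by rw [hB]; exact hbfin.coe_toFinset
  have hBm : ∀ v, v ∈ B ↔ v ∈ b := by
    intro v
    rw [← hBb]
    exact Finset.mem_coe.symm
  have hcard : B.card ≤ n := by
    have h1 : LinearIndependent ℝ (fun x : B => (x : V n)) := by
      have h2 : LinearIndependent ℝ (fun x : (B : Set (V n)) => (x : V n)) := by
        rw [hBb]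
        exact hb3
      exact h2
    have h3 := h1.fintype_card_le_finrank
    simpa using h3
  have hch : ∀ v : V n, ∃ (lv : Fin n → ℤ) (t : ℝ), v ∈ b → toR lv = v ∧ 0 ≤ t ∧ ‖v - t • u‖ < δ := by
    intro v
    by_cases hv : v ∈ b
    · obtain ⟨lv, ⟨t, ht, ht2⟩, hlv⟩ := hb1 hv
      exact ⟨lv, t, fun _ => ⟨hlv, ht, by rw [← hlv]; exact ht2⟩⟩
    · exact ⟨0, 0, fun hh => absurd hh hv⟩
  choose lv tv hlt using hch
  have hspanB : Submodule.span ℝ (B : Set (V n)) = R := by rw [hBb, hb2, hspan]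
  have hx : c - toR l ∈ Submodule.span ℝ (B : Set (V n)) := by
    rw [hspanB]
    have := R.neg_mem hl
    rwa [neg_sub] at this
  obtain ⟨α, -, hα⟩ := Submodule.mem_span_finset.1 hx
  obtain ⟨l', t', ht'1, ht'0, ht'2⟩ := diri u (lt_min hδ0 (half_pos hδ1)) (∑ v ∈ B, tv v)
  have hl'R : toR l' ∈ R := by
    rw [← hR δ0 hδ0 le_rfl]
    exact Submodule.subset_span ⟨l', ⟨t', ht'0.le, ht'2.trans_le (min_le_left _ _)⟩, rfl⟩
  have hvR : ∀ v ∈ B, v ∈ R := by
    intro v hv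
    rw [← hspanB]
    exact Submodule.subset_span (Finset.mem_coe.2 hv)
  have hvl : ∀ v ∈ B, toR (lv v) = v := fun v hv => (hlt v ((hBm v).1 hv)).1
  have hv0 : ∀ v ∈ B, 0 ≤ tv v := fun v hv => (hlt v ((hBm v).1 hv)).2.1
  have hvd : ∀ v ∈ B, ‖v - tv v • u‖ ≤ δ := fun v hv => (hlt v ((hBm v).1 hv)).2.2.le
  have hmR : toR (∑ v ∈ B, round (α v) • lv v + l') = ∑ v ∈ B, ((round (α v) : ℤ) : ℝ) • v + toR l' := by
    rw [toR_add, toR_sum]
    congr 1
    refine Finset.sum_congr rfl fun v hv => ?_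
    rw [toR_smul, hvl v hv]
  refine ⟨∑ v ∈ B, round (α v) • lv v + l', ?_, ?_⟩
  · rw [hmR]
    exact R.add_mem (R.sum_mem fun v hv => R.smul_mem _ (hvR v hv)) hl'R
  · have hβ : ∀ v, |((round (α v) : ℤ) : ℝ) - α v| ≤ 1 / 2 := by
      intro v
      rw [abs_sub_comm]
      exact abs_sub_round (α v)
    have hid : toR (l + (∑ v ∈ B, round (α v) • lv v + l')) =
        (c + (∑ v ∈ B, (((round (α v) : ℤ) : ℝ) - α v) • (v - tv v • u) + (toR l' - t' • u))) +
          (∑ v ∈ B, (((round (α v) : ℤ) : ℝ) - α v) * tv v + t') • u := by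
      rw [toR_add, hmR]
      have e1 : toR l = c - ∑ v ∈ B, α v • v := by
        rw [hα]
        abel
      have e2 : ∑ v ∈ B, (((round (α v) : ℤ) : ℝ) - α v) • (v - tv v • u) =
          ∑ v ∈ B, ((round (α v) : ℤ) : ℝ) • v - ∑ v ∈ B, α v • v -
            (∑ v ∈ B, (((round (α v) : ℤ) : ℝ) - α v) * tv v) • u := by
        rw [Finset.sum_smul, ← Finset.sum_sub_distrib, ← Finset.sum_sub_distrib]
        refine Finset.sum_congr rfl fun v _ => ?_
        rw [smul_sub, sub_smul, mul_smul]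
      rw [e1, e2, add_smul]
      abel
    rw [hid]
    refine h.add_mem' ?_ (h.closure_smul ?_ hu)
    · apply hball
      rw [Metric.mem_ball, dist_eq_norm, add_sub_cancel_left]
      have h1 : ‖∑ v ∈ B, (((round (α v) : ℤ) : ℝ) - α v) • (v - tv v • u)‖ ≤ n * (1 / 2 * δ) := by
        calc ‖∑ v ∈ B, (((round (α v) : ℤ) : ℝ) - α v) • (v - tv v • u)‖
            ≤ ∑ v ∈ B, ‖(((round (α v) : ℤ) : ℝ) - α v) • (v - tv v • u)‖ := norm_sum_le _ _
          _ ≤ ∑ _v ∈ B, 1 / 2 * δ := by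
              refine Finset.sum_le_sum fun v hv => ?_
              rw [norm_smul, Real.norm_eq_abs]
              exact mul_le_mul (hβ v) (hvd v hv) (norm_nonneg _) (by norm_num)
          _ = B.card * (1 / 2 * δ) := by rw [Finset.sum_const, nsmul_eq_mul]
          _ ≤ n * (1 / 2 * δ) := by
              apply mul_le_mul_of_nonneg_right _ (by positivity)
              exact_mod_cast hcard
      have h2 : ‖toR l' - t' • u‖ < δ1 / 2 := ht'2.trans_le (min_le_right _ _)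
      have h3 : (n : ℝ) * (1 / 2 * δ) ≤ δ1 / 2 := by
        have h4 : δ * (2 * (n + 1)) ≤ δ1 := by
          rw [le_div_iff₀ hn0] at hδb
          exact hδb
        nlinarith
      calc _ ≤ ‖∑ v ∈ B, (((round (α v) : ℤ) : ℝ) - α v) • (v - tv v • u)‖ + ‖toR l' - t' • u‖ :=
            norm_add_le _ _
        _ < δ1 := by linarith
    · have h1 : -(1 / 2 * ∑ v ∈ B, tv v) ≤ ∑ v ∈ B, (((round (α v) : ℤ) : ℝ) - α v) * tv v := by
        rw [Finset.mul_sum, ← Finset.sum_neg_distrib]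
        refine Finset.sum_le_sum fun v hv => ?_
        have h2 := (abs_le.1 (hβ v)).1
        have h3 := hv0 v hv
        nlinarith
      have h4 : 0 ≤ ∑ v ∈ B, tv v := Finset.sum_nonneg fun v hv => hv0 v hv
      linarith

end Pool.Agent.H20.FV
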