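import Pool.Agent.H20.FV.Basic

/-!
[H20 FV DIRI]  Simultaneous approximation and the recurrent rational subspace of a direction.

`Near u δ` = integral vectors at distance `< δ` from a point `t • u`, `t ≥ 0`.

(1) `diri` (Dirichlet): put `a = max T 1`.  Choose `N : ℕ` with `1 / N < δ`, `N > 0`.  The map
`k ↦ (fun i => ⌊N * Int.fract (k * a * u i)⌋)` from `ℕ` to the finite set `Fin n → {0, ..., N-1}` is not injective:
there are `k < k'` with the same value.  Put `l i = ⌊k' * a * u i⌋ - ⌊k * a * u i⌋`, `t = (k' - k) * a ≥ a ≥ T`.  Then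
`|l i - t * u i| = |fract (k' a u_i) - fract (k a u_i)| < 1 / N < δ` for all `i`, so the sup norm is `< δ`
(`pi_norm_lt_iff`).
(2) `recu`: among all `δ > 0` choose `δ0` with `finrank (span (toR '' Near u δ0))` minimal (natural numbers are well
ordered); for `0 < δ ≤ δ0` the set `Near u δ` is contained in `Near u δ0`, so its span is contained in `R`, and has at
least the same dimension, so it is equal to `R` (`Submodule.eq_of_le_of_finrank_le`).  `u ∈ R`: `R` is closed (finite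
dimension, `Submodule.closed_of_finiteDimensional`); by `diri` with `T = k + 1` there are `l_k ∈ Near u δ0`, `t_k ≥ k + 1`,
`‖toR l_k - t_k • u‖ < δ0`, so `t_k⁻¹ • toR l_k ∈ R` is at distance `< δ0 / (k + 1)` from `u`.
-/

set_option autoImplicit false

open MeasureTheory
open scoped ENNReal

namespace Pool.Agent.H20.FV

open Pool.Agent.H57.KM

variable {n : ℕ}

/-- integral vectors close to the half line spanned by `u` -/
def Near (u : V n) (δ : ℝ) : Set (Fin n → ℤ) := {l | ∃ t : ℝ, 0 ≤ t ∧ ‖toR l - t • u‖ < δ}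

theorem diri_fract {N : ℕ} (hN : 0 < N) {x y : ℝ}
    (h : ⌊(N : ℝ) * Int.fract x⌋₊ = ⌊(N : ℝ) * Int.fract y⌋₊) :
    |Int.fract x - Int.fract y| < 1 / (N : ℝ) := by
  have hN' : (0 : ℝ) < N := by exact_mod_cast hN
  have hx : (0 : ℝ) ≤ (N : ℝ) * Int.fract x := mul_nonneg hN'.le (Int.fract_nonneg x)
  have hy : (0 : ℝ) ≤ (N : ℝ) * Int.fract y := mul_nonneg hN'.le (Int.fract_nonneg y)
  have h1 := Nat.floor_le hx
  have h2 := Nat.lt_floor_add_one ((N : ℝ) * Int.fract x)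
  have h3 := Nat.floor_le hy
  have h4 := Nat.lt_floor_add_one ((N : ℝ) * Int.fract y)
  rw [h] at h1 h2
  have h5 : |(N : ℝ) * (Int.fract x - Int.fract y)| < 1 := by
    rw [mul_sub, abs_lt]
    constructor <;> linarith
  rw [abs_mul, abs_of_pos hN'] at h5
  rw [lt_div_iff₀ hN', mul_comm]
  exact h5

theorem diri (u : V n) {δ : ℝ} (hδ : 0 < δ) (T : ℝ) :
    ∃ (l : Fin n → ℤ) (t : ℝ), T ≤ t ∧ 0 < t ∧ ‖toR l - t • u‖ < δ := by
  obtain ⟨N0, hN0⟩ := exists_nat_one_div_lt hδ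
  obtain ⟨N, hN, hNδ⟩ : ∃ N : ℕ, 0 < N ∧ 1 / (N : ℝ) < δ :=
    ⟨N0 + 1, Nat.succ_pos _, by push_cast; exact hN0⟩
  have hN' : (0 : ℝ) < N := by exact_mod_cast hN
  set a : ℝ := max T 1 with ha
  have ha1 : 1 ≤ a := le_max_right _ _
  have haT : T ≤ a := le_max_left _ _
  have hlt : ∀ x : ℝ, ⌊(N : ℝ) * Int.fract x⌋₊ < N := by
    intro x
    rw [Nat.floor_lt (mul_nonneg hN'.le (Int.fract_nonneg x))]
    have := Int.fract_lt_one x
    nlinarith
  obtain ⟨x, y, hxy, hφ⟩ := Finite.exists_ne_map_eq_of_infinite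
    (fun k : ℕ => fun i : Fin n =>
      (⟨⌊(N : ℝ) * Int.fract ((k : ℝ) * a * u i)⌋₊, hlt _⟩ : Fin N))
  have key : ∀ x y : ℕ, x < y → (∀ i : Fin n, ⌊(N : ℝ) * Int.fract ((x : ℝ) * a * u i)⌋₊ =
      ⌊(N : ℝ) * Int.fract ((y : ℝ) * a * u i)⌋₊) →
      ∃ (l : Fin n → ℤ) (t : ℝ), T ≤ t ∧ 0 < t ∧ ‖toR l - t • u‖ < δ := by
    intro x y hxy h
    have h1 : (1 : ℝ) ≤ (y : ℝ) - x := by
      have : x + 1 ≤ y := hxy
      have h2 : ((x + 1 : ℕ) : ℝ) ≤ y := by exact_mod_cast this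
      push_cast at h2
      linarith
    have h2 : a ≤ ((y : ℝ) - x) * a := by nlinarith
    refine ⟨fun i => ⌊(y : ℝ) * a * u i⌋ - ⌊(x : ℝ) * a * u i⌋, ((y : ℝ) - x) * a,
      haT.trans h2, by linarith, ?_⟩
    rw [pi_norm_lt_iff hδ]
    intro i
    have h3 := diri_fract hN (h i)
    have h4 : (toR (fun i => ⌊(y : ℝ) * a * u i⌋ - ⌊(x : ℝ) * a * u i⌋) -
        (((y : ℝ) - x) * a) • u) i =
        Int.fract ((x : ℝ) * a * u i) - Int.fract ((y : ℝ) * a * u i) := by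
      have e1 := Int.floor_add_fract ((x : ℝ) * a * u i)
      have e2 := Int.floor_add_fract ((y : ℝ) * a * u i)
      simp only [toR, Pi.sub_apply, Pi.smul_apply, smul_eq_mul]
      push_cast
      linear_combination e2 - e1
    rw [h4, Real.norm_eq_abs]
    exact h3.trans hNδ
  have hφ' : ∀ i : Fin n, ⌊(N : ℝ) * Int.fract ((x : ℝ) * a * u i)⌋₊ =
      ⌊(N : ℝ) * Int.fract ((y : ℝ) * a * u i)⌋₊ := by
    intro i
    exact congrArg Fin.val (congrFun hφ i)
  rcases lt_or_gt_of_ne hxy with h | h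
  · exact key x y h hφ'
  · exact key y x h (fun i => (hφ' i).symm)

theorem recu_near_mono (u : V n) {δ δ' : ℝ} (h : δ ≤ δ') : Near u δ ⊆ Near u δ' := by
  rintro l ⟨t, ht, hl⟩
  exact ⟨t, ht, lt_of_lt_of_le hl h⟩

theorem recu (u : V n) :
    ∃ (R : Submodule ℝ (V n)) (δ0 : ℝ), 0 < δ0 ∧ u ∈ R ∧
      ∀ δ, 0 < δ → δ ≤ δ0 → Submodule.span ℝ (toR '' Near u δ) = R := by
  classical
  have hex : ∃ k : ℕ, ∃ δ : ℝ, 0 < δ ∧
      Module.finrank ℝ (Submodule.span ℝ (toR '' Near u δ)) = k := ⟨_, 1, one_pos, rfl⟩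
  obtain ⟨δ0, hδ0, hk⟩ := Nat.find_spec hex
  have hmin : ∀ δ, 0 < δ → Nat.find hex ≤
      Module.finrank ℝ (Submodule.span ℝ (toR '' Near u δ)) := fun δ hδ =>
    Nat.find_min' hex ⟨δ, hδ, rfl⟩
  refine ⟨Submodule.span ℝ (toR '' Near u δ0), δ0, hδ0, ?_, ?_⟩
  · have hcl : IsClosed ((Submodule.span ℝ (toR '' Near u δ0) : Submodule ℝ (V n)) : Set (V n)) :=
      Submodule.closed_of_finiteDimensional _
    have hmem : u ∈ closure ((Submodule.span ℝ (toR '' Near u δ0) : Submodule ℝ (V n)) :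
        Set (V n)) := by
      rw [Metric.mem_closure_iff]
      intro ε hε
      obtain ⟨l, t, htT, ht, hl⟩ := diri u hδ0 (δ0 / ε)
      refine ⟨t⁻¹ • toR l, ?_, ?_⟩
      · exact Submodule.smul_mem _ _ (Submodule.subset_span ⟨l, ⟨t, ht.le, hl⟩, rfl⟩)
      · have h1 : u - t⁻¹ • toR l = -(t⁻¹ • (toR l - t • u)) := by
          rw [smul_sub, smul_smul, inv_mul_cancel₀ ht.ne', one_smul]
          abel
        rw [dist_eq_norm, h1, norm_neg, norm_smul, norm_inv, Real.norm_eq_abs, abs_of_pos ht]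
        have h2 : t⁻¹ * ‖toR l - t • u‖ < t⁻¹ * δ0 :=
          mul_lt_mul_of_pos_left hl (inv_pos.2 ht)
        have h3 : t⁻¹ * δ0 ≤ ε := by
          rw [inv_mul_le_iff₀ ht]
          rw [div_le_iff₀ hε] at htT
          exact htT
        exact lt_of_lt_of_le h2 h3
    rwa [hcl.closure_eq] at hmem
  · intro δ hδ hle
    apply Submodule.eq_of_le_of_finrank_le
    · exact Submodule.span_mono (Set.image_mono (recu_near_mono u hle))
    · rw [hk]
      exact hmin δ hδ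

end Pool.Agent.H20.FV
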