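import Pool.Agent.H20.FV.Datum

/-!
[H20 FV DOM]  Fundamental domains and coverings; the full conjecture.

(1) `C_sub_hull`: every point `x` of the open set `C` is in the convex hull of the rational points of `C`: choose rational
numbers `a_i < x_i < b_i` so close to `x_i` that the box `∏ [a_i, b_i]` is in `C`; `x` is in the box, which is the convex
hull of its (rational) vertices (`convexHull_pi` / `Set.pi univ`, segments).
(2) `dom`, `→`: `P = cone S` by definition of `RatPoly`.  For `s ∈ S`: `toR s ∈ P = act 1 '' P` is in the hull, which is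
contained in `closure C` (closed, convex).  `C ⊆` hull `= ⋃ act g '' P`.  `←`: `cov_domain`.
(3) `q1eq`, `→`: let `P = cone S` be as in Q1.  `toR s ∈ closure amp` for `s ∈ S` (`g = 1`), `amp ⊆ closure amp ∩ eff =
⋃ act g '' P` (`amp_eff`): `Cov`.  By `cov_domain` the hull is contained in `⋃ act g '' cone S = closure amp ∩ eff`, so
the integral points of `closure amp` (they are rational points of `closure amp`, so in the hull) are in `eff`.  `←`:
`cov_domain` gives `HasDomain`; the hull is equal to `closure amp ∩ eff`: `⊇` is `nef_eff`; `⊆`: it is contained in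
`closure amp`, and a rational point of `closure amp` is `(1/d) • toR s` with `toR s ∈ closure amp`, so in `eff`
(`eff_smul`), and `eff` is convex (`eff_add`, `eff_smul`, `eff_zero`).
-/

set_option autoImplicit false

open MeasureTheory
open scoped ENNReal

namespace Pool.Agent.H20.FV

open Pool.Agent.H57.KM

variable {n : ℕ}

theorem C_sub_hull {C : Set (V n)} (h : IsAmp C) :
    C ⊆ convexHull ℝ {x | x ∈ closure C ∧ ∃ q : Fin n → ℚ, x = qR q} := by
  classical
  intro x hx
  obtain ⟨ε, hε, hball⟩ := Metric.isOpen_iff.1 h.op x hx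
  have hex : ∀ i, ∃ ab : ℚ × ℚ, x i - ε < ab.1 ∧ (ab.1 : ℝ) < x i ∧ x i < ab.2 ∧ (ab.2 : ℝ) < x i + ε := by
    intro i
    obtain ⟨a, ha1, ha2⟩ := exists_rat_btwn (show x i - ε < x i by linarith)
    obtain ⟨b, hb1, hb2⟩ := exists_rat_btwn (show x i < x i + ε by linarith)
    exact ⟨(a, b), ha1, ha2, hb1, hb2⟩
  choose ab h1 h2 h3 h4 using hex
  have hmem : x ∈ convexHull ℝ (Set.pi Set.univ (fun i => ({((ab i).1 : ℝ), ((ab i).2 : ℝ)} : Set ℝ))) := by
    rw [convexHull_pi]
    intro i _
    change x i ∈ convexHull ℝ ({((ab i).1 : ℝ), ((ab i).2 : ℝ)} : Set ℝ)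
    rw [convexHull_pair, segment_eq_Icc ((h2 i).trans (h3 i)).le]
    exact ⟨(h2 i).le, (h3 i).le⟩
  refine convexHull_mono ?_ hmem
  intro y hy
  constructor
  · apply subset_closure
    apply hball
    rw [Metric.mem_ball, dist_pi_lt_iff hε]
    intro i
    rw [Real.dist_eq, abs_lt]
    have h5 := hy i (Set.mem_univ i)
    rw [Set.mem_insert_iff, Set.mem_singleton_iff] at h5
    have k1 := h1 i
    have k2 := h2 i
    have k3 := h3 i
    have k4 := h4 i
    rcases h5 with h5 | h5
    · rw [h5]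
      constructor <;> linarith
    · rw [h5]
      constructor <;> linarith
  · refine ⟨fun i => if y i = (ab i).1 then (ab i).1 else (ab i).2, ?_⟩
    funext i
    have h5 := hy i (Set.mem_univ i)
    rw [Set.mem_insert_iff, Set.mem_singleton_iff] at h5
    change y i = ((if y i = (ab i).1 then (ab i).1 else (ab i).2 : ℚ) : ℝ)
    split_ifs with h6
    · exact h6
    · exact h5.resolve_left h6

private theorem dom_hull_closure {C : Set (V n)} (h : IsAmp C) :
    convexHull ℝ {x | x ∈ closure C ∧ ∃ q : Fin n → ℚ, x = qR q} ⊆ closure C :=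
  convexHull_min (fun _ hx => hx.1) h.convex.closure

private theorem dom_one {G : Subgroup (GL (Fin n) ℤ)} {P : Set (V n)} {x : V n} (hx : x ∈ P) :
    x ∈ ⋃ g ∈ G, act g '' P :=
  Set.mem_biUnion G.one_mem ⟨x, hx, act_one x⟩

private theorem dom_scale (q : Fin n → ℚ) : ∃ d : ℝ, 0 < d ∧ ∃ s : Fin n → ℤ, toR s = d • qR q := by
  have hd0 : 0 < ∏ i, (q i).den := Finset.prod_pos fun i _ => (q i).den_pos
  have hex : ∀ i, ∃ k : ℕ, ∏ i, (q i).den = (q i).den * k := fun i =>
    Finset.dvd_prod_of_mem (fun i => (q i).den) (Finset.mem_univ i)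
  choose k hk using hex
  refine ⟨((∏ i, (q i).den : ℕ) : ℝ), by exact_mod_cast hd0, fun i => (q i).num * k i, ?_⟩
  funext i
  have h1 : ((q i : ℚ) : ℝ) * (q i).den = (q i).num := by
    exact_mod_cast Rat.mul_den_eq_num (q i)
  change (((q i).num * k i : ℤ) : ℝ) = ((∏ i, (q i).den : ℕ) : ℝ) * ((q i : ℚ) : ℝ)
  rw [hk i]
  push_cast
  rw [← h1]
  ring

theorem dom {C : Set (V n)} (h : IsAmp C) {G : Subgroup (GL (Fin n) ℤ)} (hG : Pres G C) :
    HasDomain C G ↔ Cov C G := by
  constructor
  · rintro ⟨P, ⟨S, hP⟩, hcov, -⟩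
    have hP' : P = cone S := hP
    refine ⟨S, fun s hs => ?_, ?_⟩
    · apply dom_hull_closure h
      rw [hcov]
      apply dom_one
      rw [hP']
      exact toR_mem_cone hs
    · rw [← hP', ← hcov]
      exact C_sub_hull h
  · rintro ⟨S, hS, hcov⟩
    exact (cov_domain h hG hS hcov).1

theorem q1eq (D : NefData n) :
    D.Q1 ↔ (∀ s : Fin n → ℤ, toR s ∈ closure D.amp → toR s ∈ D.eff) ∧ Cov D.amp D.G := by
  have hG : Pres D.G D.amp := D.act_amp
  constructor
  · rintro ⟨P, ⟨S, hP⟩, hcov, -⟩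
    have hP' : P = cone S := hP
    rw [hP'] at hcov
    have hS : ∀ s ∈ S, toR s ∈ closure D.amp := by
      intro s hs
      have h1 : toR s ∈ closure D.amp ∩ D.eff := by
        rw [hcov]
        exact dom_one (toR_mem_cone hs)
      exact h1.1
    have hc : D.amp ⊆ ⋃ g ∈ D.G, act g '' cone S := by
      rw [← hcov]
      exact fun x hx => ⟨subset_closure hx, D.amp_eff hx⟩
    refine ⟨fun s hs => ?_, S, hS, hc⟩
    have h2 := (cov_domain D.isAmp hG hS hc).2
    rw [← hcov] at h2
    refine (h2 (subset_convexHull ℝ _ ⟨hs, fun i => (s i : ℚ), ?_⟩)).2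
    funext i
    simp [toR, qR]
  · rintro ⟨hE, hC⟩
    obtain ⟨P, hP, hhull, hdis⟩ := (dom D.isAmp hG).2 hC
    refine ⟨P, hP, ?_, hdis⟩
    rw [← hhull]
    apply Set.Subset.antisymm D.nef_eff
    refine convexHull_min ?_ ?_
    · rintro x ⟨hx, q, rfl⟩
      refine ⟨hx, ?_⟩
      obtain ⟨d, hd, s, hs⟩ := dom_scale q
      have h1 : toR s ∈ D.eff := by
        apply hE
        rw [hs]
        exact D.isAmp.closure_smul _ hd.le _ hx
      have h2 := D.eff_smul d⁻¹ (inv_pos.2 hd) _ h1
      rwa [hs, smul_smul, inv_mul_cancel₀ hd.ne', one_smul] at h2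
    · rintro x ⟨hx, hx'⟩ y ⟨hy, hy'⟩ a b ha hb hab
      refine ⟨D.isAmp.closure_add _ (D.isAmp.closure_smul _ ha _ hx) _ (D.isAmp.closure_smul _ hb _ hy), ?_⟩
      have key : ∀ (c : ℝ) (z : V n), 0 ≤ c → z ∈ D.eff → c • z ∈ D.eff := by
        intro c z hc hz
        rcases hc.eq_or_lt with h0 | h0
        · rw [← h0, zero_smul]
          exact D.eff_zero
        · exact D.eff_smul c h0 z hz
      exact D.eff_add _ (key a x ha hx') _ (key b y hb hy')

end Pool.Agent.H20.FV
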