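import Pool.Agent.H20.FV.Phi
import Pool.Agent.H20.FV.Core

/-!
[H20 FV SIMPVOL]  The integral over a simplicial cone is finite.

Let `P : (Fin n → ℝ) → V n`, `P t = ∑ i, t i • toR (p i)`, a linear bijection.  `f y = (Phi C y)⁻¹ ^ 2` is measurable
(`phi_meas_inv`).  Change of variables `y = P t` (`MeasureTheory.lintegral_image_eq_lintegral_abs_det_fderiv_mul` or
`Measure.map_linearMap_addHaar_eq_smul_addHaar`):
`∫⁻ y in scone p ∩ core C, f y = |det P| * ∫⁻ t in {t ≥ 0} ∩ P⁻¹(core C), f (P t)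
≤ |det P| * ∫⁻ t in {t | ∀ i, 0 ≤ t i}, (ENNReal.ofReal (c * ∏ (t i + r)))⁻¹ ^ 2`, and the last integral is
`c^(-2) * (∫_0^∞ (s + r)^(-2) ds)^n = c^(-2) r^(-n) < ∞` (product of integrals: Tonelli,
`MeasureTheory.lintegral_fin_nat_prod_eq_prod` or `MeasureTheory.Integrable.fintype_prod` with
`MeasureTheory.volume_pi`, the restriction of the product measure to the orthant is the product of the restrictions,
`Measure.restrict_pi_pi`).  For `s ↦ (s + r)^(-2)` on `(0, ∞)`: `integrableOn_Ioi_rpow_of_lt` after a translation, or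
`integrableOn_add_rpow_Ioi_of_lt`.
-/

set_option autoImplicit false

open MeasureTheory
open scoped ENNReal

namespace Pool.Agent.H20.FV

open Pool.Agent.H57.KM

variable {n : ℕ}

/-- the linear map `t ↦ ∑ t i • toR (p i)` -/
noncomputable def simpVolP (p : Fin n → Fin n → ℤ) : (Fin n → ℝ) →ₗ[ℝ] (Fin n → ℝ) :=
  Fintype.linearCombination ℝ (fun i => (toR (p i) : V n))

theorem simpVolP_apply (p : Fin n → Fin n → ℤ) (t : Fin n → ℝ) :
    simpVolP p t = ∑ i, t i • toR (p i) := rfl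

theorem simpVol_one {r : ℝ} (hr : 0 < r) :
    Integrable (fun s : ℝ => ((s + r)⁻¹) ^ 2) (volume.restrict (Set.Ici 0)) := by
  have h1 : IntegrableOn (fun s : ℝ => (s + r) ^ (-2 : ℝ)) (Set.Ioi 0) :=
    integrableOn_add_rpow_Ioi_of_lt (by norm_num) (by linarith)
  have h2 : IntegrableOn (fun s : ℝ => ((s + r)⁻¹) ^ 2) (Set.Ioi 0) := by
    refine h1.congr_fun (fun s hs => ?_) measurableSet_Ioi
    have hs0 : 0 < s + r := by
      have : (0 : ℝ) < s := hs
      linarith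
    simp only
    rw [Real.rpow_neg hs0.le, inv_pow]
    norm_cast
  exact (integrableOn_Ici_iff_integrableOn_Ioi).2 h2

theorem simpVol_int {c r : ℝ} (hr : 0 < r) :
    Integrable (fun t : Fin n → ℝ => (c⁻¹) ^ 2 * ∏ i, ((t i + r)⁻¹) ^ 2)
      (volume.restrict (Set.univ.pi fun _ : Fin n => Set.Ici (0 : ℝ))) := by
  rw [volume_pi, Measure.restrict_pi_pi]
  exact (Integrable.fintype_prod (f := fun (_ : Fin n) (s : ℝ) => ((s + r)⁻¹) ^ 2)
    (fun i => simpVol_one hr)).const_mul _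

theorem simp_vol {C : Set (V n)} (h : IsOC C) {p : Fin n → Fin n → ℤ}
    (hp : LinearIndependent ℝ (fun i => (toR (p i) : V n))) {c r : ℝ} (hc : 0 < c) (hr : 0 < r)
    (hlow : ∀ t : Fin n → ℝ, (∀ i, 0 ≤ t i) → (∑ i, t i • toR (p i)) ∈ core C →
      ENNReal.ofReal (c * ∏ i, (t i + r)) ≤ Phi C (∑ i, t i • toR (p i))) :
    ∫⁻ y in scone p ∩ core C, (Phi C y)⁻¹ ^ 2 ≠ ∞ := by
  have hinj : Function.Injective (simpVolP p) :=
    linearIndependent_iff_injective_fintypeLinearCombination.mp hp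
  obtain ⟨Q, hQ⟩ : ∃ Q : (Fin n → ℝ) →L[ℝ] (Fin n → ℝ), ∀ t, Q t = simpVolP p t :=
    ⟨LinearMap.toContinuousLinearMap (simpVolP p), fun t => rfl⟩
  obtain ⟨O, hO⟩ : ∃ O : Set (Fin n → ℝ), O = Set.univ.pi fun _ : Fin n => Set.Ici (0 : ℝ) :=
    ⟨_, rfl⟩
  have hOm : MeasurableSet O := by
    rw [hO]
    exact MeasurableSet.univ_pi fun _ => measurableSet_Ici
  have hOmem : ∀ t, t ∈ O ↔ ∀ i, 0 ≤ t i := by
    intro t
    rw [hO]
    exact ⟨fun ht i => ht i (Set.mem_univ i), fun ht i _ => ht i⟩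
  have hsm : MeasurableSet (O ∩ Q ⁻¹' core C) :=
    hOm.inter ((core_meas h).preimage Q.continuous.measurable)
  have himg : scone p ∩ core C = Q '' (O ∩ Q ⁻¹' core C) := by
    ext y
    constructor
    · rintro ⟨⟨t, ht, rfl⟩, hy⟩
      exact ⟨t, ⟨(hOmem t).2 ht, by rw [Set.mem_preimage, hQ, simpVolP_apply]; exact hy⟩,
        by rw [hQ, simpVolP_apply]⟩
    · rintro ⟨t, ⟨ht, hy⟩, rfl⟩
      refine ⟨⟨t, (hOmem t).1 ht, by rw [hQ, simpVolP_apply]⟩, hy⟩
  have hchange := lintegral_image_eq_lintegral_abs_det_fderiv_mul (volume : Measure (Fin n → ℝ))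
    (f := Q) (f' := fun _ => Q) hsm (fun x _ => Q.hasFDerivWithinAt)
    (fun a _ b _ hab => hinj (by rw [← hQ, ← hQ]; exact hab)) (fun y => (Phi C y)⁻¹ ^ 2)
  rw [himg, hchange]
  have hbound : ∫⁻ t in O ∩ Q ⁻¹' core C, ENNReal.ofReal |Q.det| * (Phi C (Q t))⁻¹ ^ 2 ≤
      ∫⁻ t in O, ENNReal.ofReal |Q.det| *
        ENNReal.ofReal ((c⁻¹) ^ 2 * ∏ i, ((t i + r)⁻¹) ^ 2) := by
    refine le_trans (setLIntegral_mono' hsm fun t ht => ?_)
      (lintegral_mono_set Set.inter_subset_left)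
    refine mul_le_mul_right ?_ _
    have ht0 : ∀ i, 0 ≤ t i := (hOmem t).1 ht.1
    have h1 := hlow t ht0 (by
      have := ht.2
      rwa [Set.mem_preimage, hQ, simpVolP_apply] at this)
    have hprod : 0 < ∏ i, (t i + r) := Finset.prod_pos fun i _ => by
      have := ht0 i
      linarith
    have h2 : (Phi C (Q t))⁻¹ ≤ ENNReal.ofReal ((c * ∏ i, (t i + r))⁻¹) := by
      rw [ENNReal.ofReal_inv_of_pos (by positivity), hQ, simpVolP_apply]
      exact ENNReal.inv_le_inv.2 h1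
    calc (Phi C (Q t))⁻¹ ^ 2 ≤ ENNReal.ofReal ((c * ∏ i, (t i + r))⁻¹) ^ 2 :=
          pow_le_pow_left' h2 2
      _ = ENNReal.ofReal ((c⁻¹) ^ 2 * ∏ i, ((t i + r)⁻¹) ^ 2) := by
          rw [← ENNReal.ofReal_pow (by positivity)]
          congr 1
          rw [mul_inv, mul_pow, Finset.prod_pow, Finset.prod_inv_distrib]
  refine ne_top_of_le_ne_top ?_ hbound
  rw [lintegral_const_mul' _ _ ENNReal.ofReal_ne_top]
  refine ENNReal.mul_ne_top ENNReal.ofReal_ne_top ?_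
  have hint := simpVol_int (n := n) (c := c) hr
  rw [← hO] at hint
  exact hint.lintegral_lt_top.ne

end Pool.Agent.H20.FV
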