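import Pool.Agent.H20.FV.Simp
import Pool.Agent.H20.FV.PhiLow
import Pool.Agent.H20.FV.SimpVol
import Pool.Agent.H20.FV.LemU

/-!
[H20 FV FVOL]  A covering by rational cones implies finite volume.

Let `S` be as in `Cov`, `P` the finite set of `simp_cover`, `c0 ∈ C`.  `T = ⋃_{p ∈ P} scone p ∩ core C` (measurable:
`scone_meas`, `core_meas`), contained in `core C`.  COVER: `y ∈ core C ⊆ C`: `y = act g y'`, `y' ∈ cone S`, `y' ∈ core C`
(`core_act`), `y' ∈ scone p` for some `p ∈ P`.  INTEGRAL: it is at most the sum over `p ∈ P` of the integrals over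
`scone p ∩ core C` (`lintegral_union_le` / `lintegral_biUnion_finset_le`), each finite by `simp_vol`: by `lemU` for
`Finset.univ.image p` there is `ε > 0` with `y - ε • c0 ∈ closure C` for `y ∈ scone p ∩ core C` (`scone_sub_cone`), and
`phi_low` gives `c, r`.
-/

set_option autoImplicit false

open MeasureTheory
open scoped ENNReal

namespace Pool.Agent.H20.FV

open Pool.Agent.H57.KM

variable {n : ℕ}

theorem fvol {C : Set (V n)} (h : IsAmp C) {G : Subgroup (GL (Fin n) ℤ)} (hG : Pres G C)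
    (hC : Cov C G)
    (hR : ∀ p : Fin n → ℤ, toR p ∈ closure C → toR p ∉ C →
      ∃ z : Fin n → ℤ, z ≠ 0 ∧ toR z ∈ Mori C ∧ z ⬝ᵥ p = 0) : FiniteVolume C G := by
  classical
  obtain ⟨S, hS, hcov⟩ := hC
  obtain ⟨P, hP, hPc⟩ := simp_cover h S hS
  obtain ⟨c0, hc0⟩ := h.ne
  refine ⟨⋃ p ∈ P, (scone p ∩ core C), ?_, ?_, ?_, ?_⟩
  · exact Finset.measurableSet_biUnion P fun p hp =>
      (scone_meas (hP p hp).1).measurableSet.inter (core_meas h.oc)
  · exact Set.iUnion₂_subset fun p _ => Set.inter_subset_right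
  · intro y hy
    obtain ⟨g, hg, y', hy', rfl⟩ := Set.mem_iUnion₂.1 (hcov hy.1)
    have hy2 := (core_act hG hg y').1 hy
    obtain ⟨p, hp, hpy⟩ := hPc y' hy'
    exact Set.mem_iUnion₂.2 ⟨g, hg, y', Set.mem_iUnion₂.2 ⟨p, hp, hpy, hy2⟩, rfl⟩
  · have h1 : ∫⁻ x in ⋃ p ∈ P, (scone p ∩ core C), (Phi C x)⁻¹ ^ 2 ≤
        ∑ p ∈ P, ∫⁻ x in scone p ∩ core C, (Phi C x)⁻¹ ^ 2 := by
      clear hPc hP
      induction P using Finset.induction_on with
      | empty => simp
      | insert a A ha ih =>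
        rw [Finset.sum_insert ha, Finset.set_biUnion_insert]
        exact (lintegral_union_le _ _ _).trans (add_le_add le_rfl ih)
    refine ne_top_of_le_ne_top ?_ h1
    refine ENNReal.sum_ne_top.2 fun p hp => ?_
    obtain ⟨ε, hε, hU⟩ := lemU h hR (Finset.univ.image p) (by
      intro s hs
      obtain ⟨i, _, rfl⟩ := Finset.mem_image.1 hs
      exact (hP p hp).2 i) hc0
    obtain ⟨c, hc, r, hr, hlow⟩ := phi_low h.oc (hP p hp).1 (hP p hp).2 hc0 hε
    exact simp_vol h.oc (hP p hp).1 hc hr fun t ht hcore =>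
      hlow t ht (hU _ (scone_sub_cone p ⟨t, ht, rfl⟩) hcore)

end Pool.Agent.H20.FV
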