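import Pool.Agent.H20.FV.Phi

/-!
[H20 FV MINK]  Strongly indecomposable classes have `Phi ≤ 2^n` (Minkowski's convex body theorem).

Suppose `2^n < Phi C (toR v) = volume (body C (toR v))`.  The body is symmetric (clear) and convex.  The lattice
`Submodule.span ℤ (Set.range (Pi.basisFun ℝ (Fin n)))` has the fundamental domain
`ZSpan.fundamentalDomain (Pi.basisFun ℝ (Fin n))` (the unit box, volume `1`), `finrank = n`, so by
`MeasureTheory.exists_ne_zero_mem_lattice_of_measure_mul_two_pow_lt_measure` the body contains a nonzero integral vector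
`toR x`: `toR (v + x)`, `toR (v - x) ∈ C`, contradiction to `v ∈ SInd C`.
-/

set_option autoImplicit false

open MeasureTheory
open scoped ENNReal

namespace Pool.Agent.H20.FV

open Pool.Agent.H57.KM

variable {n : ℕ}

theorem mink {C : Set (V n)} (h : IsOC C) {v : Fin n → ℤ} (hv : v ∈ SInd C) :
    Phi C (toR v) ≤ 2 ^ n := by
  classical
  by_contra hcon
  push Not at hcon
  have fund := ZSpan.isAddFundamentalDomain' (Pi.basisFun ℝ (Fin n)) (volume : Measure (V n))
  have hcount : Countable (Submodule.span ℤ (Set.range (Pi.basisFun ℝ (Fin n)))).toAddSubgroup :=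
    inferInstanceAs (Countable (Submodule.span ℤ (Set.range (Pi.basisFun ℝ (Fin n)))))
  have hvol : volume (ZSpan.fundamentalDomain (Pi.basisFun ℝ (Fin n))) = 1 := by
    rw [ZSpan.volume_fundamentalDomain]
    have h1 : Matrix.of (Pi.basisFun ℝ (Fin n)) = (1 : Matrix (Fin n) (Fin n) ℝ) := by
      ext i j
      simp [Matrix.one_apply, Pi.single_apply, eq_comm]
    rw [h1]
    simp
  have hsym : ∀ x ∈ body C (toR v), -x ∈ body C (toR v) := by
    rintro x ⟨h1, h2⟩
    refine ⟨?_, ?_⟩
    · rwa [← sub_eq_add_neg]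
    · rwa [sub_neg_eq_add]
  have hconv : Convex ℝ (body C (toR v)) := by
    rintro x ⟨hx1, hx2⟩ y ⟨hy1, hy2⟩ a b ha hb hab
    have h1 := h.convex hx1 hy1 ha hb hab
    have h2 := h.convex hx2 hy2 ha hb hab
    have e : toR v = a • toR v + b • toR v := by rw [← add_smul, hab, one_smul]
    refine ⟨?_, ?_⟩
    · have e1 : toR v + (a • x + b • y) = a • (toR v + x) + b • (toR v + y) := by
        conv_lhs => rw [e]
        rw [smul_add, smul_add]
        abel
      rw [e1]
      exact h1
    · have e1 : toR v - (a • x + b • y) = a • (toR v - x) + b • (toR v - y) := by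
        conv_lhs => rw [e]
        rw [smul_sub, smul_sub]
        abel
      rw [e1]
      exact h2
  obtain ⟨x, hx0, hx⟩ := exists_ne_zero_mem_lattice_of_measure_mul_two_pow_lt_measure fund hsym
    hconv (by
      rw [hvol, one_mul, Module.finrank_fin_fun]
      exact hcon)
  have hx2 := x.2
  rw [Submodule.mem_toAddSubgroup, Module.Basis.mem_span_iff_repr_mem] at hx2
  choose w hw using hx2
  have hxw : (x : V n) = toR w := by
    funext i
    have h1 := hw i
    simp only [Pi.basisFun_repr, eq_intCast] at h1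
    exact h1.symm
  have hw0 : w ≠ 0 := by
    intro h0
    apply hx0
    apply Subtype.ext
    rw [hxw, h0, toR_zero]
    rfl
  rw [hxw] at hx
  obtain ⟨h1, h2⟩ := hx
  rw [← toR_add] at h1
  rw [← toR_sub] at h2
  exact hw0 (hv.2 w h1 h2)

end Pool.Agent.H20.FV
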