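import Pool.Agent.H20.FV.StabA

/-!
[H20 FV STABB]  Stabilizers of points of `C` are finite, of bounded order.

Let `x ∈ C`, `H = {g ∈ G | act g x = x}` (a subgroup).  `B = {y | x + y ∈ closure C ∧ x - y ∈ closure C}` is bounded (otherwise
a limit point `u` of `y_k / ‖y_k‖`, `‖y_k‖ → ∞`, has `u, -u ∈ closure C`, `‖u‖ = 1`, contradiction to `pointed`; this
argument is also in `Phi` (5)) and a neighbourhood of `0`.  So there is `N : ℕ`, `N > 0`, such that all unit vectors
`e_i` are in `N • B`, that is `N x ± e_i ∈ closure C`.  For `g ∈ H`: `N x ± act g e_i = act g (N x ± e_i) ∈ closure C`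
(`Pres.closure`), so `act g e_i ∈ N • B`, a bounded set.  `act g e_i` is integral (`act_toR` with `e_i = toR (Pi.single i 1)`),
so it is one of finitely many vectors, and `g` is determined by the `act g e_i` (columns of `g`; `act_inj` or directly).  So
`H` is finite.  `stab`: `m` of `stabA`; `Set.encard` of the carrier of a finite subgroup is its `Nat.card`
(`Set.Finite.cast_ncard_eq`, `Set.Nat.card_coe_set_eq`).
-/

set_option autoImplicit false

open MeasureTheory
open scoped ENNReal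

namespace Pool.Agent.H20.FV

open Pool.Agent.H57.KM

variable {n : ℕ}

private theorem stabB_bdd {C : Set (V n)} (h : IsAmp C) (x : V n) :
    ∃ R : ℝ, ∀ y : V n, x + y ∈ closure C → x - y ∈ closure C → ‖y‖ ≤ R := by
  by_contra hcon
  push Not at hcon
  choose y h1 h2 h3 using fun k : ℕ => hcon ((k : ℝ) + 1)
  have hpos : ∀ k, 0 < ‖y k‖ := fun k => lt_trans (by positivity) (h3 k)
  obtain ⟨u, hudef⟩ : ∃ u : ℕ → V n, ∀ k, u k = ‖y k‖⁻¹ • y k := ⟨_, fun k => rfl⟩
  have hu : ∀ k, u k ∈ Metric.sphere (0 : V n) 1 := by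
    intro k
    rw [hudef, mem_sphere_zero_iff_norm, norm_smul, norm_inv, norm_norm,
      inv_mul_cancel₀ (hpos k).ne']
  obtain ⟨v, hv, φ, hφ, hlim⟩ := (isCompact_sphere (0 : V n) 1).tendsto_subseq hu
  have ht : Filter.Tendsto (fun k => ‖y (φ k)‖⁻¹) Filter.atTop (nhds 0) := by
    refine squeeze_zero (fun k => inv_nonneg.2 (norm_nonneg _)) (fun k => ?_)
      (tendsto_one_div_add_atTop_nhds_zero_nat (𝕜 := ℝ))
    rw [one_div]
    have hk : (k : ℝ) + 1 ≤ ‖y (φ k)‖ := by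
      have h5 : (k : ℝ) ≤ (φ k : ℝ) := by exact_mod_cast hφ.id_le k
      have h6 := h3 (φ k)
      linarith
    exact inv_anti₀ (by positivity) hk
  have hv1 : v ∈ closure C := by
    have h4 : Filter.Tendsto (fun k => ‖y (φ k)‖⁻¹ • x + u (φ k)) Filter.atTop
        (nhds ((0 : ℝ) • x + v)) := (ht.smul_const x).add hlim
    rw [zero_smul, zero_add] at h4
    refine isClosed_closure.mem_of_tendsto h4 (Filter.Eventually.of_forall fun k => ?_)
    have := h.closure_smul (‖y (φ k)‖⁻¹) (inv_nonneg.2 (norm_nonneg _)) _ (h1 (φ k))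
    rw [smul_add] at this
    rw [hudef]
    exact this
  have hv2 : -v ∈ closure C := by
    have h4 : Filter.Tendsto (fun k => ‖y (φ k)‖⁻¹ • x - u (φ k)) Filter.atTop
        (nhds ((0 : ℝ) • x - v)) := (ht.smul_const x).sub hlim
    rw [zero_smul, zero_sub] at h4
    refine isClosed_closure.mem_of_tendsto h4 (Filter.Eventually.of_forall fun k => ?_)
    have := h.closure_smul (‖y (φ k)‖⁻¹) (inv_nonneg.2 (norm_nonneg _)) _ (h2 (φ k))
    rw [smul_sub] at this
    rw [hudef]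
    exact this
  have hv0 := h.pointed v hv1 hv2
  rw [hv0, mem_sphere_zero_iff_norm, norm_zero] at hv
  exact zero_ne_one hv

private theorem stabB_mult {C : Set (V n)} (h : IsAmp C) {x : V n} (hx : x ∈ C) (e : V n) :
    ∃ c : ℝ, c • x + e ∈ closure C ∧ c • x - e ∈ closure C := by
  obtain ⟨a, ha, h1⟩ := h.oc.exists_sub hx e
  obtain ⟨b, hb, h2⟩ := h.oc.exists_sub hx (-e)
  have h1' := h.smul a⁻¹ (inv_pos.2 ha) _ h1
  have h2' := h.smul b⁻¹ (inv_pos.2 hb) _ h2
  rw [smul_sub, smul_smul, inv_mul_cancel₀ ha.ne', one_smul] at h1'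
  rw [smul_sub, smul_smul, inv_mul_cancel₀ hb.ne', one_smul, sub_neg_eq_add] at h2'
  have h3 := h.smul a⁻¹ (inv_pos.2 ha) _ hx
  have h4 := h.smul b⁻¹ (inv_pos.2 hb) _ hx
  refine ⟨a⁻¹ + b⁻¹, subset_closure ?_, subset_closure ?_⟩
  · have h5 := h.add _ h3 _ h2'
    rwa [← add_assoc, ← add_smul] at h5
  · have h5 := h.add _ h4 _ h1'
    rwa [← add_sub_assoc, ← add_smul, add_comm b⁻¹] at h5

theorem stabB {C : Set (V n)} (h : IsAmp C) {G : Subgroup (GL (Fin n) ℤ)} (hG : Pres G C)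
    {x : V n} (hx : x ∈ C) : {g | g ∈ G ∧ act g x = x}.Finite := by
  have h1 : ∀ i : Fin n, ∃ B : ℤ, ∀ g ∈ G, act g x = x → ∀ j,
      ((g : Matrix (Fin n) (Fin n) ℤ) j i) ∈ Set.Icc (-B) B := by
    intro i
    obtain ⟨c, hc1, hc2⟩ := stabB_mult h hx (toR (Pi.single i 1))
    obtain ⟨R, hR⟩ := stabB_bdd h (c • x)
    refine ⟨⌈R⌉, fun g hg hgx j => ?_⟩
    have h2 := hG.closure g hg _ hc1
    have h3 := hG.closure g hg _ hc2
    rw [act_add, act_smul, hgx] at h2
    rw [act_sub, act_smul, hgx] at h3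
    have h4 := hR _ h2 h3
    have h5 := (norm_le_pi_norm (act g (toR (Pi.single i 1))) j).trans h4
    rw [act_toR, Matrix.mulVec_single_one] at h5
    simp only [toR, Matrix.col_apply] at h5
    have h6 : |(((g : Matrix (Fin n) (Fin n) ℤ) j i : ℤ) : ℝ)| ≤ ⌈R⌉ := by
      rw [← Real.norm_eq_abs]
      exact h5.trans (Int.le_ceil R)
    have h7 : |(g : Matrix (Fin n) (Fin n) ℤ) j i| ≤ ⌈R⌉ := by exact_mod_cast h6
    exact abs_le.1 h7
  choose B hB using h1
  have hfin : {M : Matrix (Fin n) (Fin n) ℤ | ∀ j i, M j i ∈ Set.Icc (-B i) (B i)}.Finite :=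
    Set.Finite.pi' fun j => Set.Finite.pi' fun i => Set.finite_Icc (-B i) (B i)
  refine (hfin.preimage (f := fun g : GL (Fin n) ℤ => (g : Matrix (Fin n) (Fin n) ℤ))
    (Units.val_injective.injOn)).subset ?_
  rintro g ⟨hg, hgx⟩ j i
  exact hB i g hg hgx j

theorem stab (n : ℕ) : ∃ m : ℕ, ∀ (C : Set (V n)) (G : Subgroup (GL (Fin n) ℤ)), IsAmp C → Pres G C →
    ∀ x ∈ C, {g | g ∈ G ∧ act g x = x}.encard ≤ m := by
  obtain ⟨m, hm⟩ := stabA n
  refine ⟨m, fun C G h hG x hx => ?_⟩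
  let H : Subgroup (GL (Fin n) ℤ) :=
    { carrier := {g | g ∈ G ∧ act g x = x}
      mul_mem' := by
        rintro a b ⟨ha, hax⟩ ⟨hb, hbx⟩
        exact ⟨G.mul_mem ha hb, by rw [act_mul, hbx, hax]⟩
      one_mem' := ⟨G.one_mem, act_one x⟩
      inv_mem' := by
        rintro a ⟨ha, hax⟩
        refine ⟨G.inv_mem ha, ?_⟩
        have h1 := act_inv_act a x
        rw [hax] at h1
        exact h1 }
  have hfin : {g | g ∈ G ∧ act g x = x}.Finite := stabB h hG hx
  have hH : Finite H := hfin.to_subtype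
  have h2 := hm H hH
  rw [← hfin.cast_ncard_eq]
  have h3 : {g | g ∈ G ∧ act g x = x}.ncard = Nat.card H := rfl
  rw [h3]
  exact_mod_cast h2

end Pool.Agent.H20.FV
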