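import Pool.Agent.H20.FV.Pack
import Pool.Agent.H20.FV.StabB
import Pool.Agent.H20.FV.Mink

/-!
[H20 FV HILB]  Finite Hilbert covolume implies that the strongly indecomposable classes form finitely many orbits.

`n = 0` is trivial (`Fin 0 → ℤ` has one element).  Let `n ≥ 1`; then `0 ∉ C` (otherwise `C` is everything, not pointed).
For `v ∈ SInd C` let `F = (Phi C (toR v)).toReal > 0` (`phi_pos`, `phi_lt_top`), `s_v = (4/3) * F^(-1/n)`, so that
`((3/4) s_v)^n F = 1`.  Use `pack` with `I = SInd C`,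
`E v = {x | ∃ y ∈ body C (toR v), x = s_v • (toR v + (1/4) • y)}`, `w = 1`, `N = 23^n`, `m` from `stab`, `c = (1/3)^n`.
ORDER: `a < b` means `b - a ∈ C`.  For `x ∈ E v`: `(3/4) s_v v < x < (5/4) s_v v`, so
`1 = Phi ((3/4) s_v v) ≤ Phi x ≤ Phi ((5/4) s_v v) = (5/3)^n ≤ 2^n` (`phi_mono`, `phi_smul`): this gives `hcov`.
`volume (E v) = s_v^n 4^(-n) F = 3^(-n)`.  `hEg`: `Phi` and so `s_v` are invariant.
`hN`: let `x` be given, `J = {v ∈ SInd C | x ∈ E v}`, `v, v' ∈ J`.  `(3/4) s_v v < x < (5/4) s_v' v'`, so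
`v < (5/3) (s_v' / s_v) v'`.  If `s_v' / s_v < 3/5` then `v < τ v'` with `τ < 1`, so `v' - v ∈ C`, `v' + v ∈ C`, and
`v' ∈ SInd C` gives `v = 0`, contradiction (`0 ∉ C`).  So `3/5 ≤ s_v' / s_v ≤ 5/3` (symmetry), and `v' < (25/9) v` for all
`v, v' ∈ J`.  The sets `B_v = {toR v + (1/4) y : y ∈ body C (toR v)}`, `v ∈ J` (indeed for all `v ∈ SInd C`) are pairwise
disjoint: if `v + y/4 = v' + y'/4` then `(3/4) v' < (5/4) v`, `v' < (5/3) v`,
`v ± (v' - v) = v ± (y - y')/4 > v - v/4 - (5/12) v > 0`, so `v' = v`.  Fix `v_0 ∈ J`.  For `v ∈ J`: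
`0 < points of B_v < (5/4) v < (5/4)(25/9) v_0 < 4 v_0`, so `B_v ⊆ {x : 0 < x < 4 v_0} = 2 v_0 + body C (2 v_0)`, of
volume `2^n Phi C (toR v_0)`, and `volume B_v = 4^(-n) Phi C (toR v) ≥ 4^(-n) (9/25)^n Phi C (toR v_0)` (as
`v_0 < (25/9) v`).  So every finite subset of `J` has at most `2^n 4^n (25/9)^n ≤ 23^n` elements.
-/

set_option autoImplicit false

open MeasureTheory
open scoped ENNReal

namespace Pool.Agent.H20.FV

open Pool.Agent.H57.KM

variable {n : ℕ}

open scoped Pointwise in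
theorem hilb_vol (a : V n) {r : ℝ} (hr : 0 < r) (S : Set (V n)) :
    volume ((fun y => a + r • y) '' S) = ENNReal.ofReal r ^ n * volume S := by
  have h1 : (fun y => a + r • y) '' S = a +ᵥ (r • S) := by
    ext x
    simp only [Set.mem_image, Set.mem_vadd_set, Set.mem_smul_set]
    constructor
    · rintro ⟨y, hy, rfl⟩
      exact ⟨r • y, ⟨y, hy, rfl⟩, rfl⟩
    · rintro ⟨_, ⟨y, hy, rfl⟩, rfl⟩
      exact ⟨y, hy, rfl⟩
  rw [h1, measure_vadd, Measure.addHaar_smul, Module.finrank_fin_fun, abs_of_pos (by positivity),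
    ENNReal.ofReal_pow hr.le]

/-- the scaling factor -/
noncomputable def hilbS (C : Set (V n)) (v : Fin n → ℤ) : ℝ :=
  (4 / 3) * (Phi C (toR v)).toReal ^ (-(1 : ℝ) / n)

/-- the sets of the packing -/
noncomputable def hilbE (C : Set (V n)) (v : Fin n → ℤ) : Set (V n) :=
  {x | ∃ y ∈ body C (toR v), x = hilbS C v • (toR v + (1 / 4 : ℝ) • y)}

theorem hilb_phi {C : Set (V n)} (h : IsAmp C) {v : Fin n → ℤ} (hv : toR v ∈ C) :
    0 < (Phi C (toR v)).toReal ∧ Phi C (toR v) = ENNReal.ofReal (Phi C (toR v)).toReal := by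
  have h1 := phi_pos h.oc hv
  have h2 := phi_lt_top h (toR v)
  exact ⟨ENNReal.toReal_pos h1.ne' h2.ne, (ENNReal.ofReal_toReal h2.ne).symm⟩

theorem hilbS_pos {C : Set (V n)} (h : IsAmp C) {v : Fin n → ℤ} (hv : toR v ∈ C) : 0 < hilbS C v := by
  unfold hilbS
  have := (hilb_phi h hv).1
  positivity

theorem hilbS_pow {C : Set (V n)} (h : IsAmp C) (hn : 0 < n) {v : Fin n → ℤ} (hv : toR v ∈ C)
    {c : ℝ} (hc : 0 < c) : Phi C ((c * hilbS C v) • toR v) = ENNReal.ofReal ((4 / 3 * c) ^ n) := by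
  have hs := hilbS_pos h hv
  obtain ⟨hF, hF2⟩ := hilb_phi h hv
  rw [phi_smul h.oc (mul_pos hc hs), hF2, ← ENNReal.ofReal_pow (mul_pos hc hs).le,
    ← ENNReal.ofReal_mul (by positivity)]
  congr 1
  have hn' : (n : ℝ) ≠ 0 := by exact_mod_cast hn.ne'
  have h1 : ((Phi C (toR v)).toReal ^ (-(1 : ℝ) / n)) ^ n = (Phi C (toR v)).toReal⁻¹ := by
    rw [← Real.rpow_natCast, ← Real.rpow_mul hF.le, div_mul_cancel₀ _ hn', Real.rpow_neg_one]
  unfold hilbS
  have h2 : (c * (4 / 3 * (Phi C (toR v)).toReal ^ (-(1 : ℝ) / n))) ^ n * (Phi C (toR v)).toReal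
      = (4 / 3 * c) ^ n * (((Phi C (toR v)).toReal ^ (-(1 : ℝ) / n)) ^ n * (Phi C (toR v)).toReal) := by
    rw [mul_pow, mul_pow, mul_pow]
    ring
  rw [h2, h1, inv_mul_cancel₀ hF.ne', mul_one]

theorem hilbE_eq {C : Set (V n)} (v : Fin n → ℤ) :
    hilbE C v = (fun y => hilbS C v • toR v + (hilbS C v * (1 / 4)) • y) '' body C (toR v) := by
  ext x
  simp only [hilbE, Set.mem_ofPred_eq, Set.mem_image]
  constructor
  · rintro ⟨y, hy, rfl⟩
    exact ⟨y, hy, by rw [smul_add, smul_smul]⟩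
  · rintro ⟨y, hy, rfl⟩
    exact ⟨y, hy, by rw [smul_add, smul_smul]⟩

theorem hilbE_vol {C : Set (V n)} (h : IsAmp C) (hn : 0 < n) {v : Fin n → ℤ} (hv : toR v ∈ C) :
    volume (hilbE C v) = ENNReal.ofReal ((1 / 3) ^ n) := by
  have hs := hilbS_pos h hv
  rw [hilbE_eq, hilb_vol _ (by positivity)]
  have h1 := hilbS_pow h hn hv (c := 1 / 4) (by norm_num)
  rw [phi_smul h.oc (by positivity), mul_comm (1 / 4 : ℝ)] at h1
  change _ * Phi C (toR v) = _
  rw [h1]
  norm_num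

theorem hilbE_open {C : Set (V n)} (h : IsAmp C) {v : Fin n → ℤ} (hv : toR v ∈ C) :
    IsOpen (hilbE C v) := by
  have hs := hilbS_pos h hv
  rw [hilbE_eq]
  have h1 : (fun y : V n => hilbS C v • toR v + (hilbS C v * (1 / 4)) • y) =
      (Homeomorph.addLeft (hilbS C v • toR v)) ∘
        (Homeomorph.smulOfNeZero (hilbS C v * (1 / 4)) (by positivity)) := by
    funext y
    rfl
  rw [h1, Set.image_comp]
  exact (Homeomorph.isOpenMap _) _ ((Homeomorph.isOpenMap _) _ (isOpen_body h.oc _))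

theorem hilbE_order {C : Set (V n)} (h : IsAmp C) {v : Fin n → ℤ} (hv : toR v ∈ C) {x : V n}
    (hx : x ∈ hilbE C v) : x - (3 / 4 * hilbS C v) • toR v ∈ C ∧ (5 / 4 * hilbS C v) • toR v - x ∈ C := by
  have hs := hilbS_pos h hv
  obtain ⟨y, ⟨hy1, hy2⟩, rfl⟩ := hx
  constructor
  · have h1 : hilbS C v • (toR v + (1 / 4 : ℝ) • y) - (3 / 4 * hilbS C v) • toR v
        = (hilbS C v * (1 / 4)) • (toR v + y) := by
      module
    rw [h1]
    exact h.smul _ (by positivity) _ hy1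
  · have h1 : (5 / 4 * hilbS C v) • toR v - hilbS C v • (toR v + (1 / 4 : ℝ) • y)
        = (hilbS C v * (1 / 4)) • (toR v - y) := by
      module
    rw [h1]
    exact h.smul _ (by positivity) _ hy2

theorem hilb_zero {C : Set (V n)} (h : IsAmp C) (hn : 0 < n) : (0 : V n) ∉ C := by
  intro h0
  set e : V n := fun _ => 1 with he
  have hne : e ≠ 0 := fun h1 => by
    have := congrFun h1 ⟨0, hn⟩
    simp [he] at this
  obtain ⟨ε, hε, h1⟩ := h.oc.exists_sub h0 e
  obtain ⟨δ, hδ, h2⟩ := h.oc.exists_sub h0 (-e)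
  have h3 : (ε * δ) • e ∈ C := by
    have := h.smul ε hε _ h2
    have e1 : ε • (0 - δ • -e) = (ε * δ) • e := by module
    rwa [e1] at this
  have h4 : -((ε * δ) • e) ∈ C := by
    have := h.smul δ hδ _ h1
    have e1 : δ • (0 - ε • e) = -((ε * δ) • e) := by module
    rwa [e1] at this
  have h5 := h.pointed _ (subset_closure h3) (subset_closure h4)
  rcases smul_eq_zero.1 h5 with h6 | h6
  · exact absurd h6 (mul_pos hε hδ).ne'
  · exact hne h6

/-- comparison of two members of the packing containing the same point -/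
theorem hilb_cmp {C : Set (V n)} (h : IsAmp C) (hn : 0 < n) {v v' : Fin n → ℤ} (hv : v ∈ SInd C)
    (hv' : v' ∈ SInd C) {x : V n} (hx : x ∈ hilbE C v) (hx' : x ∈ hilbE C v') :
    3 / 5 ≤ hilbS C v' / hilbS C v := by
  by_contra hcon
  push Not at hcon
  have hs := hilbS_pos h hv.1
  have hs' := hilbS_pos h hv'.1
  have h1 := (hilbE_order h hv.1 hx).1
  have h2 := (hilbE_order h hv'.1 hx').2
  have h3 := h.add _ h1 _ h2
  set τ : ℝ := 5 / 3 * (hilbS C v' / hilbS C v) with hτ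
  have hτ0 : 0 < τ := by positivity
  have hτ1 : τ < 1 := by
    rw [hτ]; linarith
  have h4 : τ • toR v' - toR v ∈ C := by
    have h5 := h.smul (4 / 3 / hilbS C v) (by positivity) _ h3
    have h6 : (4 / 3 / hilbS C v) • (x - (3 / 4 * hilbS C v) • toR v + ((5 / 4 * hilbS C v') • toR v' - x))
        = τ • toR v' - toR v := by
      have e1 : x - (3 / 4 * hilbS C v) • toR v + ((5 / 4 * hilbS C v') • toR v' - x)
          = (5 / 4 * hilbS C v') • toR v' - (3 / 4 * hilbS C v) • toR v := by abel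
      rw [e1, smul_sub, smul_smul, smul_smul]
      congr 1
      · congr 1
        rw [hτ]
        field_simp
      · have e2 : 4 / 3 / hilbS C v * (3 / 4 * hilbS C v) = 1 := by
          field_simp
        rw [e2, one_smul]
    rwa [h6] at h5
  have h5 : toR (v' - v) ∈ C := by
    have h6 := h.add _ h4 _ (h.smul (1 - τ) (by linarith) _ hv'.1)
    have h7 : τ • toR v' - toR v + (1 - τ) • toR v' = toR (v' - v) := by
      rw [toR_sub]
      module
    rwa [h7] at h6
  have h6 : toR (v' + v) ∈ C := by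
    rw [toR_add]
    exact h.add _ hv'.1 _ hv.1
  have h7 := hv'.2 v h6 h5
  rw [h7] at hv
  have h8 := hv.1
  rw [toR_zero] at h8
  exact hilb_zero h hn h8

theorem hilb_le {C : Set (V n)} (h : IsAmp C) (hn : 0 < n) {v v' : Fin n → ℤ} (hv : v ∈ SInd C)
    (hv' : v' ∈ SInd C) {x : V n} (hx : x ∈ hilbE C v) (hx' : x ∈ hilbE C v') :
    (25 / 9 : ℝ) • toR v - toR v' ∈ C := by
  have hs := hilbS_pos h hv.1
  have hs' := hilbS_pos h hv'.1
  have hc := hilb_cmp h hn hv hv' hx hx'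
  have h1 := (hilbE_order h hv'.1 hx').1
  have h2 := (hilbE_order h hv.1 hx).2
  have h3 := h.add _ h1 _ h2
  set τ : ℝ := 5 / 3 * (hilbS C v / hilbS C v') with hτ
  have hτ1 : τ ≤ 25 / 9 := by
    have e1 : hilbS C v / hilbS C v' ≤ 5 / 3 := by
      rw [div_le_iff₀ hs']
      rw [le_div_iff₀ hs] at hc
      linarith
    rw [hτ]; linarith
  have h4 : τ • toR v - toR v' ∈ C := by
    have h5 := h.smul (4 / 3 / hilbS C v') (by positivity) _ h3
    have h6 : (4 / 3 / hilbS C v') • (x - (3 / 4 * hilbS C v') • toR v' + ((5 / 4 * hilbS C v) • toR v - x))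
        = τ • toR v - toR v' := by
      have e1 : x - (3 / 4 * hilbS C v') • toR v' + ((5 / 4 * hilbS C v) • toR v - x)
          = (5 / 4 * hilbS C v) • toR v - (3 / 4 * hilbS C v') • toR v' := by abel
      rw [e1, smul_sub, smul_smul, smul_smul]
      congr 1
      · congr 1
        rw [hτ]
        field_simp
      · have e2 : 4 / 3 / hilbS C v' * (3 / 4 * hilbS C v') = 1 := by
          field_simp
        rw [e2, one_smul]
    rwa [h6] at h5
  have h5 : (25 / 9 : ℝ) • toR v - toR v' = (25 / 9 - τ) • toR v + (τ • toR v - toR v') := by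
    module
  rw [h5]
  exact h.oc.add_mem (h.oc.closure_smul (by linarith) (subset_closure hv.1)) h4

/-- the unscaled sets are disjoint -/
theorem hilb_disj {C : Set (V n)} (h : IsAmp C) {v v' : Fin n → ℤ} (hv : v ∈ SInd C)
    {y y' : V n} (hy : y ∈ body C (toR v)) (hy' : y' ∈ body C (toR v'))
    (heq : toR v + (1 / 4 : ℝ) • y = toR v' + (1 / 4 : ℝ) • y') : v = v' := by
  obtain ⟨h1, h2⟩ := hy
  obtain ⟨h3, h4⟩ := hy'
  -- v' ≤ (5/3) v
  have key : (5 / 3 : ℝ) • toR v - toR v' ∈ C := by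
    have e1 : (5 / 3 : ℝ) • toR v - toR v'
        = (1 / 3 : ℝ) • (toR v - y) + (1 / 3 : ℝ) • (toR v' + y') := by
      have e2 : y = (4 : ℝ) • (toR v' + (1 / 4 : ℝ) • y' - toR v) := by
        rw [← heq]
        module
      rw [e2]
      module
    rw [e1]
    exact h.add _ (h.smul _ (by norm_num) _ h2) _ (h.smul _ (by norm_num) _ h3)
  have e3 : toR v' - toR v = (1 / 4 : ℝ) • (y - y') := by
    have e4 : toR v' = toR v + (1 / 4 : ℝ) • y - (1 / 4 : ℝ) • y' := by
      rw [heq]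
      abel
    rw [e4]
    module
  have h5 : (5 / 3 : ℝ) • toR v - y' ∈ C := by
    have e1 : (5 / 3 : ℝ) • toR v - y' = ((5 / 3 : ℝ) • toR v - toR v') + (toR v' - y') := by abel
    rw [e1]
    exact h.add _ key _ h4
  have h6 : (5 / 3 : ℝ) • toR v + y' ∈ C := by
    have e1 : (5 / 3 : ℝ) • toR v + y' = ((5 / 3 : ℝ) • toR v - toR v') + (toR v' + y') := by abel
    rw [e1]
    exact h.add _ key _ h3
  have h7 : toR (v + (v' - v)) ∈ C := by
    have e1 : toR (v + (v' - v)) = (1 / 3 : ℝ) • toR v + ((1 / 4 : ℝ) • (toR v + y)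
        + (1 / 4 : ℝ) • ((5 / 3 : ℝ) • toR v - y')) := by
      rw [toR_add, toR_sub, e3]
      module
    rw [e1]
    exact h.add _ (h.smul _ (by norm_num) _ hv.1) _ (h.add _ (h.smul _ (by norm_num) _ h1) _
      (h.smul _ (by norm_num) _ h5))
  have h8 : toR (v - (v' - v)) ∈ C := by
    have e1 : toR (v - (v' - v)) = (1 / 3 : ℝ) • toR v + ((1 / 4 : ℝ) • (toR v - y)
        + (1 / 4 : ℝ) • ((5 / 3 : ℝ) • toR v + y')) := by
      rw [toR_sub, toR_sub, e3]
      module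
    rw [e1]
    exact h.add _ (h.smul _ (by norm_num) _ hv.1) _ (h.add _ (h.smul _ (by norm_num) _ h2) _
      (h.smul _ (by norm_num) _ h6))
  have h9 := hv.2 _ h7 h8
  exact (sub_eq_zero.1 h9).symm

theorem hilb_mult {C : Set (V n)} (h : IsAmp C) (hn : 0 < n) (x : V n) :
    {v | v ∈ SInd C ∧ x ∈ hilbE C v}.encard ≤ (23 ^ n : ℕ) := by
  classical
  by_contra hcon
  rw [not_le] at hcon
  have h1 : ((23 ^ n + 1 : ℕ) : ℕ∞) ≤ {v | v ∈ SInd C ∧ x ∈ hilbE C v}.encard := by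
    have := Order.add_one_le_of_lt hcon
    exact_mod_cast this
  obtain ⟨t, ht, htc⟩ := Set.exists_subset_encard_eq h1
  have htf : t.Finite := Set.finite_of_encard_eq_coe htc
  obtain ⟨J, rfl⟩ : ∃ J : Finset (Fin n → ℤ), (J : Set (Fin n → ℤ)) = t :=
    ⟨htf.toFinset, htf.coe_toFinset⟩
  rw [Set.encard_coe_eq_coe_finsetCard] at htc
  have hcard : J.card = 23 ^ n + 1 := by exact_mod_cast htc
  have hJ : J.Nonempty := by
    rw [← Finset.card_pos, hcard]
    positivity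
  obtain ⟨v0, hv0⟩ := hJ
  have hv0' := ht hv0
  -- the sets
  set B : (Fin n → ℤ) → Set (V n) := fun v => (fun y => toR v + (1 / 4 : ℝ) • y) '' body C (toR v) with hB
  have hdisj : Set.PairwiseDisjoint (J : Set (Fin n → ℤ)) B := by
    intro v hv v' hv' hne
    rw [Function.onFun, Set.disjoint_left]
    rintro _ ⟨y, hy, rfl⟩ ⟨y', hy', heq⟩
    exact hne (hilb_disj h (ht hv).1 hy hy' heq.symm)
  have hmeas : ∀ v ∈ J, MeasurableSet (B v) := by
    intro v _
    have h1 : (fun y : V n => toR v + (1 / 4 : ℝ) • y) =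
        (Homeomorph.addLeft (toR v)) ∘ (Homeomorph.smulOfNeZero (1 / 4 : ℝ) (by norm_num)) := by
      funext y
      rfl
    rw [hB]
    dsimp only
    rw [h1, Set.image_comp]
    exact ((Homeomorph.isOpenMap _) _ ((Homeomorph.isOpenMap _) _ (isOpen_body h.oc _))).measurableSet
  have hsub : ∀ v ∈ J, B v ⊆ (fun y => (2 : ℝ) • toR v0 + (1 : ℝ) • y) '' body C ((2 : ℝ) • toR v0) := by
    rintro v hv _ ⟨y, ⟨hy1, hy2⟩, rfl⟩
    refine ⟨toR v + (1 / 4 : ℝ) • y - (2 : ℝ) • toR v0, ⟨?_, ?_⟩, ?_⟩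
    · have e1 : (2 : ℝ) • toR v0 + (toR v + (1 / 4 : ℝ) • y - (2 : ℝ) • toR v0)
          = (3 / 4 : ℝ) • toR v + (1 / 4 : ℝ) • (toR v + y) := by
        module
      rw [e1]
      exact h.add _ (h.smul _ (by norm_num) _ (ht hv).1.1) _ (h.smul _ (by norm_num) _ hy1)
    · have hle := hilb_le h hn hv0'.1 (ht hv).1 hv0'.2 (ht hv).2
      have e1 : (2 : ℝ) • toR v0 - (toR v + (1 / 4 : ℝ) • y - (2 : ℝ) • toR v0)
          = ((5 / 4 : ℝ) • ((25 / 9 : ℝ) • toR v0 - toR v) + (1 / 4 : ℝ) • (toR v - y))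
            + (19 / 36 : ℝ) • toR v0 := by
        module
      rw [e1]
      exact h.add _ (h.add _ (h.smul _ (by norm_num) _ hle) _ (h.smul _ (by norm_num) _ hy2)) _
        (h.smul _ (by norm_num) _ hv0'.1.1)
    · dsimp only
      module
  have hsum : ∑ v ∈ J, volume (B v)
      ≤ volume ((fun y => (2 : ℝ) • toR v0 + (1 : ℝ) • y) '' body C ((2 : ℝ) • toR v0)) := by
    rw [← measure_biUnion_finset hdisj hmeas]
    exact measure_mono (Set.iUnion₂_subset hsub)
  rw [hilb_vol _ one_pos, ENNReal.ofReal_one, one_pow, one_mul] at hsum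
  change _ ≤ Phi C ((2 : ℝ) • toR v0) at hsum
  rw [phi_smul h.oc two_pos] at hsum
  obtain ⟨hF, hF2⟩ := hilb_phi h hv0'.1.1
  have hlow : ∀ v ∈ J, ENNReal.ofReal ((9 / 100) ^ n * (Phi C (toR v0)).toReal) ≤ volume (B v) := by
    intro v hv
    rw [hB]
    dsimp only
    rw [hilb_vol _ (by norm_num)]
    change _ ≤ _ * Phi C (toR v)
    have hle := hilb_le h hn (ht hv).1 hv0'.1 (ht hv).2 hv0'.2
    have h2 : Phi C (toR v0) ≤ Phi C ((25 / 9 : ℝ) • toR v) := phi_mono h.oc (subset_closure hle)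
    rw [phi_smul h.oc (by norm_num)] at h2
    have h3 : ENNReal.ofReal ((9 / 100) ^ n * (Phi C (toR v0)).toReal)
        = ENNReal.ofReal (9 / 100) ^ n * Phi C (toR v0) := by
      rw [ENNReal.ofReal_mul (by positivity), ENNReal.ofReal_pow (by norm_num), ← hF2]
    rw [h3]
    calc ENNReal.ofReal (9 / 100) ^ n * Phi C (toR v0)
        ≤ ENNReal.ofReal (9 / 100) ^ n * (ENNReal.ofReal (25 / 9) ^ n * Phi C (toR v)) := by gcongr
      _ = ENNReal.ofReal (1 / 4) ^ n * Phi C (toR v) := by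
        rw [← mul_assoc, ← mul_pow, ← ENNReal.ofReal_mul (by norm_num)]
        norm_num
  have h3 : (J.card : ℝ≥0∞) * ENNReal.ofReal ((9 / 100) ^ n * (Phi C (toR v0)).toReal)
      ≤ ENNReal.ofReal 2 ^ n * Phi C (toR v0) := by
    calc (J.card : ℝ≥0∞) * ENNReal.ofReal ((9 / 100) ^ n * (Phi C (toR v0)).toReal)
        = ∑ _v ∈ J, ENNReal.ofReal ((9 / 100) ^ n * (Phi C (toR v0)).toReal) := by
          rw [Finset.sum_const, nsmul_eq_mul]
      _ ≤ ∑ v ∈ J, volume (B v) := Finset.sum_le_sum hlow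
      _ ≤ _ := hsum
  rw [hF2, hcard, ← ENNReal.ofReal_pow (by norm_num), ← ENNReal.ofReal_mul (by positivity),
    ENNReal.toReal_ofReal hF.le] at h3
  have h4 : ((23 ^ n + 1 : ℕ) : ℝ≥0∞) = ENNReal.ofReal ((23 : ℝ) ^ n + 1) := by
    rw [← ENNReal.ofReal_natCast]
    push_cast
    rfl
  rw [h4, ← ENNReal.ofReal_mul (by positivity), ENNReal.ofReal_le_ofReal_iff (by positivity),
    ← mul_assoc] at h3
  have h5 := le_of_mul_le_mul_right h3 hF
  have h6 : ((23 : ℝ) ^ n) * (9 / 100) ^ n ≤ 2 ^ n := by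
    have : (0 : ℝ) < (9 / 100) ^ n := by positivity
    nlinarith
  have h7 : (2 : ℝ) ^ n < (23 : ℝ) ^ n * (9 / 100) ^ n := by
    rw [← mul_pow]
    exact pow_lt_pow_left₀ (by norm_num) (by norm_num) hn.ne'
  linarith

theorem hilb {C : Set (V n)} (h : IsAmp C) {G : Subgroup (GL (Fin n) ℤ)} (hG : Pres G C)
    (hV : FiniteHilbert C G) : FinOrb G (SInd C) := by
  classical
  rcases Nat.eq_zero_or_pos n with hn0 | hn
  · subst hn0
    refine ⟨{0}, Set.finite_singleton _, fun v _ => ⟨1, G.one_mem, 0, rfl, ?_⟩⟩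
    funext i
    exact i.elim0
  obtain ⟨T, hT, hcov, hfin⟩ := hV
  obtain ⟨m, hm⟩ := stab n
  have hphi : ∀ g ∈ G, ∀ v v' : Fin n → ℤ, toR v' = act g (toR v) → Phi C (toR v') = Phi C (toR v) := by
    intro g hg v v' hv
    rw [hv, phi_act (fun x => hG.iff hg x)]
  refine pack G (SInd C) ?_ (hilbE C) ?_ ?_ (23 ^ n) (hilb_mult h hn) (fun _ => 1) measurable_const
    (fun _ _ _ => rfl) (ENNReal.ofReal ((1 / 3) ^ n)) ?_ ?_ m ?_ T hT ?_ ?_
  · intro g hg v hv v' hv'
    refine ⟨?_, fun x h1 h2 => ?_⟩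
    · rw [hv']
      exact hG g hg _ hv.1
    · obtain ⟨x0, hx0⟩ := exists_toR_act g⁻¹ x
      have e1 : toR (v + x0) = act g⁻¹ (toR (v' + x)) := by
        rw [toR_add, toR_add, act_add, hx0, hv', act_inv_act]
      have e2 : toR (v - x0) = act g⁻¹ (toR (v' - x)) := by
        rw [toR_sub, toR_sub, act_sub, hx0, hv', act_inv_act]
      have h3 := hv.2 x0 (by rw [e1]; exact hG _ (G.inv_mem hg) _ h1)
        (by rw [e2]; exact hG _ (G.inv_mem hg) _ h2)
      rw [h3, toR_zero] at hx0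
      apply toR_inj
      rw [toR_zero, ← act_act_inv g (toR x), ← hx0, act_zero]
  · intro v hv
    exact (hilbE_open h hv.1).measurableSet
  · intro g hg v hv v' hv'
    have hS : hilbS C v' = hilbS C v := by
      unfold hilbS
      rw [hphi g hg v v' hv']
    ext x
    rw [mem_image_act]
    constructor
    · rintro ⟨y, ⟨hy1, hy2⟩, rfl⟩
      refine ⟨act g⁻¹ y, ⟨?_, ?_⟩, ?_⟩
      · have := hG _ (G.inv_mem hg) _ hy1
        rwa [hv', act_add, act_inv_act] at this
      · have := hG _ (G.inv_mem hg) _ hy2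
        rwa [hv', act_sub, act_inv_act] at this
      · rw [hS, hv', act_smul, act_add, act_inv_act, act_smul]
    · rintro ⟨y, ⟨hy1, hy2⟩, hxy⟩
      refine ⟨act g y, ⟨?_, ?_⟩, ?_⟩
      · have := hG _ hg _ hy1
        rwa [act_add, ← hv'] at this
      · have := hG _ hg _ hy2
        rwa [act_sub, ← hv'] at this
      · rw [← act_act_inv g x, hxy, hS, hv', act_smul, act_add, act_smul]
  · exact ENNReal.ofReal_pos.2 (by positivity)
  · intro v hv
    rw [lintegral_one, Measure.restrict_apply_univ, hilbE_vol h hn hv.1]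
  · intro v hv
    exact hm C G h hG _ hv.1
  · intro v hv x hx
    have hs := hilbS_pos h hv.1
    obtain ⟨h1, h2⟩ := hilbE_order h hv.1 hx
    refine hcov ⟨?_, ?_, ?_⟩
    · have e1 : x = (x - (3 / 4 * hilbS C v) • toR v) + (3 / 4 * hilbS C v) • toR v := by abel
      rw [e1]
      exact h.add _ h1 _ (h.smul _ (by positivity) _ hv.1)
    · have h3 := phi_mono h.oc (subset_closure h1)
      rw [hilbS_pow h hn hv.1 (by norm_num)] at h3
      have e1 : ((4 / 3 * (3 / 4)) ^ n : ℝ) = 1 := by norm_num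
      rwa [e1, ENNReal.ofReal_one] at h3
    · have h3 := phi_mono h.oc (subset_closure h2)
      rw [hilbS_pow h hn hv.1 (by norm_num)] at h3
      refine h3.trans ?_
      have e1 : (2 : ℝ≥0∞) ^ n = ENNReal.ofReal ((2 : ℝ) ^ n) := by
        rw [ENNReal.ofReal_pow (by norm_num)]
        norm_num
      rw [e1]
      exact ENNReal.ofReal_le_ofReal (pow_le_pow_left₀ (by norm_num) (by norm_num) _)
  · rw [lintegral_one, Measure.restrict_apply_univ]
    exact hfin

end Pool.Agent.H20.FV
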