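import Pool.Agent.H20.FV.Grow
import Pool.Agent.H20.FV.Ct
import Pool.Agent.H20.FV.Dual
import Pool.Agent.H20.FV.Diri

/-!
[H20 FV LEMR]  Every integral point of the boundary of `C` has an integral supporting functional.

Let `D = dual C` (an `IsAmp` by `isAmp_dual`, `closure D = Mori C`, `dual D = C`).  If `p = 0`: take `z` integral in `D`
(`exists_int_dual`); `z ≠ 0`, otherwise `0 ∈ dual C` and `closure C = {0}` (a nonzero point `x` of `closure C` would have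
`0 < 0 ⬝ᵥ x`), so `C = {0}` (nonempty) contains `toR p = 0`, contradiction.
Let `p ≠ 0` and suppose no such `z` exists.  For `ζ` integral in `D` the number `ζ ⬝ᵥ p` is a positive integer
(`toR p ∈ closure C`, nonzero, definition of `dual`, `dot_toR`); let `η` be integral in `D` with `η ⬝ᵥ p = m` minimal.
As `toR p ∉ C = dual D` there is `ξ0 ∈ closure D`, `ξ0 ≠ 0`, with `toR p ⬝ᵥ ξ0 ≤ 0` (definition of `dual D`), so
`ξ0 ⬝ᵥ toR p = 0` (`Mori.closure`).  `grow` for the cone `D`, `e = toR η`, `u = ξ0` gives `δ, c`.  The orbits: by `hI` every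
element of `Ind D` is `act g (toR f)` with `g ∈ G.map ct`, `f` in a finite set, so `Phi D` takes only finitely many
values on `Ind D` (`phi_act`, `Pres.dual`, `Pres.iff`), all finite (`phi_lt_top`): there is a real `M` with
`Phi D (toR v) ≤ ENNReal.ofReal M` for `v ∈ Ind D`.  By `diri` there is an integral `l` and `t > (|M| + 1) / c` with
`‖toR l - t • ξ0‖ < min δ (1 / (n * ‖toR p‖ + 1))`.  `l ⬝ᵥ p` is an integer and
`|toR l ⬝ᵥ toR p| = |(toR l - t • ξ0) ⬝ᵥ toR p| ≤ n * ‖toR l - t • ξ0‖ * ‖toR p‖ < 1`, so `l ⬝ᵥ p = 0`.  By `grow`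
`toR (η + l) ∈ D` and `Phi D (toR (η + l)) ≥ ENNReal.ofReal (c t) > ENNReal.ofReal M`.  But `η + l ∈ Ind D`: if
`η + l = a + x` with `toR a ∈ D`, `toR x ∈ closure D = Mori C`, then `a ⬝ᵥ p ≥ m`, `x ⬝ᵥ p ≥ 0`, and the sum is `m`, so
`x ⬝ᵥ p = 0`; if `x ≠ 0` this is a `z` as wanted, contradiction; so `x = 0`.
-/

set_option autoImplicit false

open MeasureTheory
open scoped ENNReal

namespace Pool.Agent.H20.FV

open Pool.Agent.H57.KM

variable {n : ℕ}

theorem lemR_dot (x y : V n) : |x ⬝ᵥ y| ≤ (n : ℝ) * ‖x‖ * ‖y‖ := by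
  unfold dotProduct
  calc |∑ i, x i * y i| ≤ ∑ i, |x i * y i| := Finset.abs_sum_le_sum_abs _ _
    _ ≤ ∑ _i : Fin n, ‖x‖ * ‖y‖ := by
        refine Finset.sum_le_sum fun i _ => ?_
        rw [abs_mul]
        have h1 : |x i| ≤ ‖x‖ := norm_le_pi_norm x i
        have h2 : |y i| ≤ ‖y‖ := norm_le_pi_norm y i
        exact mul_le_mul h1 h2 (abs_nonneg _) (norm_nonneg _)
    _ = (n : ℝ) * ‖x‖ * ‖y‖ := by
        simp [mul_assoc]

theorem lemR_bound {D : Set (V n)} (h : IsAmp D) {G : Subgroup (GL (Fin n) ℤ)} (hG : Pres G D)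
    (hI : FinOrb G (Ind D)) : ∃ M : ℝ, ∀ v ∈ Ind D, Phi D (toR v) ≤ ENNReal.ofReal M := by
  classical
  obtain ⟨F, hF, hF2⟩ := hI
  refine ⟨∑ f ∈ hF.toFinset, (Phi D (toR f)).toReal, fun v hv => ?_⟩
  obtain ⟨g, hg, f, hf, hvf⟩ := hF2 v hv
  have h1 : Phi D (toR v) = Phi D (toR f) := by
    rw [hvf]
    exact phi_act (fun x => hG.iff hg x) _
  calc Phi D (toR v) = Phi D (toR f) := h1
    _ = ENNReal.ofReal (Phi D (toR f)).toReal :=
        (ENNReal.ofReal_toReal (phi_lt_top h (toR f)).ne).symm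
    _ ≤ _ := ENNReal.ofReal_le_ofReal
        (Finset.single_le_sum (f := fun f => (Phi D (toR f)).toReal)
          (fun _ _ => ENNReal.toReal_nonneg) (hF.mem_toFinset.2 hf))

theorem lemR {C : Set (V n)} (h : IsAmp C) {G : Subgroup (GL (Fin n) ℤ)} (hG : Pres G C)
    (hI : FinOrb (G.map ct) (Ind (dual C))) {p : Fin n → ℤ} (hp : toR p ∈ closure C)
    (hpC : toR p ∉ C) : ∃ z : Fin n → ℤ, z ≠ 0 ∧ toR z ∈ Mori C ∧ z ⬝ᵥ p = 0 := by
  have hD := isAmp_dual h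
  by_cases hp0 : p = 0
  · subst hp0
    obtain ⟨z, hz⟩ := exists_int_dual h
    refine ⟨z, ?_, dual_sub_Mori hz, by simp⟩
    rintro rfl
    apply hpC
    rw [toR_zero] at hz ⊢
    obtain ⟨x, hx⟩ := h.ne
    have hx0 : x = 0 := by
      by_contra hne
      have := hz x (subset_closure hx) hne
      rw [zero_dotProduct] at this
      exact lt_irrefl _ this
    rwa [hx0] at hx
  by_contra hcon
  push Not at hcon
  have hpos : ∀ ζ : Fin n → ℤ, toR ζ ∈ dual C → 0 < ζ ⬝ᵥ p := by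
    intro ζ hζ
    have := hζ (toR p) hp (toR_ne_zero hp0)
    rw [dot_toR] at this
    exact_mod_cast this
  obtain ⟨η, hη, hmin⟩ : ∃ η : Fin n → ℤ, toR η ∈ dual C ∧
      ∀ ζ : Fin n → ℤ, toR ζ ∈ dual C → η ⬝ᵥ p ≤ ζ ⬝ᵥ p := by
    classical
    obtain ⟨z0, hz0⟩ := exists_int_dual h
    have hne : ∃ k : ℕ, ∃ ζ : Fin n → ℤ, toR ζ ∈ dual C ∧ (ζ ⬝ᵥ p).toNat = k :=
      ⟨_, z0, hz0, rfl⟩
    obtain ⟨η, hη, hk⟩ := Nat.find_spec hne
    refine ⟨η, hη, fun ζ hζ => ?_⟩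
    have h1 := Nat.find_min' hne ⟨ζ, hζ, rfl⟩
    rw [← hk] at h1
    have h2 := hpos η hη
    have h3 := hpos ζ hζ
    omega
  obtain ⟨ξ, hξ, hξ0, hξp⟩ : ∃ ξ ∈ closure (dual C), ξ ≠ 0 ∧ toR p ⬝ᵥ ξ ≤ 0 := by
    by_contra hno
    push Not at hno
    apply hpC
    rw [← dual_dual h]
    intro x hx hx0
    exact hno x hx hx0
  have hξM : ξ ∈ Mori C := by rw [← closure_dual h]; exact hξ
  have hξp0 : ξ ⬝ᵥ toR p = 0 :=
    le_antisymm (by rwa [dotProduct_comm] at hξp) (Mori.closure hξM hp)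
  obtain ⟨δ, hδ, c, hc, hgrow⟩ := grow hD.oc hη hξ hξ0
  obtain ⟨M, hM⟩ := lemR_bound hD hG.dual hI
  have hden : 0 < (n : ℝ) * ‖toR p‖ + 1 := by positivity
  have hδ'0 : 0 < min δ (1 / ((n : ℝ) * ‖toR p‖ + 1)) := lt_min hδ (by positivity)
  obtain ⟨l, t, hTt, ht, hlt⟩ := diri ξ hδ'0 ((|M| + 1) / c)
  have hlp : l ⬝ᵥ p = 0 := by
    have h1 : |toR l ⬝ᵥ toR p| < 1 := by
      have h2 : toR l ⬝ᵥ toR p = (toR l - t • ξ) ⬝ᵥ toR p := by
        rw [sub_dotProduct, smul_dotProduct, hξp0, smul_zero, sub_zero]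
      rw [h2]
      have h3 : ‖toR l - t • ξ‖ < 1 / ((n : ℝ) * ‖toR p‖ + 1) :=
        lt_of_lt_of_le hlt (min_le_right _ _)
      rw [lt_div_iff₀ hden] at h3
      refine lt_of_le_of_lt (lemR_dot _ _) ?_
      nlinarith [norm_nonneg (toR l - t • ξ)]
    rw [dot_toR] at h1
    have h4 : |l ⬝ᵥ p| < 1 := by exact_mod_cast h1
    exact Int.abs_lt_one_iff.1 h4
  have hx : ‖toR (η + l) - (toR η + t • ξ)‖ < δ := by
    have h1 : toR (η + l) - (toR η + t • ξ) = toR l - t • ξ := by rw [toR_add]; abel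
    rw [h1]
    exact lt_of_lt_of_le hlt (min_le_left _ _)
  obtain ⟨hmem, hphi⟩ := hgrow t ht.le _ hx
  have hInd : η + l ∈ Ind (dual C) := by
    refine ⟨hmem, fun a x ha hx hax => ?_⟩
    by_contra hx0
    have hxM : toR x ∈ Mori C := by rw [← closure_dual h]; exact hx
    have h1 := hmin a ha
    have h2 : 0 ≤ x ⬝ᵥ p := by
      have := Mori.closure hxM hp
      rw [dot_toR] at this
      exact_mod_cast this
    have h3 : (η + l) ⬝ᵥ p = (a + x) ⬝ᵥ p := by rw [hax]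
    rw [add_dotProduct, add_dotProduct, hlp] at h3
    exact hcon x hx0 hxM (by omega)
  have h5 := hM _ hInd
  have h6 := le_trans hphi h5
  have h7 : |M| + 1 ≤ c * t := by
    rw [div_le_iff₀ hc] at hTt
    linarith
  rcases ENNReal.ofReal_le_ofReal_iff'.1 h6 with h8 | h8
  · linarith [le_abs_self M]
  · linarith [abs_nonneg M]

end Pool.Agent.H20.FV
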