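import Pool.Agent.H20.FV.Pack
import Pool.Agent.H20.FV.StabB
import Pool.Agent.H20.FV.Mink
import Pool.Agent.H20.FV.Core
import Pool.Agent.H20.FV.Hilb

/-!
[H20 FV PKV]  Finite volume implies that the strongly indecomposable classes form finitely many orbits.

Use `pack` with `I = SInd C`, `E v = {x | ∃ y ∈ body C (toR v), x = (2:ℝ) • toR v + (1/2:ℝ) • y}`, `w x = (Phi C x)⁻¹ ^ 2`,
`N = 1`, `m` from `stab`, `c = (1/25)^n`.
`hI`: `act g` maps the integral points of `C` to such points, and `v' ± x ∈ C` iff `v ± g⁻¹ x ∈ C`.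
`hEm`: `E v` is open (`isOpen_body`; image under a homeomorphism `y ↦ a + (1/2) y`).
`hEg`: `body C (act g x) = act g '' body C x`, linearity.
ORDER: write `a ≤ b` for `b - a ∈ closure C`, `a < b` for `b - a ∈ C`.  For `x = 2 v + (1/2) y ∈ E v`: `-v < y < v`, so
`(3/2) v < x < (5/2) v`.
`hN`: let `x ∈ E v ∩ E v'`.  `(3/2) v' < x < (5/2) v`, so `v' < (5/3) v`, and `±y' < v' < (5/3) v`, `±y < v`;
`v' - v = (1/4) (y - y')` (from `2 v + y/2 = 2 v' + y'/2`), so `v ± (v' - v) > v - (1/4) v - (5/12) v = (1/3) v > 0`: both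
`v + (v' - v)` and `v - (v' - v)` are in `C`, so `v' - v = 0` as `v ∈ SInd C`.
`hcE`: `x ∈ E v` has `Phi C x ≤ Phi C ((5/2) • toR v) = (5/2)^n Phi C (toR v)` (`phi_mono`, `phi_smul`),
`volume (E v) = 2^(-n) Phi C (toR v)` (translation and scaling), `0 < Phi C (toR v) ≤ 2^n` (`phi_pos`, `mink`), so
`∫⁻ x in E v, w x ≥ 2^(-n) Phi * ((5/2)^n Phi)^(-2) = 2^(-n) (4/25)^n / Phi ≥ 4^(-n) (4/25)^n = (1/25)^n`.
`hcov`: `E v ⊆ core C`: `x > (3/2) v`, so for integral nonzero `z` in `Mori C`: `z ⬝ᵥ x ≥ (3/2) z ⬝ᵥ v ≥ 3/2`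
(`mem_core`); and `core C ⊆ ⋃ act g '' T`.
`hw`: `phi_act`, `Pres.iff`.  `hwm`: `phi_meas_inv`.
-/

set_option autoImplicit false

open MeasureTheory
open scoped ENNReal

namespace Pool.Agent.H20.FV

open Pool.Agent.H57.KM

variable {n : ℕ}

/-- the sets of the packing -/
def pkvE (C : Set (V n)) (v : Fin n → ℤ) : Set (V n) :=
  {x | ∃ y ∈ body C (toR v), x = (2 : ℝ) • toR v + (1 / 2 : ℝ) • y}

theorem pkvE_eq {C : Set (V n)} (v : Fin n → ℤ) :
    pkvE C v = (fun y => (2 : ℝ) • toR v + (1 / 2 : ℝ) • y) '' body C (toR v) := by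
  ext x
  simp only [pkvE, Set.mem_ofPred_eq, Set.mem_image]
  constructor
  · rintro ⟨y, hy, rfl⟩
    exact ⟨y, hy, rfl⟩
  · rintro ⟨y, hy, rfl⟩
    exact ⟨y, hy, rfl⟩

theorem pkvE_open {C : Set (V n)} (h : IsAmp C) (v : Fin n → ℤ) : IsOpen (pkvE C v) := by
  rw [pkvE_eq]
  have h1 : (fun y : V n => (2 : ℝ) • toR v + (1 / 2 : ℝ) • y) =
      (Homeomorph.addLeft ((2 : ℝ) • toR v)) ∘
        (Homeomorph.smulOfNeZero (1 / 2 : ℝ) (by norm_num)) := by
    funext y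
    rfl
  rw [h1, Set.image_comp]
  exact (Homeomorph.isOpenMap _) _ ((Homeomorph.isOpenMap _) _ (isOpen_body h.oc _))

theorem pkvE_vol {C : Set (V n)} (v : Fin n → ℤ) :
    volume (pkvE C v) = ENNReal.ofReal (1 / 2) ^ n * Phi C (toR v) := by
  rw [pkvE_eq, hilb_vol _ (by norm_num)]
  rfl

theorem pkvE_order {C : Set (V n)} (h : IsAmp C) {v : Fin n → ℤ} {x : V n}
    (hx : x ∈ pkvE C v) : x - (3 / 2 : ℝ) • toR v ∈ C ∧ (5 / 2 : ℝ) • toR v - x ∈ C := by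
  obtain ⟨y, ⟨hy1, hy2⟩, rfl⟩ := hx
  constructor
  · have h1 : (2 : ℝ) • toR v + (1 / 2 : ℝ) • y - (3 / 2 : ℝ) • toR v = (1 / 2 : ℝ) • (toR v + y) := by
      module
    rw [h1]
    exact h.smul _ (by positivity) _ hy1
  · have h1 : (5 / 2 : ℝ) • toR v - ((2 : ℝ) • toR v + (1 / 2 : ℝ) • y) = (1 / 2 : ℝ) • (toR v - y) := by
      module
    rw [h1]
    exact h.smul _ (by positivity) _ hy2

theorem pkv_mult {C : Set (V n)} (h : IsAmp C) (x : V n) :
    {v | v ∈ SInd C ∧ x ∈ pkvE C v}.encard ≤ (1 : ℕ) := by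
  rw [Nat.cast_one, Set.encard_le_one_iff]
  rintro v v' ⟨hv, y, hy, hx⟩ ⟨hv', y', hy', hx'⟩
  refine hilb_disj h hv hy hy' ?_
  have e1 : toR v + (1 / 4 : ℝ) • y = (1 / 2 : ℝ) • ((2 : ℝ) • toR v + (1 / 2 : ℝ) • y) := by module
  have e2 : toR v' + (1 / 4 : ℝ) • y' = (1 / 2 : ℝ) • ((2 : ℝ) • toR v' + (1 / 2 : ℝ) • y') := by module
  rw [e1, e2, ← hx, ← hx']

theorem pkv_phi {C : Set (V n)} (h : IsAmp C) {v : Fin n → ℤ} {x : V n} (hx : x ∈ pkvE C v) :
    Phi C x ≤ ENNReal.ofReal (5 / 2) ^ n * Phi C (toR v) := by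
  rw [← phi_smul h.oc (by norm_num)]
  exact phi_mono h.oc (subset_closure (pkvE_order h hx).2)

theorem pkv_low {C : Set (V n)} (h : IsAmp C) {v : Fin n → ℤ} (hv : v ∈ SInd C) :
    ENNReal.ofReal ((1 / 25) ^ n) ≤ ∫⁻ x in pkvE C v, (Phi C x)⁻¹ ^ 2 := by
  obtain ⟨hF, hF2⟩ := hilb_phi h hv.1
  set F := (Phi C (toR v)).toReal with hFdef
  have hmink : F ≤ 2 ^ n := by
    have h1 := mink h.oc hv
    rw [hF2] at h1
    have e1 : (2 : ℝ≥0∞) ^ n = ENNReal.ofReal ((2 : ℝ) ^ n) := by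
      rw [ENNReal.ofReal_pow (by norm_num)]
      norm_num
    rw [e1, ENNReal.ofReal_le_ofReal_iff (by positivity)] at h1
    exact h1
  have h1 : ∀ x ∈ pkvE C v, ENNReal.ofReal (((5 / 2) ^ n * F)⁻¹ ^ 2) ≤ (Phi C x)⁻¹ ^ 2 := by
    intro x hx
    have h2 := pkv_phi h hx
    rw [hF2, ← ENNReal.ofReal_pow (by norm_num), ← ENNReal.ofReal_mul (by positivity)] at h2
    rw [ENNReal.ofReal_pow (by positivity), ENNReal.ofReal_inv_of_pos (by positivity)]
    gcongr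
  calc ENNReal.ofReal ((1 / 25) ^ n)
      ≤ ENNReal.ofReal (((5 / 2) ^ n * F)⁻¹ ^ 2) * (ENNReal.ofReal (1 / 2) ^ n * Phi C (toR v)) := by
        rw [hF2, ← ENNReal.ofReal_pow (by norm_num), ← ENNReal.ofReal_mul (by positivity),
          ← ENNReal.ofReal_mul (by positivity)]
        apply ENNReal.ofReal_le_ofReal
        have e1 : ((5 / 2 : ℝ) ^ n * F)⁻¹ ^ 2 * ((1 / 2) ^ n * F) = (2 / 25) ^ n / F := by
          have e2 : ((5 / 2 : ℝ) ^ n * F)⁻¹ ^ 2 * ((1 / 2) ^ n * F)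
              = (((5 / 2 : ℝ) ^ n)⁻¹ ^ 2 * (1 / 2) ^ n) * (F⁻¹ ^ 2 * F) := by
            rw [mul_inv, mul_pow]
            ring
          have e3 : ((5 / 2 : ℝ) ^ n)⁻¹ ^ 2 * (1 / 2) ^ n = (2 / 25) ^ n := by
            rw [← inv_pow, ← pow_mul, mul_comm n 2, pow_mul, ← mul_pow]
            norm_num
          have e4 : F⁻¹ ^ 2 * F = F⁻¹ := by
            field_simp
          rw [e2, e3, e4]
          exact (div_eq_mul_inv _ _).symm
        rw [e1, le_div_iff₀ hF]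
        have e5 : ((2 / 25 : ℝ)) ^ n = (1 / 25) ^ n * 2 ^ n := by
          rw [← mul_pow]
          norm_num
        rw [e5]
        gcongr
    _ = ∫⁻ _x in pkvE C v, ENNReal.ofReal (((5 / 2) ^ n * F)⁻¹ ^ 2) := by
        rw [setLIntegral_const, pkvE_vol]
    _ ≤ _ := setLIntegral_mono' (pkvE_open h v).measurableSet h1

theorem pkv {C : Set (V n)} (h : IsAmp C) {G : Subgroup (GL (Fin n) ℤ)} (hG : Pres G C)
    (hV : FiniteVolume C G) : FinOrb G (SInd C) := by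
  classical
  obtain ⟨T, hT, hTc, hcov, hfin⟩ := hV
  obtain ⟨m, hm⟩ := stab n
  refine pack G (SInd C) ?_ (pkvE C) ?_ ?_ 1 (pkv_mult h) (fun x => (Phi C x)⁻¹ ^ 2)
    (phi_meas_inv h.oc) ?_ (ENNReal.ofReal ((1 / 25) ^ n)) ?_ (fun v hv => pkv_low h hv) m ?_ T hT ?_ hfin
  · intro g hg v hv v' hv'
    refine ⟨?_, fun x h1 h2 => ?_⟩
    · rw [hv']
      exact hG g hg _ hv.1
    · obtain ⟨x0, hx0⟩ := exists_toR_act g⁻¹ x
      have e1 : toR (v + x0) = act g⁻¹ (toR (v' + x)) := by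
        rw [toR_add, toR_add, act_add, hx0, hv', act_inv_act]
      have e2 : toR (v - x0) = act g⁻¹ (toR (v' - x)) := by
        rw [toR_sub, toR_sub, act_sub, hx0, hv', act_inv_act]
      have h3 := hv.2 x0 (by rw [e1]; exact hG _ (G.inv_mem hg) _ h1)
        (by rw [e2]; exact hG _ (G.inv_mem hg) _ h2)
      rw [h3, toR_zero] at hx0
      apply toR_inj
      rw [toR_zero, ← act_act_inv g (toR x), ← hx0, act_zero]
  · intro v hv
    exact (pkvE_open h v).measurableSet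
  · intro g hg v hv v' hv'
    ext x
    rw [mem_image_act]
    constructor
    · rintro ⟨y, ⟨hy1, hy2⟩, rfl⟩
      refine ⟨act g⁻¹ y, ⟨?_, ?_⟩, ?_⟩
      · have := hG _ (G.inv_mem hg) _ hy1
        rwa [hv', act_add, act_inv_act] at this
      · have := hG _ (G.inv_mem hg) _ hy2
        rwa [hv', act_sub, act_inv_act] at this
      · rw [hv', act_add, act_smul, act_smul, act_inv_act]
    · rintro ⟨y, ⟨hy1, hy2⟩, hxy⟩
      refine ⟨act g y, ⟨?_, ?_⟩, ?_⟩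
      · have := hG _ hg _ hy1
        rwa [act_add, ← hv'] at this
      · have := hG _ hg _ hy2
        rwa [act_sub, ← hv'] at this
      · rw [← act_act_inv g x, hxy, hv', act_add, act_smul, act_smul]
  · intro g hg x
    rw [phi_act (fun x => hG.iff hg x)]
  · exact ENNReal.ofReal_pos.2 (by positivity)
  · intro v hv
    exact hm C G h hG _ hv.1
  · intro v hv x hx
    obtain ⟨h1, h2⟩ := pkvE_order h hx
    apply hcov
    refine ⟨?_, fun z hz hzM => ?_⟩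
    · have e1 : x = (x - (3 / 2 : ℝ) • toR v) + (3 / 2 : ℝ) • toR v := by abel
      rw [e1]
      exact h.add _ h1 _ (h.smul _ (by norm_num) _ hv.1)
    · have h3 := hzM _ h1
      have h4 : 1 ≤ toR z ⬝ᵥ toR v := (mem_core h.oc hv.1).2 z hz hzM
      rw [dotProduct_sub, dotProduct_smul, smul_eq_mul] at h3
      linarith

end Pool.Agent.H20.FV
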