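import Pool.Agent.H20.FV.Step2
import Pool.Agent.H20.FV.Dec
import Pool.Agent.H20.FV.LemR
import Pool.Agent.H20.FV.Fvol
import Pool.Agent.H20.FV.Coco
import Pool.Agent.H20.FV.Coi
import Pool.Agent.H20.FV.Pkv
import Pool.Agent.H20.FV.Hilb
import Pool.Agent.H20.FV.Dom

/-!
[H20 FV FINAL]  Assembly (proved from the modules).
-/

set_option autoImplicit false

open MeasureTheory
open scoped ENNReal

namespace Pool.Agent.H20.FV

open Pool.Agent.H57.KM

variable {n : ℕ}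

theorem dual_ind_of_sInd {C : Set (V n)} (h : IsAmp C) {G : Subgroup (GL (Fin n) ℤ)} (hG : Pres G C)
    (hF : FinOrb G (SInd C)) : FinOrb (G.map ct) (Ind (dual C)) :=
  dec (isAmp_dual h) hG.dual (step2 h hG hF)

theorem cov_of_sInd {C : Set (V n)} (h : IsAmp C) {G : Subgroup (GL (Fin n) ℤ)} (hG : Pres G C)
    (hF : FinOrb G (SInd C)) : Cov C G := by
  have h1 := (dual_ind_of_sInd h hG hF).mono (sInd_sub_Ind (isAmp_dual h).oc)
  have h2 := step2 (isAmp_dual h) hG.dual h1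
  rwa [dual_dual h, map_ct_ct] at h2

theorem sInd_of_cov {C : Set (V n)} (h : IsAmp C) {G : Subgroup (GL (Fin n) ℤ)} (hG : Pres G C)
    (hC : Cov C G) : FinOrb G (SInd C) :=
  (dec h hG hC).mono (sInd_sub_Ind h.oc)

theorem rprop {C : Set (V n)} (h : IsAmp C) {G : Subgroup (GL (Fin n) ℤ)} (hG : Pres G C)
    (hC : Cov C G) : ∀ p : Fin n → ℤ, toR p ∈ closure C → toR p ∉ C →
      ∃ z : Fin n → ℤ, z ≠ 0 ∧ toR z ∈ Mori C ∧ z ⬝ᵥ p = 0 := fun p hp hpC =>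
  lemR h hG (dual_ind_of_sInd h hG (sInd_of_cov h hG hC)) hp hpC

theorem cov_iff_ind {C : Set (V n)} (h : IsAmp C) {G : Subgroup (GL (Fin n) ℤ)} (hG : Pres G C) :
    Cov C G ↔ FinOrb G (Ind C) :=
  ⟨dec h hG, fun hF => cov_of_sInd h hG (hF.mono (sInd_sub_Ind h.oc))⟩

theorem cov_iff_dual {C : Set (V n)} (h : IsAmp C) {G : Subgroup (GL (Fin n) ℤ)} (hG : Pres G C) :
    Cov C G ↔ FinOrb (G.map ct) (Ind (dual C)) := by
  refine ⟨fun hC => dual_ind_of_sInd h hG (sInd_of_cov h hG hC), fun hF => ?_⟩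
  have h2 := step2 (isAmp_dual h) hG.dual (hF.mono (sInd_sub_Ind (isAmp_dual h).oc))
  rwa [dual_dual h, map_ct_ct] at h2

theorem cov_iff_vol {C : Set (V n)} (h : IsAmp C) {G : Subgroup (GL (Fin n) ℤ)} (hG : Pres G C) :
    Cov C G ↔ FiniteVolume C G :=
  ⟨fun hC => fvol h hG hC (rprop h hG hC), fun hV => cov_of_sInd h hG (pkv h hG hV)⟩

theorem cov_iff_coco {C : Set (V n)} (h : IsAmp C) {G : Subgroup (GL (Fin n) ℤ)} (hG : Pres G C) :
    Cov C G ↔ Cocompact C G :=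
  ⟨fun hC => coco h hG hC (rprop h hG hC), fun hK => cov_of_sInd h hG (coi h hK)⟩

theorem cov_of_hilb {C : Set (V n)} (h : IsAmp C) {G : Subgroup (GL (Fin n) ℤ)} (hG : Pres G C)
    (hV : FiniteHilbert C G) : Cov C G := cov_of_sInd h hG (hilb h hG hV)

theorem main (D : NefData n) :
    (D.Q1 ↔ (∀ s : Fin n → ℤ, toR s ∈ closure D.amp → toR s ∈ D.eff) ∧ FiniteVolume D.amp D.G) ∧
    (HasDomain D.amp D.G ↔ FiniteVolume D.amp D.G) ∧
    (HasDomain D.amp D.G ↔ Cocompact D.amp D.G) ∧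
    (HasDomain D.amp D.G ↔ FinOrb D.G (Ind D.amp)) ∧
    (HasDomain D.amp D.G ↔ FinOrb (D.G.map ct) (Ind (dual D.amp))) ∧
    (FiniteHilbert D.amp D.G → HasDomain D.amp D.G) := by
  have hG : Pres D.G D.amp := D.act_amp
  have h := D.isAmp
  refine ⟨?_, ?_, ?_, ?_, ?_, fun hH => (dom h hG).2 (cov_of_hilb h hG hH)⟩
  · rw [q1eq, cov_iff_vol h hG]
  · rw [dom h hG, cov_iff_vol h hG]
  · rw [dom h hG, cov_iff_coco h hG]
  · rw [dom h hG, cov_iff_ind h hG]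
  · rw [dom h hG, cov_iff_dual h hG]

end Pool.Agent.H20.FV
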