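import Pool.Agent.H20.FV.Phi

/-!
[H20 FV GROW]  `Phi` tends to infinity along half lines in the closure of the cone.

Choose `δ > 0` with `ball e (2 * δ) ⊆ C`.  Let `x = e + t • u + ε`, `‖ε‖ < δ`, `t ≥ 0`.  Then `x ∈ C` (`IsOC.add_mem`) and for
`|s| ≤ t`, `‖η‖ < δ` we have `x ± (s • u + η) = (e + (ε ± η)) + (t ± s) • u ∈ C`, so `body C x` contains the balls
`ball (s • u) δ`, `0 ≤ s ≤ t`.  Let `K = ⌊t * ‖u‖ / (2 δ)⌋` (natural number); the balls with the centres
`(2 δ k / ‖u‖) • u`, `k = 0, ..., K`, are pairwise disjoint (the distance of the centres is at least `2 δ`), all of volume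
`b = volume (ball 0 δ)`, `0 < b < ∞`.  So `Phi C x ≥ (K + 1) b ≥ (t ‖u‖ / (2 δ)) b`
(`measure_biUnion_finset`).  Take `c = ‖u‖ * b.toReal / (2 δ)`.
-/

set_option autoImplicit false

open MeasureTheory
open scoped ENNReal

namespace Pool.Agent.H20.FV

open Pool.Agent.H57.KM

variable {n : ℕ}

/-- [H20 FV GROW] the body of `x` contains the balls around the points `s • u` -/
theorem ball_subset_body_grow {C : Set (V n)} (h : IsOC C) {e u : V n} {δ : ℝ}
    (hball : Metric.ball e (2 * δ) ⊆ C) (hu : u ∈ closure C) {t : ℝ} {x : V n}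
    (hx : ‖x - (e + t • u)‖ < δ) {s : ℝ} (hs : 0 ≤ s) (hst : s ≤ t) :
    Metric.ball (s • u) δ ⊆ body C x := by
  intro y hy
  rw [Metric.mem_ball, dist_eq_norm] at hy
  have key : ∀ η : V n, ‖η‖ < δ → e + (x - (e + t • u)) + η ∈ C := by
    intro η hη
    refine hball ?_
    rw [Metric.mem_ball, dist_eq_norm]
    have h1 : e + (x - (e + t • u)) + η - e = (x - (e + t • u)) + η := by abel
    rw [h1]
    calc ‖(x - (e + t • u)) + η‖ ≤ ‖x - (e + t • u)‖ + ‖η‖ := norm_add_le _ _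
      _ < 2 * δ := by linarith
  refine ⟨?_, ?_⟩
  · have h2 : x + y = (e + (x - (e + t • u)) + (y - s • u)) + (t + s) • u := by
      rw [add_smul]; abel
    rw [h2]
    exact h.add_mem' (key _ hy) (h.closure_smul (by linarith) hu)
  · have h2 : x - y = (e + (x - (e + t • u)) + (-(y - s • u))) + (t - s) • u := by
      rw [sub_smul]; abel
    rw [h2]
    exact h.add_mem' (key _ (by rwa [norm_neg])) (h.closure_smul (by linarith) hu)

theorem grow {C : Set (V n)} (h : IsOC C) {e u : V n} (he : e ∈ C) (hu : u ∈ closure C)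
    (hu0 : u ≠ 0) : ∃ δ : ℝ, 0 < δ ∧ ∃ c : ℝ, 0 < c ∧ ∀ t : ℝ, 0 ≤ t → ∀ x : V n,
      ‖x - (e + t • u)‖ < δ → x ∈ C ∧ ENNReal.ofReal (c * t) ≤ Phi C x := by
  obtain ⟨r, hr, hball0⟩ := Metric.isOpen_iff.1 h.op e he
  obtain ⟨δ, hδ, hrδ⟩ : ∃ δ : ℝ, 0 < δ ∧ r = 2 * δ := ⟨r / 2, by positivity, by ring⟩
  have hball : Metric.ball e (2 * δ) ⊆ C := hrδ ▸ hball0
  have hN : 0 < ‖u‖ := norm_pos_iff.2 hu0
  have hb0 : 0 < volume (Metric.ball (0 : V n) δ) := Metric.measure_ball_pos volume _ hδ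
  have hbt : volume (Metric.ball (0 : V n) δ) ≠ ∞ := Metric.isBounded_ball.measure_lt_top.ne
  have hbr : 0 < (volume (Metric.ball (0 : V n) δ)).toReal := ENNReal.toReal_pos hb0.ne' hbt
  refine ⟨δ, hδ, ‖u‖ / (2 * δ) * (volume (Metric.ball (0 : V n) δ)).toReal, by positivity, ?_⟩
  intro t ht x hx
  constructor
  · have h1 : x = (e + (x - (e + t • u))) + t • u := by abel
    rw [h1]
    refine h.add_mem' (hball ?_) (h.closure_smul ht hu)
    rw [Metric.mem_ball, dist_eq_norm]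
    have h2 : e + (x - (e + t • u)) - e = x - (e + t • u) := by abel
    rw [h2]
    linarith
  · set K : ℕ := ⌊t * ‖u‖ / (2 * δ)⌋₊ with hK
    have hKle : (K : ℝ) ≤ t * ‖u‖ / (2 * δ) := Nat.floor_le (by positivity)
    have hKlt : t * ‖u‖ / (2 * δ) < (K : ℝ) + 1 := Nat.lt_floor_add_one _
    have hsub : (⋃ k ∈ Finset.range (K + 1),
        Metric.ball ((2 * δ * (k : ℝ) / ‖u‖) • u) δ) ⊆ body C x := by
      refine Set.iUnion₂_subset fun k hk => ?_
      refine ball_subset_body_grow h hball hu hx (by positivity) ?_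
      have hk1 : (k : ℝ) ≤ (K : ℝ) := by
        exact_mod_cast Nat.lt_succ_iff.1 (Finset.mem_range.1 hk)
      rw [div_le_iff₀ hN]
      have h3 : (k : ℝ) * (2 * δ) ≤ t * ‖u‖ := by
        have := hk1.trans hKle
        rwa [le_div_iff₀ (by positivity)] at this
      linarith
    have hdisj : Set.PairwiseDisjoint (↑(Finset.range (K + 1)) : Set ℕ)
        (fun k : ℕ => Metric.ball ((2 * δ * (k : ℝ) / ‖u‖) • u) δ) := by
      intro k _ l _ hkl
      refine Metric.ball_disjoint_ball ?_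
      rw [dist_eq_norm, ← sub_smul, norm_smul, Real.norm_eq_abs]
      have h4 : 2 * δ * (k : ℝ) / ‖u‖ - 2 * δ * (l : ℝ) / ‖u‖
          = (2 * δ / ‖u‖) * ((k : ℝ) - l) := by ring
      rw [h4, abs_mul, abs_of_pos (by positivity : 0 < 2 * δ / ‖u‖)]
      have h5 : (1 : ℝ) ≤ |(k : ℝ) - l| := by
        have : (1 : ℤ) ≤ |(k : ℤ) - l| := Int.one_le_abs (by omega)
        exact_mod_cast this
      have h6 : 2 * δ / ‖u‖ * |(k : ℝ) - l| * ‖u‖ = 2 * δ * |(k : ℝ) - l| := by
        field_simp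
      rw [h6]
      nlinarith
    have hvol : volume (⋃ k ∈ Finset.range (K + 1),
        Metric.ball ((2 * δ * (k : ℝ) / ‖u‖) • u) δ)
          = ((K : ℝ≥0∞) + 1) * volume (Metric.ball (0 : V n) δ) := by
      rw [measure_biUnion_finset hdisj (fun _ _ => Metric.isOpen_ball.measurableSet)]
      simp only [Measure.addHaar_ball_center, Finset.sum_const, Finset.card_range, nsmul_eq_mul,
        Nat.cast_add, Nat.cast_one]
    calc ENNReal.ofReal (‖u‖ / (2 * δ) * (volume (Metric.ball (0 : V n) δ)).toReal * t)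
        = ENNReal.ofReal (t * ‖u‖ / (2 * δ)) * volume (Metric.ball (0 : V n) δ) := by
          have h7 : ‖u‖ / (2 * δ) * (volume (Metric.ball (0 : V n) δ)).toReal * t
              = (t * ‖u‖ / (2 * δ)) * (volume (Metric.ball (0 : V n) δ)).toReal := by ring
          rw [h7, ENNReal.ofReal_mul (by positivity), ENNReal.ofReal_toReal hbt]
      _ ≤ ((K : ℝ≥0∞) + 1) * volume (Metric.ball (0 : V n) δ) := by
          gcongr
          have h8 : ENNReal.ofReal ((K : ℝ) + 1) = (K : ℝ≥0∞) + 1 := by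
            rw [ENNReal.ofReal_add (by positivity) zero_le_one, ENNReal.ofReal_natCast,
              ENNReal.ofReal_one]
          rw [← h8]
          exact ENNReal.ofReal_le_ofReal hKlt.le
      _ = volume (⋃ k ∈ Finset.range (K + 1),
            Metric.ball ((2 * δ * (k : ℝ) / ‖u‖) • u) δ) := hvol.symm
      _ ≤ Phi C x := measure_mono hsub

end Pool.Agent.H20.FV
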