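import Pool.Agent.H20.FV.Diri

/-!
[H20 FV YCON]  The direction `u` is in the interior (relative to `R`) of a finitely generated cone.

Choose `δ` with `0 < δ ≤ δ0` and `ball (toR e) (2 * δ) ⊆ C`.  `R` is spanned by `toR '' Near u δ`, so there are finitely
many `b_1, ..., b_k ∈ Near u δ` such that the `toR b_i` span `R` (e.g. a basis of `R` extracted from the spanning set,
`exists_linearIndependent` / `Submodule.fg`), with `t_i ≥ 0`, `‖toR b_i - t_i • u‖ < δ`.  The linear map
`(Fin k → ℝ) → R`, `a ↦ ∑ a_i toR b_i` is surjective, so open: there is `c > 0` such that every `r ∈ R` with `‖r‖ < c` is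
`∑ a_i toR b_i` with `k * |a_i| ≤ 1` for all `i`.  By `diri` with `min δ (c/2)` and `T = max (∑ t_i) 1` there are `l`
integral and `t ≥ 1`, `t ≥ t_i` for all `i`, `‖toR l - t • u‖ < min δ (c/2)`; since this is `≤ δ0` we have `toR l ∈ R`.
`Y = {b_i} ∪ {l - b_i}`.  They are in `R`.  `toR (e + b_i) = t_i • u + (toR e + (toR b_i - t_i • u)) ∈ C`
(`closure C + C ⊆ C`, `IsOC.add_mem`), and `toR (e + (l - b_i)) = (t - t_i) • u + (toR e + ε)` with `‖ε‖ < 2 δ`, in `C`.
Let `ρ = c / (2 t)` and `r ∈ R`, `‖r - u‖ < ρ`.  `t • r - toR l = t • (r - u) + (t • u - toR l)` is in `R` and has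
norm `< c/2 + c/2`, so `t • r = toR l + ∑ a_i toR b_i`.  If `k = 0` then `R = ⊥`, `r = 0`: `zero_mem_cone`.  Otherwise
`k t • r = ∑_i (toR b_i + toR (l - b_i)) + ∑ k a_i toR b_i = ∑_i (1 + k a_i) toR b_i + ∑_i toR (l - b_i)` with
nonnegative coefficients (as `toR l = toR b_i + toR (l - b_i)` for each `i`), so `r ∈ cone Y`
(`cone_add`, `cone_smul`, `toR_mem_cone`, `sum_mem_cone`).
-/

set_option autoImplicit false

open MeasureTheory
open scoped ENNReal

namespace Pool.Agent.H20.FV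

open Pool.Agent.H57.KM

variable {n : ℕ}

/-- bounded coefficients for small vectors of the span of a finite family -/
private theorem ycon_coef (B : Finset (Fin n → ℤ)) : ∃ c : ℝ, 0 < c ∧
    ∀ r ∈ Submodule.span ℝ (toR '' (B : Set (Fin n → ℤ))), ‖r‖ < c →
      ∃ a : (Fin n → ℤ) → ℝ, (∀ b ∈ B, (B.card : ℝ) * |a b| ≤ 1) ∧ r = ∑ b ∈ B, a b • toR b := by
  classical
  obtain ⟨L, hL⟩ : ∃ L : (↥B → ℝ) →ₗ[ℝ] V n, ∀ a, L a = ∑ b : ↥B, a b • toR b.1 := by
    refine ⟨∑ b : ↥B, (LinearMap.proj b).smulRight (toR b.1), fun a => ?_⟩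
    rw [LinearMap.sum_apply]
    rfl
  have hrange : Submodule.span ℝ (toR '' (B : Set (Fin n → ℤ))) ≤ LinearMap.range L := by
    rw [Submodule.span_le]
    rintro _ ⟨b, hb, rfl⟩
    refine ⟨Pi.single ⟨b, hb⟩ 1, ?_⟩
    rw [hL, Finset.sum_eq_single ⟨b, hb⟩]
    · rw [Pi.single_eq_same, one_smul]
    · intro b' _ hb'
      rw [Pi.single_eq_of_ne hb', zero_smul]
    · intro h
      exact absurd (Finset.mem_univ _) h
  obtain ⟨S, hS⟩ := (LinearMap.rangeRestrict L).exists_rightInverse_of_surjective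
    (LinearMap.range_rangeRestrict L)
  have hScont : Continuous S := LinearMap.continuous_of_finiteDimensional S
  obtain ⟨S', hS'⟩ : ∃ S' : LinearMap.range L →L[ℝ] (↥B → ℝ), ∀ r, S' r = S r :=
    ⟨⟨S, hScont⟩, fun _ => rfl⟩
  have hk : (0 : ℝ) ≤ B.card := Nat.cast_nonneg _
  obtain ⟨M, hM0, hM⟩ := S'.bound
  have hn : 0 ≤ M := hM0.le
  refine ⟨1 / ((B.card + 1) * (M + 1)), by positivity, ?_⟩
  intro r hr hrc
  have hrr : r ∈ LinearMap.range L := hrange hr
  obtain ⟨a0, ha0⟩ : ∃ a0 : ↥B → ℝ, a0 = S' ⟨r, hrr⟩ := ⟨_, rfl⟩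
  have hLa : L a0 = r := by
    have h1 := LinearMap.congr_fun hS ⟨r, hrr⟩
    have h2 := congrArg Subtype.val h1
    rw [ha0, hS']
    exact h2
  have hna : ‖a0‖ ≤ M * ‖r‖ := by
    rw [ha0]
    exact hM ⟨r, hrr⟩
  have hna2 : (B.card : ℝ) * ‖a0‖ ≤ 1 := by
    have h1 : ‖r‖ ≤ 1 / ((B.card + 1) * (M + 1)) := hrc.le
    have h2 : ‖a0‖ ≤ (M + 1) * (1 / ((B.card + 1) * (M + 1))) := by
      refine hna.trans ?_
      apply mul_le_mul (by linarith) h1 (norm_nonneg _) (by linarith)
    have h3 : (M + 1) * (1 / ((B.card + 1) * (M + 1))) = 1 / ((B.card : ℝ) + 1) := by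
      field_simp
    rw [h3] at h2
    calc (B.card : ℝ) * ‖a0‖ ≤ (B.card : ℝ) * (1 / ((B.card : ℝ) + 1)) :=
          mul_le_mul_of_nonneg_left h2 hk
      _ = (B.card : ℝ) / ((B.card : ℝ) + 1) := by ring
      _ ≤ 1 := by
          rw [div_le_one (by linarith)]
          linarith
  refine ⟨fun b => if h : b ∈ B then a0 ⟨b, h⟩ else 0, ?_, ?_⟩
  · intro b hb
    simp only [dif_pos hb]
    have h1 : |a0 ⟨b, hb⟩| ≤ ‖a0‖ := norm_le_pi_norm a0 ⟨b, hb⟩
    exact (mul_le_mul_of_nonneg_left h1 hk).trans hna2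
  · rw [← hLa, hL, ← Finset.sum_coe_sort B]
    apply Finset.sum_congr rfl
    intro b _
    simp only [dif_pos b.2]

theorem ycon {C : Set (V n)} (h : IsOC C) {e : Fin n → ℤ} (he : toR e ∈ C) {u : V n}
    (hu : u ∈ closure C) {R : Submodule ℝ (V n)} {δ0 : ℝ} (hδ0 : 0 < δ0) (huR : u ∈ R)
    (hR : ∀ δ, 0 < δ → δ ≤ δ0 → Submodule.span ℝ (toR '' Near u δ) = R) :
    ∃ Y : Finset (Fin n → ℤ), (∀ y ∈ Y, toR y ∈ R ∧ toR (e + y) ∈ C) ∧
      ∃ ρ : ℝ, 0 < ρ ∧ ∀ r ∈ R, ‖r - u‖ < ρ → r ∈ cone Y := by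
  classical
  obtain ⟨ε, hε, hball⟩ := Metric.isOpen_iff.1 h.op _ he
  obtain ⟨δ, hδdef⟩ : ∃ δ : ℝ, δ = min δ0 (ε / 2) := ⟨_, rfl⟩
  have hδ : 0 < δ := by rw [hδdef]; exact lt_min hδ0 (by linarith)
  have hδ1 : δ ≤ δ0 := by rw [hδdef]; exact min_le_left _ _
  have hδ2 : 2 * δ ≤ ε := by
    have : δ ≤ ε / 2 := by rw [hδdef]; exact min_le_right _ _
    linarith
  have hC : ∀ x : V n, ‖x‖ < 2 * δ → toR e + x ∈ C := by
    intro x hx
    apply hball
    rw [Metric.mem_ball, dist_eq_norm, add_sub_cancel_left]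
    linarith
  -- a finite generating family
  have hfg : (Submodule.span ℝ (toR '' Near u δ)).FG := IsNoetherian.noetherian _
  rw [Submodule.fg_span_iff_fg_span_finset_subset] at hfg
  obtain ⟨B', hB'1, hB'2⟩ := hfg
  obtain ⟨B, hB1, hB2⟩ := Finset.subset_set_image_iff.1 hB'1
  have hspan : Submodule.span ℝ (toR '' (B : Set (Fin n → ℤ))) = R := by
    rw [← hR δ hδ hδ1, hB'2, ← hB2, Finset.coe_image]
  have ht : ∀ b : Fin n → ℤ, ∃ t : ℝ, b ∈ B → 0 ≤ t ∧ ‖toR b - t • u‖ < δ := by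
    intro b
    by_cases hb : b ∈ B
    · obtain ⟨t, ht⟩ := hB1 hb
      exact ⟨t, fun _ => ht⟩
    · exact ⟨0, fun h => absurd h hb⟩
  choose t ht using ht
  obtain ⟨c, hc, hcoef⟩ := ycon_coef B
  obtain ⟨l, τ, hτ1, hτ0, hl⟩ := diri u (lt_min hδ (half_pos hc)) (max (∑ b ∈ B, t b) 1)
  have hl1 : ‖toR l - τ • u‖ < δ := hl.trans_le (min_le_left _ _)
  have hl2 : ‖toR l - τ • u‖ < c / 2 := hl.trans_le (min_le_right _ _)
  have hlR : toR l ∈ R := by
    rw [← hR δ hδ hδ1]
    exact Submodule.subset_span ⟨l, ⟨τ, hτ0.le, hl1⟩, rfl⟩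
  have hbR : ∀ b ∈ B, toR b ∈ R := by
    intro b hb
    rw [← hspan]
    exact Submodule.subset_span ⟨b, hb, rfl⟩
  have htτ : ∀ b ∈ B, t b ≤ τ := by
    intro b hb
    have h1 : t b ≤ ∑ b ∈ B, t b :=
      Finset.single_le_sum (f := t) (fun i hi => (ht i hi).1) hb
    exact h1.trans ((le_max_left _ _).trans hτ1)
  refine ⟨B ∪ B.image (fun b => l - b), ?_, c / (2 * τ), by positivity, ?_⟩
  · intro y hy
    rw [Finset.mem_union] at hy
    rcases hy with hy | hy
    · refine ⟨hbR y hy, ?_⟩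
      obtain ⟨h1, h2⟩ := ht y hy
      have h3 : toR (e + y) = t y • u + (toR e + (toR y - t y • u)) := by
        rw [toR_add]
        abel
      rw [h3]
      exact h.add_mem (h.closure_smul h1 hu) (hC _ (by linarith))
    · obtain ⟨b, hb, rfl⟩ := Finset.mem_image.1 hy
      obtain ⟨h1, h2⟩ := ht b hb
      refine ⟨?_, ?_⟩
      · rw [toR_sub]
        exact R.sub_mem hlR (hbR b hb)
      · have h3 : toR (e + (l - b)) = (τ - t b) • u +
            (toR e + ((toR l - τ • u) - (toR b - t b • u))) := by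
          rw [toR_add, toR_sub, sub_smul]
          abel
        rw [h3]
        have h4 : ‖(toR l - τ • u) - (toR b - t b • u)‖ < 2 * δ := by
          have h5 := norm_sub_le (toR l - τ • u) (toR b - t b • u)
          linarith
        exact h.add_mem (h.closure_smul (sub_nonneg.2 (htτ b hb)) hu) (hC _ h4)
  · intro r hr hru
    rcases B.eq_empty_or_nonempty with hB0 | hBne
    · have h1 : r ∈ Submodule.span ℝ (toR '' (B : Set (Fin n → ℤ))) := by rw [hspan]; exact hr
      rw [hB0, Finset.coe_empty, Set.image_empty, Submodule.span_empty, Submodule.mem_bot] at h1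
      rw [h1]
      exact zero_mem_cone _
    · have hk : (0 : ℝ) < B.card := by exact_mod_cast hBne.card_pos
      have hsmall : ‖τ • r - toR l‖ < c := by
        have h1 : τ • r - toR l = τ • (r - u) - (toR l - τ • u) := by
          rw [smul_sub]
          abel
        have h2 : ‖τ • (r - u)‖ < c / 2 := by
          rw [norm_smul, Real.norm_eq_abs, abs_of_pos hτ0]
          have h3 := mul_lt_mul_of_pos_left hru hτ0
          have h4 : τ * (c / (2 * τ)) = c / 2 := by field_simp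
          rwa [h4] at h3
        rw [h1]
        have h5 := norm_sub_le (τ • (r - u)) (toR l - τ • u)
        linarith
      obtain ⟨a, ha1, ha2⟩ := hcoef (τ • r - toR l) (by
        rw [hspan]
        exact R.sub_mem (R.smul_mem _ hr) hlR) hsmall
      have hmain : ((B.card : ℝ) * τ) • r =
          ∑ b ∈ B, ((1 + (B.card : ℝ) * a b) • toR b + toR (l - b)) := by
        have h1 : τ • r = toR l + ∑ b ∈ B, a b • toR b := by
          rw [← ha2]
          abel
        have h2 : ∑ b ∈ B, ((1 + (B.card : ℝ) * a b) • toR b + toR (l - b)) =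
            ∑ b ∈ B, (toR l + (B.card : ℝ) • (a b • toR b)) := by
          apply Finset.sum_congr rfl
          intro b _
          rw [toR_sub, add_smul, one_smul, mul_smul]
          abel
        rw [h2, Finset.sum_add_distrib, Finset.sum_const, ← Finset.smul_sum, mul_smul, h1,
          smul_add, Nat.cast_smul_eq_nsmul]
      have hmem : ((B.card : ℝ) * τ) • r ∈ cone (B ∪ B.image (fun b => l - b)) := by
        rw [hmain]
        apply sum_mem_cone
        intro b hb
        apply cone_add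
        · apply cone_smul
          · have h1 := ha1 b hb
            have h2 : -((B.card : ℝ) * |a b|) ≤ (B.card : ℝ) * a b := by
              have := neg_abs_le (a b)
              nlinarith
            linarith
          · exact toR_mem_cone (Finset.mem_union_left _ hb)
        · exact toR_mem_cone (Finset.mem_union_right _ (Finset.mem_image_of_mem _ hb))
      have hkt : 0 < (B.card : ℝ) * τ := mul_pos hk hτ0
      have h1 := cone_smul (inv_nonneg.2 hkt.le) hmem
      rwa [smul_smul, inv_mul_cancel₀ hkt.ne', one_smul] at h1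

end Pool.Agent.H20.FV
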