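import Pool.Agent.H20.FV.Rq
import Pool.Agent.H20.FV.Ycon
import Pool.Agent.H20.FV.Dens
import Pool.Agent.H20.FV.Car

/-!
[H20 FV LOCF]  Local finiteness: the cone generated by the differences `w - e` is finitely generated.

Strong induction on `n`.  Let `W = {f integral | toR (e + f) ∈ C}`; the claim is: there is a finite `F ⊆ W` with
`W ⊆ cone F` (in the form `toR f ∈ cone F`).  Suppose not.  For `j : ℕ` the set `F_j = {f ∈ W | ‖toR f‖ ≤ j}` is finite
(bounded integral vectors), so there is `x_j ∈ W` with `toR x_j ∉ cone F_j`; then `x_j ∉ F_j`, so `‖toR x_j‖ > j`.  The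
unit vectors `toR x_j / ‖toR x_j‖` (`j ≥ 1`) have a subsequence `φ` converging to some `u`, `‖u‖ = 1`
(`isCompact_sphere`, `IsCompact.tendsto_subseq`).  `u ∈ closure C` since `(1/‖toR x_j‖) • toR (e + x_j) ∈ C` has the
same limit.  Take `R, δ0` from `recu u`, `Y, ρ` from `ycon`, and (`R = span (toR '' Near u δ0)`, `R ≠ ⊥` as
`u ∈ R`, `u ≠ 0`) `m < n`, `π` from `rq`.  Let `C' = π '' C`: it is an `IsOC` (open: a surjective linear map between
finite dimensional spaces is open, `LinearMap.isOpenMap_of_finiteDimensional`; the rest is clear).  Let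
`π (toR e) = toR e'`.  The induction hypothesis gives a finite set `F'` of integral `f'` with `toR (e' + f') ∈ C'` and
`toR w' - toR e' ∈ cone F'` for all integral `w'` with `toR w' ∈ C'`.
LIFT: for `f' ∈ F'`: `toR (e' + f') = π c` with `c ∈ C`, and there is an integral `s` with `π (toR s) = toR f'`, so
`toR (e + s) - c ∈ ker π = R`, and by `dens` there is an integral `m'` with `toR m' ∈ R`, `toR (e + s + m') ∈ C`.  Put
`λ(f') = s + m' ∈ W`; `π (toR λ(f')) = toR f'`.
Let `c` be the constant of `carb F'`.  For each `j`: `π (toR (e + x_j)) ∈ C'` is integral, so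
`π (toR x_j) ∈ cone F'`, `π (toR x_j) = ∑_{f' ∈ F'} a_{f'} toR f'`, `0 ≤ a_{f'} ≤ c ‖π (toR x_j)‖`.  Put
`r_j = toR x_j - ∑ a_{f'} toR λ(f') ∈ ker π = R`.  As `π (toR x_{φ j}) / ‖toR x_{φ j}‖ → π u = 0`, we have
`r_{φ j} / ‖toR x_{φ j}‖ → u`, so for large `j` it is in `cone Y`, and
`toR x_{φ j} = r_{φ j} + ∑ a_{f'} toR λ(f') ∈ cone (Y ∪ λ '' F')`.  The finite set `Y ∪ λ '' F'` is contained in `W`, so in
`F_{φ j}` for large `j` (`φ j ≥ j`), and `toR x_{φ j} ∈ cone F_{φ j}` (`cone_mono`): contradiction.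
-/

set_option autoImplicit false

open MeasureTheory
open scoped ENNReal

namespace Pool.Agent.H20.FV

open Pool.Agent.H57.KM

variable {n : ℕ}

private theorem locf_bdd (C : Set (V n)) (e : Fin n → ℤ) (j : ℕ) :
    ∃ F : Finset (Fin n → ℤ), ∀ f, f ∈ F ↔ (toR (e + f) ∈ C ∧ ‖toR f‖ ≤ (j : ℝ)) := by
  classical
  refine ⟨(Fintype.piFinset (fun _ : Fin n => Finset.Icc (-(j : ℤ)) j)).filter
    (fun f => toR (e + f) ∈ C ∧ ‖toR f‖ ≤ (j : ℝ)), fun f => ?_⟩
  rw [Finset.mem_filter]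
  constructor
  · exact fun h => h.2
  · intro h
    refine ⟨?_, h⟩
    rw [Fintype.mem_piFinset]
    intro i
    have h1 := (pi_norm_le_iff_of_nonneg (Nat.cast_nonneg j)).1 h.2 i
    rw [Real.norm_eq_abs, abs_le] at h1
    unfold toR at h1
    rw [Finset.mem_Icc]
    constructor
    · exact_mod_cast h1.1
    · exact_mod_cast h1.2

theorem locf : ∀ (n : ℕ) (C : Set (V n)), IsOC C → ∀ e : Fin n → ℤ, toR e ∈ C →
    ∃ F : Finset (Fin n → ℤ), (∀ f ∈ F, toR (e + f) ∈ C) ∧
      ∀ w : Fin n → ℤ, toR w ∈ C → toR w - toR e ∈ cone F := by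
  classical
  intro n
  induction n using Nat.strong_induction_on with
  | _ n ih =>
  intro C hC e he
  by_contra hcon
  push Not at hcon
  choose Fj hFj using locf_bdd C e
  have hx : ∀ j, ∃ x : Fin n → ℤ, toR (e + x) ∈ C ∧ toR x ∉ cone (Fj j) := by
    intro j
    obtain ⟨w, hw, hw2⟩ := hcon (Fj j) (fun f hf => ((hFj j f).1 hf).1)
    refine ⟨w - e, ?_, ?_⟩
    · have : e + (w - e) = w := by abel
      rw [this]; exact hw
    · rw [toR_sub]; exact hw2
  choose x hxC hxn using hx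
  have hnorm : ∀ j : ℕ, (j : ℝ) < ‖toR (x j)‖ := by
    intro j
    by_contra hle
    rw [not_lt] at hle
    exact hxn j (toR_mem_cone ((hFj j (x j)).2 ⟨hxC j, hle⟩))
  have hpos : ∀ j, 0 < ‖toR (x j)‖ := fun j => lt_of_le_of_lt (Nat.cast_nonneg j) (hnorm j)
  -- the limit direction
  have hsph : ∀ j, (‖toR (x j)‖)⁻¹ • toR (x j) ∈ Metric.sphere (0 : V n) 1 := by
    intro j
    rw [mem_sphere_zero_iff_norm, norm_smul, norm_inv, norm_norm]
    exact inv_mul_cancel₀ (hpos j).ne'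
  obtain ⟨u, hus, φ, hφ, hlim⟩ := (isCompact_sphere (0 : V n) 1).tendsto_subseq hsph
  have hu1 : ‖u‖ = 1 := mem_sphere_zero_iff_norm.1 hus
  have hu0 : u ≠ 0 := by
    intro h
    rw [h, norm_zero] at hu1
    exact zero_ne_one hu1
  have hinf : Filter.Tendsto (fun j => ‖toR (x (φ j))‖) Filter.atTop Filter.atTop := by
    refine Filter.tendsto_atTop_mono (fun j => ?_) tendsto_natCast_atTop_atTop
    have h1 : (j : ℝ) ≤ (φ j : ℝ) := by exact_mod_cast hφ.id_le j
    exact h1.trans (hnorm _).le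
  have hinv : Filter.Tendsto (fun j => (‖toR (x (φ j))‖)⁻¹) Filter.atTop (nhds 0) :=
    tendsto_inv_atTop_zero.comp hinf
  have hlim' : Filter.Tendsto (fun j => (‖toR (x (φ j))‖)⁻¹ • toR (x (φ j))) Filter.atTop (nhds u) :=
    hlim
  have hucl : u ∈ closure C := by
    have h1 : Filter.Tendsto (fun j => (‖toR (x (φ j))‖)⁻¹ • toR e
        + (‖toR (x (φ j))‖)⁻¹ • toR (x (φ j))) Filter.atTop (nhds u) := by
      have := (hinv.smul_const (toR e)).add hlim'
      rwa [zero_smul, zero_add] at this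
    refine mem_closure_of_tendsto h1 (Filter.Eventually.of_forall (fun j => ?_))
    have h2 := hC.smul _ (inv_pos.2 (hpos (φ j))) _ (hxC (φ j))
    rw [toR_add, smul_add] at h2
    exact h2
  obtain ⟨R, δ0, hδ0, huR, hR⟩ := recu u
  obtain ⟨Y, hY, ρ, hρ, hρY⟩ := ycon hC he hucl hδ0 huR hR
  have hRne : R ≠ ⊥ := by
    intro h
    rw [h, Submodule.mem_bot] at huR
    exact hu0 huR
  obtain ⟨m, hm, π, hπs, hker, hint, honto⟩ := rq (Near u δ0) R (hR δ0 hδ0 le_rfl).symm hRne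
  have hC' : IsOC (π '' C) := by
    refine ⟨hC.ne.image _, ?_, ?_, ?_⟩
    · exact (LinearMap.isOpenMap_of_finiteDimensional π hπs) C hC.op
    · rintro _ ⟨a, ha, rfl⟩ _ ⟨b, hb, rfl⟩
      exact ⟨a + b, hC.add a ha b hb, map_add π a b⟩
    · rintro t ht _ ⟨a, ha, rfl⟩
      exact ⟨t • a, hC.smul t ht a ha, map_smul π t a⟩
  obtain ⟨e', he'⟩ := hint e
  have he'C : toR e' ∈ π '' C := ⟨toR e, he, he'⟩
  obtain ⟨F', hF'C, hF'⟩ := ih m hm (π '' C) hC' e' he'C
  have hlift : ∀ f' ∈ F', ∃ l : Fin n → ℤ, toR (e + l) ∈ C ∧ π (toR l) = toR f' := by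
    intro f' hf'
    obtain ⟨c, hc, hcπ⟩ := hF'C f' hf'
    obtain ⟨s, hs⟩ := honto f'
    have h1 : toR (e + s) - c ∈ R := by
      rw [← hker, LinearMap.mem_ker, map_sub, hcπ, toR_add, map_add, he', hs, toR_add, sub_self]
    obtain ⟨m', hm'R, hm'C⟩ := dens hC hucl hδ0 hR hc h1
    refine ⟨s + m', ?_, ?_⟩
    · rw [← add_assoc]; exact hm'C
    · rw [← hker, LinearMap.mem_ker] at hm'R
      rw [toR_add, map_add, hs, hm'R, add_zero]
  choose! lam hlamC hlamπ using hlift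
  obtain ⟨c, hc0, hcarb⟩ := carb F'
  have hcone : ∀ j, π (toR (x j)) ∈ cone F' := by
    intro j
    obtain ⟨t, ht⟩ := hint (e + x j)
    have h1 : toR t ∈ π '' C := ⟨toR (e + x j), hxC j, ht⟩
    have h2 := hF' t h1
    have h3 : toR t - toR e' = π (toR (x j)) := by
      rw [← ht, ← he', toR_add, map_add]; abel
    rwa [h3] at h2
  choose a ha0 hac hay using fun j => hcarb (π (toR (x j))) (hcone j)
  have hrR : ∀ j, toR (x j) - ∑ s ∈ F', a j s • toR (lam s) ∈ R := by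
    intro j
    rw [← hker, LinearMap.mem_ker, map_sub, map_sum, sub_eq_zero]
    rw [hay j]
    refine Finset.sum_congr rfl (fun s hs => ?_)
    rw [map_smul, hlamπ s hs]
  -- the coefficients are small
  have hπu : Filter.Tendsto (fun j => ‖π ((‖toR (x (φ j))‖)⁻¹ • toR (x (φ j)))‖)
      Filter.atTop (nhds 0) := by
    have hcont : Continuous π := LinearMap.continuous_of_finiteDimensional π
    have h1 := ((hcont.tendsto u).comp hlim').norm
    have h2 : π u = 0 := by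
      rw [← LinearMap.mem_ker, hker]; exact huR
    rw [h2, norm_zero] at h1
    exact h1
  have hsmall : ∀ s, Filter.Tendsto (fun j => (‖toR (x (φ j))‖)⁻¹ * a (φ j) s)
      Filter.atTop (nhds 0) := by
    intro s
    have hb : Filter.Tendsto (fun j => c * ‖π ((‖toR (x (φ j))‖)⁻¹ • toR (x (φ j)))‖)
      Filter.atTop (nhds 0) := by
      have := hπu.const_mul c
      rwa [mul_zero] at this
    refine squeeze_zero (fun j => ?_) (fun j => ?_) hb
    · exact mul_nonneg (inv_nonneg.2 (norm_nonneg _)) (ha0 _ _)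
    · rw [map_smul, norm_smul, norm_inv, norm_norm]
      have h1 := mul_le_mul_of_nonneg_left (hac (φ j) s) (inv_nonneg.2 (norm_nonneg (toR (x (φ j)))))
      calc _ ≤ _ := h1
        _ = _ := by ring
  have hlimr : Filter.Tendsto (fun j => (‖toR (x (φ j))‖)⁻¹ •
      (toR (x (φ j)) - ∑ s ∈ F', a (φ j) s • toR (lam s))) Filter.atTop (nhds u) := by
    have h1 : Filter.Tendsto (fun j => ∑ s ∈ F', ((‖toR (x (φ j))‖)⁻¹ * a (φ j) s) • toR (lam s))
        Filter.atTop (nhds 0) := by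
      have h2 : Filter.Tendsto (fun j => ∑ s ∈ F', ((‖toR (x (φ j))‖)⁻¹ * a (φ j) s) • toR (lam s))
        Filter.atTop (nhds (∑ s ∈ F', (0 : ℝ) • toR (lam s))) :=
        tendsto_finsetSum _ (fun s _ => (hsmall s).smul_const _)
      simpa using h2
    have h3 := hlim'.sub h1
    rw [sub_zero] at h3
    refine h3.congr (fun j => ?_)
    rw [smul_sub, Finset.smul_sum]
    congr 1
    refine Finset.sum_congr rfl (fun s _ => ?_)
    rw [mul_smul]
  -- the finite set
  set Z : Finset (Fin n → ℤ) := Y ∪ F'.image lam with hZ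
  have hZC : ∀ z ∈ Z, toR (e + z) ∈ C := by
    intro z hz
    rw [hZ, Finset.mem_union, Finset.mem_image] at hz
    rcases hz with hz | ⟨f', hf', rfl⟩
    · exact (hY z hz).2
    · exact hlamC f' hf'
  obtain ⟨B, hB⟩ : ∃ B : ℕ, ∀ z ∈ Z, ‖toR z‖ ≤ (B : ℝ) := by
    obtain ⟨B, hB⟩ := exists_nat_ge (∑ z ∈ Z, ‖toR z‖)
    exact ⟨B, fun z hz => (Finset.single_le_sum (fun z _ => norm_nonneg (toR z)) hz).trans hB⟩
  have hev : ∀ᶠ j in Filter.atTop, ‖(‖toR (x (φ j))‖)⁻¹ •
      (toR (x (φ j)) - ∑ s ∈ F', a (φ j) s • toR (lam s)) - u‖ < ρ := by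
    have := Metric.tendsto_nhds.1 hlimr ρ hρ
    simpa only [dist_eq_norm] using this
  obtain ⟨j, hj1, hj2⟩ := (hev.and (Filter.eventually_ge_atTop B)).exists
  have hjφ : B ≤ φ j := hj2.trans (hφ.id_le j)
  have hsub : Z ⊆ Fj (φ j) := by
    intro z hz
    refine (hFj (φ j) z).2 ⟨hZC z hz, (hB z hz).trans ?_⟩
    exact_mod_cast hjφ
  apply hxn (φ j)
  apply cone_mono hsub
  have h1 : (‖toR (x (φ j))‖)⁻¹ • (toR (x (φ j)) - ∑ s ∈ F', a (φ j) s • toR (lam s)) ∈ cone Y :=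
    hρY _ (R.smul_mem _ (hrR (φ j))) hj1
  have h2 : toR (x (φ j)) - ∑ s ∈ F', a (φ j) s • toR (lam s) ∈ cone Z := by
    have h3 := cone_smul (hpos (φ j)).le h1
    rw [smul_smul, mul_inv_cancel₀ (hpos (φ j)).ne', one_smul] at h3
    exact cone_mono Finset.subset_union_left h3
  have h4 : ∑ s ∈ F', a (φ j) s • toR (lam s) ∈ cone Z := by
    refine sum_mem_cone F' _ (fun s hs => cone_smul (ha0 _ _) (toR_mem_cone ?_))
    rw [hZ]
    exact Finset.mem_union_right _ (Finset.mem_image_of_mem _ hs)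
  have h5 := cone_add h2 h4
  rwa [sub_add_cancel] at h5

end Pool.Agent.H20.FV
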