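import Pool.Agent.H20.FV.Phi

/-!
[H20 FV PACK]  A packing argument.

Suppose `I` is not in finitely many orbits.  Then there is an injective sequence `v_0, v_1, ...` in `I` of pairwise
inequivalent elements (`toR v_j ≠ act g (toR v_i)` for `g ∈ G`, `i ≠ j`): choose `v_k` in `I` outside the finitely many
orbits of `v_0, ..., v_{k-1}`.  For `v ∈ I`, `g ∈ G` let `g v` denote the element with `toR (g v) = act g (toR v)` (`act_toR`).
Fix `i`.  `G` is countable, so by `hcov`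
`c ≤ ∫⁻ x in E v_i, w x ≤ ∑_{g ∈ G} ∫⁻ x in E v_i ∩ act g '' T, w x` (`lintegral_iUnion_le`), and
`∫⁻ x in E v_i ∩ act g '' T, w = ∫⁻ x in act g '' (E (g⁻¹ v_i) ∩ T), w = ∫⁻ x in E (g⁻¹ v_i) ∩ T, w` (`act g` preserves the
volume (`volume_act`; it is a measure preserving homeomorphism) and `w`).  Each element of the orbit of `v_i` is `g⁻¹ v_i` for at most `m`
elements `g` of `G` (a coset of the stabilizer, `hm`), so `c ≤ m * ∑_{v ∈ G v_i} ∫⁻ x in E v ∩ T, w x` (`tsum` over the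
countable set `G v_i`).  Sum over `i < k`; the orbits are disjoint subsets of `I`:
`k c ≤ m ∑_{v ∈ I} ∫⁻ x in E v ∩ T, w x = m ∫⁻ x in T, (∑_{v ∈ I} 1_{E v}(x)) w x ≤ m N ∫⁻ x in T, w x`
(`lintegral_tsum`, `tsum` of indicators `≤ N` by `hN`).  The right side is finite and `c > 0`: contradiction for large `k`.
-/

set_option autoImplicit false

open MeasureTheory
open scoped ENNReal

namespace Pool.Agent.H20.FV

open Pool.Agent.H57.KM

variable {n : ℕ}

theorem pack_countable : Countable (GL (Fin n) ℤ) := by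
  have h1 : Countable (Matrix (Fin n) (Fin n) ℤ) := inferInstanceAs (Countable (Fin n → Fin n → ℤ))
  exact Function.Injective.countable (f := fun g : GL (Fin n) ℤ => (g : Matrix (Fin n) (Fin n) ℤ))
    Units.val_injective

theorem pack_count {α β : Type*} (P : Set α) (f : α → β) (Q : Set β) (N m : ℕ)
    (hQ : Q.encard ≤ N) (hf : ∀ p ∈ P, f p ∈ Q)
    (hm : ∀ q, {p | p ∈ P ∧ f p = q}.encard ≤ m) : P.encard ≤ (m * N : ℕ) := by
  classical
  by_contra h
  push Not at h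
  have h1 : ((m * N + 1 : ℕ) : ℕ∞) ≤ P.encard := by
    push_cast at h ⊢
    exact Order.add_one_le_of_lt h
  obtain ⟨t, htP, ht⟩ := Set.exists_subset_encard_eq h1
  have htf : t.Finite := Set.finite_of_encard_eq_coe ht
  have hQf : Q.Finite := Set.finite_of_encard_le_coe hQ
  have hQc : hQf.toFinset.card ≤ N := by
    have h2 := hQf.encard_eq_coe_toFinset_card
    rw [h2] at hQ
    exact_mod_cast hQ
  have htc : htf.toFinset.card = m * N + 1 := by
    have h2 := htf.encard_eq_coe_toFinset_card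
    rw [h2] at ht
    exact_mod_cast ht
  have h3 : htf.toFinset.card ≤ m * hQf.toFinset.card := by
    apply Finset.card_le_mul_card_image_of_maps_to (f := f)
    · intro a ha
      rw [Set.Finite.mem_toFinset] at ha ⊢
      exact hf a (htP ha)
    · intro b _
      have h4 : ((htf.toFinset.filter (fun a => f a = b) : Finset α) : Set α)
          ⊆ {p | p ∈ P ∧ f p = b} := by
        intro a ha
        rw [Finset.mem_coe, Finset.mem_filter, Set.Finite.mem_toFinset] at ha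
        exact ⟨htP ha.1, ha.2⟩
      have h5 := (Set.encard_le_encard h4).trans (hm b)
      rw [Set.encard_coe_eq_coe_finsetCard] at h5
      exact_mod_cast h5
  have h6 : m * hQf.toFinset.card ≤ m * N := Nat.mul_le_mul_left _ hQc
  omega

theorem pack_rep (G : Subgroup (GL (Fin n) ℤ)) (I : Set (Fin n → ℤ)) (h : ¬ FinOrb G I) (k : ℕ) :
    ∃ S : Finset (Fin n → ℤ), S.card = k ∧ (∀ v ∈ S, v ∈ I) ∧
      ∀ a ∈ S, ∀ b ∈ S, ∀ g ∈ G, toR a = act g (toR b) → a = b := by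
  classical
  induction k with
  | zero => exact ⟨∅, rfl, by simp, by simp⟩
  | succ k ih =>
    obtain ⟨S, hS, hSI, hSe⟩ := ih
    have h1 : ∃ v ∈ I, ∀ g ∈ G, ∀ f ∈ S, toR v ≠ act g (toR f) := by
      by_contra hcon
      push Not at hcon
      apply h
      refine ⟨(S : Set (Fin n → ℤ)), S.finite_toSet, fun v hv => ?_⟩
      obtain ⟨g, hg, f, hf, h2⟩ := hcon v hv
      exact ⟨g, hg, f, hf, h2⟩
    obtain ⟨v, hvI, hv⟩ := h1
    have hvS : v ∉ S := by
      intro h2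
      apply hv 1 G.one_mem v h2
      rw [act_one]
    refine ⟨insert v S, ?_, ?_, ?_⟩
    · rw [Finset.card_insert_of_notMem hvS, hS]
    · intro u hu
      rcases Finset.mem_insert.1 hu with rfl | hu
      · exact hvI
      · exact hSI u hu
    · intro a ha b hb g hg hab
      rcases Finset.mem_insert.1 ha with ha' | ha' <;> rcases Finset.mem_insert.1 hb with hb' | hb'
      · rw [ha', hb']
      · rw [ha'] at hab
        exact absurd hab (hv g hg b hb')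
      · exfalso
        apply hv g⁻¹ (G.inv_mem hg) a ha'
        rw [hab, act_inv_act, hb']
      · exact hSe a ha' b hb' g hg hab

/-- `act g` as a measurable embedding -/
theorem pack_emb (g : GL (Fin n) ℤ) : MeasurableEmbedding (act g : V n → V n) := by
  have h : Topology.IsClosedEmbedding (act g : V n → V n) := by
    let e : V n ≃ₜ V n :=
      { toFun := act g
        invFun := act g⁻¹
        left_inv := act_inv_act g
        right_inv := act_act_inv g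
        continuous_toFun := act_cont g
        continuous_invFun := act_cont g⁻¹ }
    exact e.isClosedEmbedding
  exact h.measurableEmbedding

theorem pack_mp (g : GL (Fin n) ℤ) : MeasurePreserving (act g : V n → V n) volume volume := by
  refine ⟨(act_cont g).measurable, ?_⟩
  ext A hA
  rw [Measure.map_apply (act_cont g).measurable hA]
  have h1 : act g ⁻¹' A = act g⁻¹ '' A := by
    ext x
    constructor
    · intro hx
      exact ⟨act g x, hx, act_inv_act g x⟩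
    · rintro ⟨y, hy, rfl⟩
      show act g (act g⁻¹ y) ∈ A
      rw [act_act_inv]
      exact hy
  rw [h1, volume_act]

theorem pack_int (g : GL (Fin n) ℤ) (w : V n → ℝ≥0∞) (hw : ∀ x, w (act g x) = w x)
    (A : Set (V n)) : ∫⁻ x in act g '' A, w x = ∫⁻ x in A, w x := by
  rw [← (pack_mp g).setLIntegral_comp_emb (pack_emb g) w A]
  simp only [hw]

/-- the action on integral vectors -/
def packA (g : GL (Fin n) ℤ) (v : Fin n → ℤ) : Fin n → ℤ :=
  (g : Matrix (Fin n) (Fin n) ℤ).mulVec v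

theorem toR_packA (g : GL (Fin n) ℤ) (v : Fin n → ℤ) : toR (packA g v) = act g (toR v) :=
  (act_toR g v).symm

theorem pack_fiber (G : Subgroup (GL (Fin n) ℤ)) (I : Set (Fin n → ℤ)) (m : ℕ)
    (hm : ∀ v ∈ I, {g | g ∈ G ∧ act g (toR v) = toR v}.encard ≤ m)
    (S : Finset (Fin n → ℤ)) (hSI : ∀ v ∈ S, v ∈ I)
    (hSe : ∀ a ∈ S, ∀ b ∈ S, ∀ g ∈ G, toR a = act g (toR b) → a = b)
    (P : Set ({v // v ∈ S} × G)) (u : Fin n → ℤ) :
    {p : {v // v ∈ S} × G | p ∈ P ∧ packA (p.2 : GL (Fin n) ℤ)⁻¹ p.1.1 = u}.encard ≤ m := by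
  by_cases hne : ∃ p0 : {v // v ∈ S} × G, packA (p0.2 : GL (Fin n) ℤ)⁻¹ p0.1.1 = u
  · obtain ⟨⟨v0, g0⟩, h0⟩ := hne
    refine le_trans ?_ (hm v0.1 (hSI v0.1 v0.2))
    have key : ∀ p : {v // v ∈ S} × G, packA (p.2 : GL (Fin n) ℤ)⁻¹ p.1.1 = u →
        p.1 = v0 ∧ act ((p.2 : GL (Fin n) ℤ) * (g0 : GL (Fin n) ℤ)⁻¹) (toR v0.1) = toR v0.1 := by
      rintro ⟨v, g⟩ hp
      have h1 : act (g : GL (Fin n) ℤ)⁻¹ (toR v.1) = act (g0 : GL (Fin n) ℤ)⁻¹ (toR v0.1) := by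
        rw [← toR_packA, ← toR_packA]
        have h2 : packA (g : GL (Fin n) ℤ)⁻¹ v.1 = packA (g0 : GL (Fin n) ℤ)⁻¹ v0.1 :=
          hp.trans h0.symm
        rw [h2]
      have h3 : toR v.1 = act ((g : GL (Fin n) ℤ) * (g0 : GL (Fin n) ℤ)⁻¹) (toR v0.1) := by
        rw [act_mul, ← h1, act_act_inv]
      have h4 : v.1 = v0.1 := hSe v.1 v.2 v0.1 v0.2 _ (G.mul_mem g.2 (G.inv_mem g0.2)) h3
      refine ⟨Subtype.ext h4, ?_⟩
      show act ((g : GL (Fin n) ℤ) * (g0 : GL (Fin n) ℤ)⁻¹) (toR v0.1) = toR v0.1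
      rw [← h3, h4]
    apply Set.encard_le_encard_of_injOn
      (f := fun p : {v // v ∈ S} × G => (p.2 : GL (Fin n) ℤ) * (g0 : GL (Fin n) ℤ)⁻¹)
    · rintro p ⟨_, hp⟩
      exact ⟨G.mul_mem p.2.2 (G.inv_mem g0.2), (key p hp).2⟩
    · rintro p ⟨_, hp⟩ q ⟨_, hq⟩ hpq
      have h1 : (p.2 : GL (Fin n) ℤ) = (q.2 : GL (Fin n) ℤ) := mul_right_cancel hpq
      exact Prod.ext ((key p hp).1.trans (key q hq).1.symm) (Subtype.ext h1)
  · have h1 : {p : {v // v ∈ S} × G | p ∈ P ∧ packA (p.2 : GL (Fin n) ℤ)⁻¹ p.1.1 = u} = ∅ := by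
      ext p
      simp only [Set.mem_ofPred_eq, Set.mem_empty_iff_false, iff_false]
      rintro ⟨_, h2⟩
      exact hne ⟨p, h2⟩
    rw [h1, Set.encard_empty]
    exact bot_le

theorem pack_one (G : Subgroup (GL (Fin n) ℤ)) (I : Set (Fin n → ℤ))
    (hI : ∀ g ∈ G, ∀ v ∈ I, ∀ v', toR v' = act g (toR v) → v' ∈ I)
    (E : (Fin n → ℤ) → Set (V n))
    (hEg : ∀ g ∈ G, ∀ v ∈ I, ∀ v', toR v' = act g (toR v) → E v' = act g '' E v)
    (w : V n → ℝ≥0∞) (hw : ∀ g ∈ G, ∀ x, w (act g x) = w x)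
    (c : ℝ≥0∞) (hcE : ∀ v ∈ I, c ≤ ∫⁻ x in E v, w x)
    (T : Set (V n)) (hcov : ∀ v ∈ I, E v ⊆ ⋃ g ∈ G, act g '' T)
    (v : Fin n → ℤ) (hv : v ∈ I) :
    c ≤ ∑' g : G, ∫⁻ x in E (packA (g : GL (Fin n) ℤ)⁻¹ v) ∩ T, w x := by
  have hcount : Countable (GL (Fin n) ℤ) := pack_countable
  have h1 : E v ⊆ ⋃ g : G, act (g : GL (Fin n) ℤ) ''
      (E (packA (g : GL (Fin n) ℤ)⁻¹ v) ∩ T) := by
    intro x hx
    have h2 := hcov v hv hx
    simp only [Set.mem_iUnion] at h2 ⊢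
    obtain ⟨g, hg, y, hy, rfl⟩ := h2
    refine ⟨⟨g, hg⟩, y, ⟨?_, hy⟩, rfl⟩
    have h3 := hEg g⁻¹ (G.inv_mem hg) v hv _ (toR_packA g⁻¹ v)
    rw [h3]
    exact ⟨act g y, hx, act_inv_act g y⟩
  refine (hcE v hv).trans ((lintegral_mono_set h1).trans ((lintegral_iUnion_le _ _).trans ?_))
  apply le_of_eq
  congr 1
  funext g
  exact pack_int _ w (hw _ g.2) _

theorem pack (G : Subgroup (GL (Fin n) ℤ)) (I : Set (Fin n → ℤ))
    (hI : ∀ g ∈ G, ∀ v ∈ I, ∀ v', toR v' = act g (toR v) → v' ∈ I)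
    (E : (Fin n → ℤ) → Set (V n)) (hEm : ∀ v ∈ I, MeasurableSet (E v))
    (hEg : ∀ g ∈ G, ∀ v ∈ I, ∀ v', toR v' = act g (toR v) → E v' = act g '' E v)
    (N : ℕ) (hN : ∀ x, {v | v ∈ I ∧ x ∈ E v}.encard ≤ N)
    (w : V n → ℝ≥0∞) (hwm : Measurable w) (hw : ∀ g ∈ G, ∀ x, w (act g x) = w x)
    (c : ℝ≥0∞) (hc : 0 < c) (hcE : ∀ v ∈ I, c ≤ ∫⁻ x in E v, w x)
    (m : ℕ) (hm : ∀ v ∈ I, {g | g ∈ G ∧ act g (toR v) = toR v}.encard ≤ m)
    (T : Set (V n)) (hT : MeasurableSet T) (hcov : ∀ v ∈ I, E v ⊆ ⋃ g ∈ G, act g '' T)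
    (hfin : ∫⁻ x in T, w x ≠ ∞) : FinOrb G I := by
  classical
  by_contra hcon
  have hcount : Countable (GL (Fin n) ℤ) := pack_countable
  obtain ⟨k, hk⟩ := ENNReal.exists_nat_mul_gt (a := c)
    (b := (m * N : ℕ) * ∫⁻ x in T, w x) hc.ne' (ENNReal.mul_ne_top (ENNReal.natCast_ne_top _) hfin)
  obtain ⟨S, hS, hSI, hSe⟩ := pack_rep G I hcon k
  have h1 : (k : ℝ≥0∞) * c ≤ ∑' p : {v // v ∈ S} × G,
      ∫⁻ x in E (packA (p.2 : GL (Fin n) ℤ)⁻¹ p.1.1) ∩ T, w x := by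
    rw [ENNReal.tsum_prod', tsum_fintype]
    have h2 : (k : ℝ≥0∞) * c = ∑ v : {v // v ∈ S}, c := by
      rw [Finset.sum_const, Finset.card_univ, Fintype.card_coe, hS, nsmul_eq_mul]
    rw [h2]
    apply Finset.sum_le_sum
    intro v _
    exact pack_one G I hI E hEg w hw c hcE T hcov v.1 (hSI v.1 v.2)
  have hIp : ∀ p : {v // v ∈ S} × G, packA (p.2 : GL (Fin n) ℤ)⁻¹ p.1.1 ∈ I := fun p =>
    hI _ (G.inv_mem p.2.2) _ (hSI _ p.1.2) _ (toR_packA _ _)
  have h3 : ∑' p : {v // v ∈ S} × G,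
      ∫⁻ x in E (packA (p.2 : GL (Fin n) ℤ)⁻¹ p.1.1) ∩ T, w x
      = ∫⁻ x in T, ∑' p : {v // v ∈ S} × G,
        (E (packA (p.2 : GL (Fin n) ℤ)⁻¹ p.1.1)).indicator w x := by
    rw [lintegral_tsum]
    · congr 1
      funext p
      have hm1 := hEm _ (hIp p)
      rw [lintegral_indicator hm1, Measure.restrict_restrict hm1]
    · intro p
      exact (hwm.indicator (hEm _ (hIp p))).aemeasurable
  have h4 : ∀ x, ∑' p : {v // v ∈ S} × G,
      (E (packA (p.2 : GL (Fin n) ℤ)⁻¹ p.1.1)).indicator w x ≤ (m * N : ℕ) * w x := by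
    intro x
    let P : Set ({v // v ∈ S} × G) := {p | x ∈ E (packA (p.2 : GL (Fin n) ℤ)⁻¹ p.1.1)}
    have h5 : P.encard ≤ (m * N : ℕ) := by
      apply pack_count P (fun p => packA (p.2 : GL (Fin n) ℤ)⁻¹ p.1.1)
        {v | v ∈ I ∧ x ∈ E v} N m (hN x)
      · intro p hp
        exact ⟨hIp p, hp⟩
      · intro u
        exact pack_fiber G I m hm S hSI hSe P u
    have h6 : ∑' p : {v // v ∈ S} × G,
        (E (packA (p.2 : GL (Fin n) ℤ)⁻¹ p.1.1)).indicator w x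
        = ∑' p : {v // v ∈ S} × G, P.indicator (fun _ => w x) p := by
      congr 1
    rw [h6, ← tsum_subtype, ENNReal.tsum_const]
    apply mul_le_mul_left
    have h7 : (ENat.card P : ℕ∞) = P.encard := rfl
    rw [h7]
    have h8 : ((P.encard : ℕ∞) : ℝ≥0∞) ≤ (((m * N : ℕ) : ℕ∞) : ℝ≥0∞) := by
      exact_mod_cast h5
    simpa using h8
  have h9 : (k : ℝ≥0∞) * c ≤ (m * N : ℕ) * ∫⁻ x in T, w x := by
    rw [h3] at h1
    refine h1.trans ?_
    rw [← lintegral_const_mul _ hwm]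
    exact lintegral_mono h4
  exact absurd hk (not_lt.2 h9)

end Pool.Agent.H20.FV
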