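import Pool.Agent.H20.FV.Basic

/-!
[H20 FV RQ]  The quotient by a rational subspace, in coordinates.

Let `M = {s : Fin n → ℤ | toR s ∈ R}`, a `ℤ`-submodule of `ℤ^n`.  `ℤ^n / M` is finitely generated and torsion free (if
`k • s ∈ M`, `k ≠ 0`, then `toR s = k⁻¹ • toR (k • s) ∈ R`), so free (`Module.Free` over a PID:
`Module.free_of_finite_type_torsion_free'`); let `m` be its rank and `q : (Fin n → ℤ) →ₗ[ℤ] (Fin m → ℤ)` the surjective
map with kernel `M` (compose `Submodule.mkQ` with the equivalence given by a basis, `Module.finBasis`).  Let `π` be the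
real linear map with the same (integral) matrix: `π x = ∑ i, x i • toR (q (Pi.single i 1))`.  Then
`π (toR s) = toR (q s)` for all `s`, so `π` maps integral vectors to integral vectors, onto all integral vectors; so
its range contains the unit vectors: `π` is surjective.  `S ⊆ M` (if `s ∈ S` then `toR s ∈ R`) so `R ≤ ker π`.
Dimension: `finrank ker π = n - m` (rank-nullity, surjectivity).  `M` is free of rank `n - m`
(`Submodule.finrank_quotient_add_finrank` or `rank_quotient_add_rank` over `ℤ`); the images under `toR` of a `ℤ`-basis of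
`M` are linearly independent over `ℝ` (integral vectors which are linearly independent over `ℤ` are so over `ℝ`:
`LinearIndependent` and `Pi`/matrix rank or `IsFractionRing` to `ℚ` and base change to `ℝ`; Mathlib has
`LinearIndependent.restrict_scalars`, `linearIndependent_rat...`; alternatively extend `ℤ`-bases: since `ℤ^n / M` is free
there is a section of `q`, `ℤ^n = M ⊕ section (ℤ^m)`, so a `ℤ`-basis of `ℤ^n` consisting of a basis of `M` and `m` further
vectors; its image under `toR` spans `ℝ^n` (it spans the unit vectors), and has `n` elements, so it is a basis of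
`ℝ^n`).  They lie in `R`, so `finrank R ≥ n - m = finrank ker π`, and `R = ker π`
(`Submodule.eq_of_le_of_finrank_le`).  `m < n`: `R ≠ ⊥`, so `finrank (ker π) ≥ 1`.
-/

set_option autoImplicit false

open MeasureTheory
open scoped ENNReal

namespace Pool.Agent.H20.FV

open Pool.Agent.H57.KM

variable {n : ℕ}

theorem rq (S : Set (Fin n → ℤ)) (R : Submodule ℝ (V n)) (hR : R = Submodule.span ℝ (toR '' S))
    (h0 : R ≠ ⊥) :
    ∃ m, m < n ∧ ∃ π : V n →ₗ[ℝ] V m, Function.Surjective π ∧ LinearMap.ker π = R ∧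
      (∀ s : Fin n → ℤ, ∃ t : Fin m → ℤ, π (toR s) = toR t) ∧
      ∀ t : Fin m → ℤ, ∃ s : Fin n → ℤ, π (toR s) = toR t := by
  classical
  -- the submodule of the integral points of `R`
  obtain ⟨M, hM⟩ : ∃ M : Submodule ℤ (Fin n → ℤ), ∀ s, s ∈ M ↔ toR s ∈ R :=
    ⟨{ carrier := {s | toR s ∈ R}
       add_mem' := by
         intro a b ha hb
         rw [Set.mem_ofPred_eq, toR_add]
         exact R.add_mem ha hb
       zero_mem' := by
         rw [Set.mem_ofPred_eq, toR_zero]
         exact R.zero_mem
       smul_mem' := by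
         intro k a ha
         rw [Set.mem_ofPred_eq, toR_smul]
         exact R.smul_mem _ ha }, fun _ => Iff.rfl⟩
  have htf : Module.IsTorsionFree ℤ ((Fin n → ℤ) ⧸ M) := by
    rw [Module.isTorsionFree_iff_smul_eq_zero]
    intro k x hx
    by_cases hk : k = 0
    · exact Or.inl hk
    right
    obtain ⟨s, rfl⟩ := M.mkQ_surjective x
    rw [← map_smul, Submodule.mkQ_apply, Submodule.Quotient.mk_eq_zero, hM, toR_smul] at hx
    rw [Submodule.mkQ_apply, Submodule.Quotient.mk_eq_zero, hM]
    have h1 := R.smul_mem ((k : ℝ)⁻¹) hx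
    rwa [smul_smul, inv_mul_cancel₀ (by exact_mod_cast hk), one_smul] at h1
  have hfree : Module.Free ℤ ((Fin n → ℤ) ⧸ M) := Module.free_of_finite_type_torsion_free'
  obtain ⟨m, hm⟩ : ∃ m, m = Module.finrank ℤ ((Fin n → ℤ) ⧸ M) := ⟨_, rfl⟩
  obtain ⟨q, hqs, hqk⟩ : ∃ q : (Fin n → ℤ) →ₗ[ℤ] (Fin m → ℤ), Function.Surjective q ∧
      ∀ s, q s = 0 ↔ s ∈ M := by
    subst hm
    refine ⟨(Module.finBasis ℤ ((Fin n → ℤ) ⧸ M)).equivFun.toLinearMap ∘ₗ M.mkQ, ?_, ?_⟩
    · intro y
      obtain ⟨x, hx⟩ := (Module.finBasis ℤ ((Fin n → ℤ) ⧸ M)).equivFun.surjective y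
      obtain ⟨s, hs⟩ := M.mkQ_surjective x
      exact ⟨s, by rw [LinearMap.comp_apply, hs]; exact hx⟩
    · intro s
      rw [LinearMap.comp_apply, LinearEquiv.coe_coe, LinearEquiv.map_eq_zero_iff,
        Submodule.mkQ_apply, Submodule.Quotient.mk_eq_zero]
  have hsum : ∀ {k : ℕ} (s : Fin k → ℤ), s = ∑ i, s i • (Pi.single i (1 : ℤ) : Fin k → ℤ) := by
    intro k s
    funext j
    rw [Finset.sum_apply, Finset.sum_eq_single j]
    · simp
    · intro i _ hij
      simp [Pi.single_eq_of_ne (Ne.symm hij)]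
    · intro h
      exact absurd (Finset.mem_univ j) h
  have hsumR : ∀ {k : ℕ} (x : V k), x = ∑ i, x i • toR (Pi.single i (1 : ℤ) : Fin k → ℤ) := by
    intro k x
    funext j
    rw [Finset.sum_apply, Finset.sum_eq_single j]
    · simp [toR]
    · intro i _ hij
      simp [toR, Pi.single_eq_of_ne (Ne.symm hij)]
    · intro h
      exact absurd (Finset.mem_univ j) h
  obtain ⟨π, hπ⟩ : ∃ π : V n →ₗ[ℝ] V m, ∀ s, π (toR s) = toR (q s) := by
    refine ⟨Fintype.linearCombination ℝ (fun i => toR (q (Pi.single i 1))), fun s => ?_⟩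
    rw [Fintype.linearCombination_apply]
    conv_rhs => rw [hsum s]
    rw [map_sum, toR_sum]
    refine Finset.sum_congr rfl fun i _ => ?_
    rw [map_smul, toR_smul]
    rfl
  choose σ hσ using fun j : Fin m => hqs (Pi.single j 1)
  obtain ⟨T, hT⟩ : ∃ T : V m →ₗ[ℝ] V n, ∀ y, T y = ∑ j, y j • toR (σ j) :=
    ⟨Fintype.linearCombination ℝ (fun j => toR (σ j)), fun y => Fintype.linearCombination_apply _ _ _⟩
  have hsurj : Function.Surjective π := by
    intro y
    refine ⟨T y, ?_⟩
    rw [hT, map_sum]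
    conv_rhs => rw [hsumR y]
    refine Finset.sum_congr rfl fun j _ => ?_
    rw [map_smul, hπ, hσ]
  have hker : LinearMap.ker π = R := by
    apply le_antisymm
    · intro x hx
      rw [LinearMap.mem_ker] at hx
      have key : ∀ x : V n, x - T (π x) ∈ R := by
        intro x
        have h1 : x - T (π x) = ∑ i, x i • (toR (Pi.single i (1 : ℤ) : Fin n → ℤ) -
            T (π (toR (Pi.single i (1 : ℤ) : Fin n → ℤ)))) := by
          have h2 : x - T (π x) = ((LinearMap.id : V n →ₗ[ℝ] V n) - T ∘ₗ π) x := rfl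
          rw [h2]
          conv_lhs => rw [hsumR x]
          rw [map_sum]
          refine Finset.sum_congr rfl fun i _ => ?_
          rw [map_smul]
          rfl
        rw [h1]
        refine R.sum_mem fun i _ => R.smul_mem _ ?_
        have h3 : toR (Pi.single i (1 : ℤ) : Fin n → ℤ) -
            T (π (toR (Pi.single i (1 : ℤ) : Fin n → ℤ))) =
            toR ((Pi.single i (1 : ℤ) : Fin n → ℤ) -
              ∑ j, q (Pi.single i (1 : ℤ)) j • σ j) := by
          rw [toR_sub, hπ, hT, toR_sum]
          congr 1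
          refine Finset.sum_congr rfl fun j _ => ?_
          rw [toR_smul]
          rfl
        rw [h3, ← hM, ← hqk, map_sub, map_sum, sub_eq_zero]
        conv_lhs => rw [hsum (q (Pi.single i (1 : ℤ)))]
        refine Finset.sum_congr rfl fun j _ => ?_
        rw [map_smul, hσ]
      have h1 := key x
      rw [hx, map_zero, sub_zero] at h1
      exact h1
    · rw [hR, Submodule.span_le]
      rintro _ ⟨s, hs, rfl⟩
      rw [SetLike.mem_coe, LinearMap.mem_ker, hπ]
      have h1 : s ∈ M := by
        rw [hM, hR]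
        exact Submodule.subset_span ⟨s, hs, rfl⟩
      rw [(hqk s).2 h1, toR_zero]
  refine ⟨m, ?_, π, hsurj, hker, fun s => ⟨q s, hπ s⟩, fun t => ?_⟩
  · have h1 := LinearMap.finrank_range_add_finrank_ker π
    rw [LinearMap.range_eq_top.2 hsurj, finrank_top, Module.finrank_fintype_fun_eq_card,
      Module.finrank_fintype_fun_eq_card, Fintype.card_fin, Fintype.card_fin, hker] at h1
    have h2 : 0 < Module.finrank ℝ R := by
      rw [Nat.pos_iff_ne_zero]
      intro h
      exact h0 (Submodule.finrank_eq_zero.1 h)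
    omega
  · obtain ⟨s, hs⟩ := hqs t
    exact ⟨s, by rw [hπ, hs]⟩

end Pool.Agent.H20.FV
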