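import Pool.Agent.H20.FV.Car
import Pool.Agent.H20.FV.Core

/-!
[H20 FV SIMP]  A finitely generated cone is a union of simplicial cones of full dimension with generators in
`closure C`.

Let `y ∈ cone S`.  By `car` there is `T ⊆ S` with `toR` linearly independent on `T` and `y ∈ cone T`.  `C` is open, so
`toR '' {s | toR s ∈ C}` spans `V n` (`C` contains a ball around a rational point; scaled: an integral point `x0` of `C` and
`N` with `N • x0 + unit vectors` in `C`; these vectors span together with `x0`).  Extend `T` by integral points of `C` to a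
basis: there is a maximal linearly independent set `T'`, `toR '' T ⊆ T' ⊆ toR '' (T ∪ {s | toR s ∈ C})`
(`exists_linearIndependent_extension` or `LinearIndepOn.extend`), it spans the span of the big set, everything, so it has
`n` elements; enumerate it as `i ↦ toR (p_T i)`.  So for each of the finitely many `T ⊆ S` with `toR` linearly independent
on `T` choose one such `p_T : Fin n → Fin n → ℤ`, whose values contain `T`; `cone T ⊆ scone p_T`: for
`y = ∑_{s ∈ T} c_s toR s` take `t i = c (p_T i)` if `p_T i ∈ T` and `0` otherwise (`p_T` is injective).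
`𝒫` = the set of these `p_T`.
-/

set_option autoImplicit false

open MeasureTheory
open scoped ENNReal

namespace Pool.Agent.H20.FV

open Pool.Agent.H57.KM

variable {n : ℕ}

theorem span_int {C : Set (V n)} (h : IsAmp C) :
    Submodule.span ℝ {v : V n | ∃ s : Fin n → ℤ, toR s ∈ closure C ∧ v = toR s} = ⊤ := by
  obtain ⟨x0, hx0⟩ := h.exists_int
  have hx0s : (toR x0 : V n) ∈ Submodule.span ℝ
      {v : V n | ∃ s : Fin n → ℤ, toR s ∈ closure C ∧ v = toR s} :=
    Submodule.subset_span ⟨x0, subset_closure hx0, rfl⟩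
  have key : ∀ i : Fin n, (toR (Pi.single i (1 : ℤ)) : V n) ∈ Submodule.span ℝ
      {v : V n | ∃ s : Fin n → ℤ, toR s ∈ closure C ∧ v = toR s} := by
    intro i
    obtain ⟨e, he⟩ : ∃ e : Fin n → ℤ, e = Pi.single i (1 : ℤ) := ⟨_, rfl⟩
    rw [← he]
    obtain ⟨ε, hε, h1⟩ := h.oc.exists_sub hx0 (-toR e)
    have h2 : (1 / ε) • (toR x0 - ε • (-toR e)) ∈ C := h.smul _ (by positivity) _ h1
    have h3 : (1 / ε) • (toR x0 - ε • (-toR e)) = (1 / ε) • toR x0 + toR e := by
      rw [smul_sub, smul_neg, smul_neg, smul_smul, one_div, inv_mul_cancel₀ hε.ne', one_smul,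
        sub_neg_eq_add]
    rw [h3] at h2
    obtain ⟨N, hN⟩ := exists_nat_ge (1 / ε)
    have h4 : toR ((N : ℤ) • x0 + e) ∈ C := by
      have h5 := h.oc.add_mem' h2
        (h.oc.closure_smul (sub_nonneg.2 hN) (subset_closure hx0) : ((N : ℝ) - 1 / ε) • toR x0 ∈ closure C)
      have h6 : toR ((N : ℤ) • x0 + e) = (1 / ε) • toR x0 + toR e + ((N : ℝ) - 1 / ε) • toR x0 := by
        rw [toR_add, toR_smul, sub_smul]
        push_cast
        abel
      rw [h6]
      exact h5
    have h7 : (toR ((N : ℤ) • x0 + e) : V n) ∈ Submodule.span ℝ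
        {v : V n | ∃ s : Fin n → ℤ, toR s ∈ closure C ∧ v = toR s} :=
      Submodule.subset_span ⟨_, subset_closure h4, rfl⟩
    have h8 : (toR e : V n) = toR ((N : ℤ) • x0 + e) - (N : ℝ) • toR x0 := by
      rw [toR_add, toR_smul]
      push_cast
      abel
    rw [h8]
    exact Submodule.sub_mem _ h7 (Submodule.smul_mem _ _ hx0s)
  rw [Submodule.eq_top_iff']
  intro v
  have hv : v = ∑ i, v i • (toR (Pi.single i (1 : ℤ)) : V n) := by
    funext j
    rw [Finset.sum_apply, Finset.sum_eq_single j]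
    · simp [toR]
    · intro i _ hij
      simp [toR, hij.symm]
    · intro hj
      exact absurd (Finset.mem_univ j) hj
  rw [hv]
  exact Submodule.sum_mem _ fun i _ => Submodule.smul_mem _ _ (key i)

theorem simp_ext {C : Set (V n)} (h : IsAmp C) (T : Finset (Fin n → ℤ))
    (hT : ∀ s ∈ T, toR s ∈ closure C)
    (hli : LinearIndependent ℝ (fun s : T => (toR (s : Fin n → ℤ) : V n))) :
    ∃ p : Fin n → Fin n → ℤ, LinearIndependent ℝ (fun i => (toR (p i) : V n)) ∧
      (∀ i, toR (p i) ∈ closure C) ∧ ∀ s ∈ T, ∃ i, p i = s := by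
  have hli' : LinearIndepOn ℝ id (Set.range (fun s : T => (toR (s : Fin n → ℤ) : V n))) :=
    hli.linearIndepOn_id
  have hsub : Set.range (fun s : T => (toR (s : Fin n → ℤ) : V n)) ⊆
      {v : V n | ∃ s : Fin n → ℤ, toR s ∈ closure C ∧ v = toR s} := by
    rintro v ⟨s, rfl⟩
    exact ⟨s, hT s s.2, rfl⟩
  obtain ⟨b, hb⟩ : ∃ b : Module.Basis (hli'.extend hsub) ℝ (V n), ⇑b = ((↑) : _ → V n) :=
    ⟨Module.Basis.extendLe hli' hsub (span_int h).ge, Module.Basis.coe_extendLe hli' hsub (span_int h).ge⟩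
  obtain ⟨e⟩ : Nonempty (Fin n ≃ hli'.extend hsub) := ⟨(Pi.basisFun ℝ (Fin n)).indexEquiv b⟩
  have h1 : ∀ i : Fin n, ∃ s : Fin n → ℤ, toR s ∈ closure C ∧ ((e i : V n)) = toR s := fun i =>
    hli'.extend_subset hsub (e i).2
  choose p hp1 hp2 using h1
  refine ⟨p, ?_, hp1, ?_⟩
  · have h2 : (fun i => (toR (p i) : V n)) = b ∘ e := by
      funext i
      rw [Function.comp_apply, hb, ← hp2 i]
    rw [h2]
    exact b.linearIndependent.comp e e.injective
  · intro s hs
    have h3 : (toR s : V n) ∈ hli'.extend hsub := hli'.subset_extend hsub ⟨⟨s, hs⟩, rfl⟩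
    refine ⟨e.symm ⟨toR s, h3⟩, ?_⟩
    apply toR_inj
    rw [← hp2, Equiv.apply_symm_apply]

theorem simp_cover {C : Set (V n)} (h : IsAmp C) (S : Finset (Fin n → ℤ))
    (hS : ∀ s ∈ S, toR s ∈ closure C) :
    ∃ P : Finset (Fin n → Fin n → ℤ),
      (∀ p ∈ P, LinearIndependent ℝ (fun i => (toR (p i) : V n)) ∧ ∀ i, toR (p i) ∈ closure C) ∧
      ∀ y ∈ cone S, ∃ p ∈ P, y ∈ scone p := by
  classical
  have h1 : ∀ T : Finset (Fin n → ℤ), ∃ p : Fin n → Fin n → ℤ, T ⊆ S →
      LinearIndependent ℝ (fun s : T => (toR (s : Fin n → ℤ) : V n)) →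
      LinearIndependent ℝ (fun i => (toR (p i) : V n)) ∧
      (∀ i, toR (p i) ∈ closure C) ∧ ∀ s ∈ T, ∃ i, p i = s := by
    intro T
    by_cases hT : T ⊆ S ∧ LinearIndependent ℝ (fun s : T => (toR (s : Fin n → ℤ) : V n))
    · obtain ⟨p, hp⟩ := simp_ext h T (fun s hs => hS s (hT.1 hs)) hT.2
      exact ⟨p, fun _ _ => hp⟩
    · exact ⟨0, fun ha hb => absurd ⟨ha, hb⟩ hT⟩
  choose f hf using h1
  refine ⟨(S.powerset.filter fun (T : Finset (Fin n → ℤ)) =>
    LinearIndependent ℝ (fun s : T => (toR (s : Fin n → ℤ) : V n))).image f, ?_, ?_⟩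
  · intro p hp
    rw [Finset.mem_image] at hp
    obtain ⟨T, hT, rfl⟩ := hp
    rw [Finset.mem_filter, Finset.mem_powerset] at hT
    exact ⟨(hf T hT.1 hT.2).1, (hf T hT.1 hT.2).2.1⟩
  · intro y hy
    obtain ⟨T, hTS, hli, hyT⟩ := car S hy
    obtain ⟨hf1, -, hf3⟩ := hf T hTS hli
    refine ⟨f T, Finset.mem_image_of_mem _
      (Finset.mem_filter.2 ⟨Finset.mem_powerset.2 hTS, hli⟩), ?_⟩
    obtain ⟨c, hc, rfl⟩ := hyT
    have hinj : Function.Injective (f T) := by
      intro i j hij
      apply hf1.injective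
      simp only [hij]
    refine ⟨fun i => if f T i ∈ T then c (f T i) else 0, fun i => ?_, ?_⟩
    · dsimp only
      split_ifs
      · exact hc _
      · exact le_rfl
    · have h2 : T = (Finset.univ.filter fun i => f T i ∈ T).image (f T) := by
        ext s
        rw [Finset.mem_image]
        constructor
        · intro hs
          obtain ⟨i, hi⟩ := hf3 s hs
          exact ⟨i, Finset.mem_filter.2 ⟨Finset.mem_univ _, by rw [hi]; exact hs⟩, hi⟩
        · rintro ⟨i, hi, rfl⟩
          exact (Finset.mem_filter.1 hi).2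
      have h3 : ∑ s ∈ T, c s • (toR s : V n) =
          ∑ s ∈ (Finset.univ.filter fun i => f T i ∈ T).image (f T), c s • (toR s : V n) := by
        rw [← h2]
      rw [h3, Finset.sum_image (fun i _ j _ hij => hinj hij), Finset.sum_filter]
      refine Finset.sum_congr rfl fun i _ => ?_
      by_cases hi : f T i ∈ T
      · simp only [hi, if_true]
      · simp only [hi, if_false, zero_smul]

end Pool.Agent.H20.FV
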