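import Pool.Agent.H20.FV.Basic

/-!
[H20 FV STABA]  The finite subgroups of `GL_n(ℤ)` have bounded order (Minkowski).

The reduction `GL (Fin n) ℤ →* GL (Fin n) (ZMod 3)` (`Matrix.GeneralLinearGroup.map (Int.castRingHom (ZMod 3))`) is
injective on a finite subgroup `H`, so `Nat.card H ≤ Nat.card (GL (Fin n) (ZMod 3)) = m`.  Injectivity: let `g ∈ H` be in the
kernel, `g ≠ 1`, of finite order; a power of `g` has prime order `p` and is in the kernel, so we may assume `g^p = 1`,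
`g ≠ 1`.  Write `g = 1 + A` with `A ≠ 0`, all entries divisible by `3`; let `3^k`, `k ≥ 1`, be the largest power of `3`
dividing all entries of `A`, `A = 3^k B`, not all entries of `B` divisible by `3`.
`0 = (1 + A)^p - 1 = ∑_{j=1}^{p} binom(p,j) 3^(k j) B^j`, divide by `3^k`: `p B + binom(p,2) 3^k B^2 + ... = 0`.  If `p ≠ 3`
then `3 | p B`, so `3 | B`, contradiction.  If `p = 3`: `3 B + 3^(k+1) B^2 + 3^(2k) B^3 = 0`; divide by `3`:
`B + 3^k B^2 + 3^(2k-1) B^3 = 0`, `2k - 1 ≥ 1`, so `3 | B`, contradiction.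
(Induction-free form: for `p ≠ 3` use `(1 + A)^p = 1 + p A + A^2 C` for some matrix `C`, polynomial in `A`.)
-/

set_option autoImplicit false

open MeasureTheory
open scoped ENNReal

namespace Pool.Agent.H20.FV

open Pool.Agent.H57.KM

variable {n : ℕ}

private theorem stabA_pow {R : Type*} [Ring R] (X : R) (M : ℕ) :
    ∃ C : R, (1 + X) ^ M = 1 + (M : R) * X + X * X * C := by
  induction M with
  | zero => exact ⟨0, by simp⟩
  | succ M ih =>
    obtain ⟨C, hC⟩ := ih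
    refine ⟨(M : R) + C + C * X, ?_⟩
    rw [pow_succ, hC]
    push_cast
    have hM : (M : R) * X = X * (M : R) := (Nat.cast_commute M X).eq
    have : X * X * (M : R) = (M : R) * X * X := by
      rw [hM, mul_assoc, ← hM, ← mul_assoc, hM]
    simp only [mul_add, add_mul, one_mul, mul_one, this, mul_assoc]
    abel

private theorem stabA_cube (n k : ℕ) (B : Matrix (Fin n) (Fin n) ℤ) :
    ∃ D : Matrix (Fin n) (Fin n) ℤ,
      (1 + (3 ^ (k + 1) : ℤ) • B) ^ 3 = 1 + (3 ^ (k + 1 + 1) : ℤ) • (B + (3 : ℤ) • D) := by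
  refine ⟨(3 ^ k : ℤ) • (B * B) + (3 ^ (2 * k) : ℤ) • (B * B * B), ?_⟩
  have h : ∀ X : Matrix (Fin n) (Fin n) ℤ, (1 + X) ^ 3 = 1 + (3 : ℤ) • X + (3 : ℤ) • (X * X) +
      X * X * X := by
    intro X
    have : ((3 : ℤ) • X : Matrix (Fin n) (Fin n) ℤ) = X + X + X := by
      rw [show (3 : ℤ) = 1 + 1 + 1 by norm_num, add_smul, add_smul, one_smul]
    have h2 : ((3 : ℤ) • (X * X) : Matrix (Fin n) (Fin n) ℤ) = X * X + X * X + X * X := by
      rw [show (3 : ℤ) = 1 + 1 + 1 by norm_num, add_smul, add_smul, one_smul]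
    rw [this, h2]
    noncomm_ring
  rw [h]
  simp only [smul_mul_assoc, mul_smul_comm, smul_smul, smul_add]
  ext i j
  simp only [Matrix.add_apply, Matrix.smul_apply, smul_eq_mul, Matrix.one_apply]
  ring

private theorem stabA_iter (n k a : ℕ) (B : Matrix (Fin n) (Fin n) ℤ) :
    ∃ D : Matrix (Fin n) (Fin n) ℤ,
      (1 + (3 ^ (k + 1) : ℤ) • B) ^ 3 ^ a = 1 + (3 ^ (k + a + 1) : ℤ) • (B + (3 : ℤ) • D) := by
  induction a with
  | zero => exact ⟨0, by simp⟩
  | succ a ih =>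
    obtain ⟨D, hD⟩ := ih
    obtain ⟨D', hD'⟩ := stabA_cube n (k + a) (B + (3 : ℤ) • D)
    refine ⟨D + D', ?_⟩
    rw [pow_succ 3 a, pow_mul, hD, hD', smul_add (3 : ℤ) D D', add_assoc B]
    rfl

private theorem stabA_step (n k N : ℕ) (hN : 0 < N) (B : Matrix (Fin n) (Fin n) ℤ)
    (h : (1 + (3 ^ (k + 1) : ℤ) • B) ^ N = 1) : ∃ B', B = (3 : ℤ) • B' := by
  obtain ⟨a, M, hM, hNM⟩ := Nat.exists_eq_pow_mul_and_not_dvd hN.ne' 3 (by norm_num)
  obtain ⟨D, hD⟩ := stabA_iter n k a B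
  rw [hNM, pow_mul, hD] at h
  set B1 := B + (3 : ℤ) • D with hB1
  obtain ⟨C, hC⟩ := stabA_pow ((3 ^ (k + a + 1) : ℤ) • B1) M
  rw [hC] at h
  have h1 : ∀ i j, (3 : ℤ) ∣ B i j := by
    intro i j
    have h2 := congrFun (congrFun h i) j
    have h3 : (M : Matrix (Fin n) (Fin n) ℤ) * ((3 ^ (k + a + 1) : ℤ) • B1) =
        (M * 3 ^ (k + a + 1) : ℤ) • B1 := by
      rw [mul_smul_comm, ← nsmul_eq_mul, ← natCast_zsmul, smul_smul, mul_comm]
    rw [h3] at h2
    simp only [smul_mul_assoc, mul_smul_comm, smul_smul] at h2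
    simp only [Matrix.add_apply, Matrix.smul_apply, smul_eq_mul] at h2
    have h4 : (3 : ℤ) ^ (k + a + 1) * ((M : ℤ) * B1 i j +
        3 * (3 ^ (k + a) * (B1 * B1 * C) i j)) = 0 := by
      rw [pow_succ] at h2 ⊢
      linear_combination h2
    have h5 := (mul_eq_zero.1 h4).resolve_left (pow_ne_zero _ (by norm_num))
    have h6 : (3 : ℤ) ∣ (M : ℤ) * B1 i j :=
      ⟨-(3 ^ (k + a) * (B1 * B1 * C) i j), by linear_combination h5⟩
    have h7 : IsCoprime (3 : ℤ) (M : ℤ) := by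
      rw [Int.isCoprime_iff_gcd_eq_one]
      have : Nat.Coprime 3 M := (Nat.Prime.coprime_iff_not_dvd Nat.prime_three).2 hM
      exact_mod_cast this
    have h8 := h7.dvd_of_dvd_mul_left h6
    rw [hB1] at h8
    simp only [Matrix.add_apply, Matrix.smul_apply, smul_eq_mul] at h8
    exact (dvd_add_left (dvd_mul_right (3 : ℤ) (D i j))).1 h8
  choose B' hB' using h1
  exact ⟨Matrix.of B', by ext i j; simp [hB' i j]⟩

private theorem stabA_one (n N : ℕ) (hN : 0 < N) (g : Matrix (Fin n) (Fin n) ℤ) (hg : g ^ N = 1)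
    (h3 : ∀ i j, (3 : ℤ) ∣ (g - 1) i j) : g = 1 := by
  have h1 : ∀ k : ℕ, ∃ B : Matrix (Fin n) (Fin n) ℤ, g = 1 + (3 ^ (k + 1) : ℤ) • B := by
    intro k
    induction k with
    | zero =>
      choose B hB using h3
      refine ⟨Matrix.of B, ?_⟩
      ext i j
      have := hB i j
      simp only [Matrix.sub_apply] at this
      simp only [Matrix.add_apply, Matrix.smul_apply, Matrix.of_apply, smul_eq_mul, zero_add,
        pow_one]
      linarith
    | succ k ih =>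
      obtain ⟨B, hB⟩ := ih
      obtain ⟨B', hB'⟩ := stabA_step n k N hN B (by rw [← hB]; exact hg)
      refine ⟨B', ?_⟩
      rw [hB, hB', smul_smul, ← pow_succ]
  ext i j
  by_contra hne
  have h2 : (g - 1) i j ≠ 0 := by
    simp only [Matrix.sub_apply]
    exact sub_ne_zero.2 hne
  obtain ⟨B, hB⟩ := h1 ((g - 1) i j).natAbs
  have h4 : (3 : ℤ) ^ (((g - 1) i j).natAbs + 1) ∣ (g - 1) i j := by
    refine ⟨B i j, ?_⟩
    have h7 := congrFun (congrFun (sub_eq_iff_eq_add'.2 hB) i) j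
    rw [Matrix.smul_apply, smul_eq_mul] at h7
    exact h7
  have h5 := Int.le_of_dvd (abs_pos.2 h2) ((dvd_abs _ _).2 h4)
  have h6 : (((g - 1) i j).natAbs : ℤ) < 3 ^ (((g - 1) i j).natAbs + 1) := by
    have : ((g - 1) i j).natAbs < 3 ^ (((g - 1) i j).natAbs + 1) :=
      (Nat.lt_succ_self _).trans (Nat.lt_pow_self (by norm_num))
    exact_mod_cast this
  rw [Int.natCast_natAbs] at h6
  linarith

theorem stabA (n : ℕ) : ∃ m : ℕ, ∀ H : Subgroup (GL (Fin n) ℤ), Finite H → Nat.card H ≤ m := by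
  refine ⟨Nat.card (GL (Fin n) (ZMod 3)), fun H hH => ?_⟩
  have hfin : Finite (GL (Fin n) (ZMod 3)) := inferInstance
  set φ : H →* GL (Fin n) (ZMod 3) :=
    (Matrix.GeneralLinearGroup.map (Int.castRingHom (ZMod 3))).comp H.subtype with hφ
  refine Nat.card_le_card_of_injective φ ?_
  rw [injective_iff_map_eq_one]
  intro g hg
  have hN : 0 < Nat.card H := Nat.card_pos
  have h1 : (g : GL (Fin n) ℤ) ^ Nat.card H = 1 := by
    have h2 : g ^ Nat.card H = 1 := pow_card_eq_one'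
    rw [← SubmonoidClass.coe_pow, h2]
    rfl
  apply Subtype.ext
  apply Units.ext
  refine stabA_one n (Nat.card H) hN _ ?_ ?_
  · have h6 := congrArg (Units.val) h1
    rw [Units.val_pow_eq_pow_val, Units.val_one] at h6
    exact h6
  · intro i j
    have h3 := congrArg (fun u : GL (Fin n) (ZMod 3) => (u : Matrix (Fin n) (Fin n) (ZMod 3)) i j) hg
    simp only [hφ, MonoidHom.comp_apply, Subgroup.coe_subtype] at h3
    have h4 : ((((g : GL (Fin n) ℤ) : Matrix (Fin n) (Fin n) ℤ) i j : ℤ) : ZMod 3) =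
        (1 : Matrix (Fin n) (Fin n) (ZMod 3)) i j := h3
    have h5 : ((((g : GL (Fin n) ℤ) : Matrix (Fin n) (Fin n) ℤ) - 1) i j : ℤ) =
        ((g : GL (Fin n) ℤ) : Matrix (Fin n) (Fin n) ℤ) i j - (1 : Matrix (Fin n) (Fin n) ℤ) i j :=
      rfl
    have h6 : (((((g : GL (Fin n) ℤ) : Matrix (Fin n) (Fin n) ℤ) i j -
        (1 : Matrix (Fin n) (Fin n) ℤ) i j : ℤ)) : ZMod 3) = 0 := by
      rw [Int.cast_sub, h4]
      by_cases hij : i = j
      · subst hij; simp
      · simp [Matrix.one_apply_ne hij]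
    have h7 := (ZMod.intCast_zmod_eq_zero_iff_dvd _ 3).1 h6
    rw [h5]
    exact_mod_cast h7

end Pool.Agent.H20.FV
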