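import Pool.Agent.H20.FV.Mini
import Pool.Agent.H20.FV.Locf
import Pool.Agent.H20.FV.Weyl
import Pool.Agent.H20.FV.Ct
import Pool.Agent.H20.FV.Dual

/-!
[H20 FV STEP2]  Finitely many orbits of strongly indecomposable classes give a covering of the dual cone.

Let `F` be finite with `SInd C ⊆ ⋃ g F`.  Replace `F` by the set of the `f ∈ F` with `toR f ∈ C` (if
`toR v = act g (toR f)` with `toR v ∈ C` then `toR f ∈ C`, `Pres.iff`).  For `f ∈ F` let `K_f` be the finite set of `locf`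
(`e = f`), `{ξ | ∀ k ∈ K_f, 0 ≤ toR k ⬝ᵥ ξ} = cone T_f` (`weyl`).  This set is
`D_f = {ξ | ∀ w integral, toR w ∈ C → ξ ⬝ᵥ toR f ≤ ξ ⬝ᵥ toR w}`: `⊇`: `k ∈ K_f`, `w = f + k`; `⊆`:
`toR w - toR f ∈ cone K_f`.  Let `T` be the union of the `T_f`.
(a) Elements `t ∈ T_f` are in `closure (dual C) = Mori C` (`closure_dual`): `toR t ∈ cone T_f = D_f`; for `w` integral in
`C` and `k ≥ 1` also `k • w` is in `C`, so `toR t ⬝ᵥ toR f ≤ k * (toR t ⬝ᵥ toR w)` for all `k`, so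
`0 ≤ toR t ⬝ᵥ toR w`; so `0 ≤ toR t ⬝ᵥ qR q` for rational points `qR q ∈ C` (multiply by a common denominator) and, the
rational points being dense in the open set `C` (`exists_rat`), `0 ≤ toR t ⬝ᵥ x` for all `x ∈ C` (if it were negative
at `x` it would be negative on a neighbourhood of `x` in `C`, which contains a rational point).
(b) Cover: let `ξ ∈ dual C`.  `mini`: `v ∈ SInd C` minimises `ξ` on the integral points of `C`.
`toR v = act g (toR f)`, `g ∈ G`, `f ∈ F`.  Let `ξ' = act (ct g)⁻¹ ξ`.  By `act_ct_inv_dot`: `ξ' ⬝ᵥ x = ξ ⬝ᵥ act g x`.  So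
`ξ' ⬝ᵥ toR f = ξ ⬝ᵥ toR v ≤ ξ ⬝ᵥ act g (toR w) = ξ' ⬝ᵥ toR w` for integral `w` in `C` (`act g (toR w)` is integral and in
`C`).  So `ξ' ∈ D_f = cone T_f ⊆ cone T` and `ξ = act (ct g) ξ'`, `ct g ∈ G.map ct`.
-/

set_option autoImplicit false

open MeasureTheory
open scoped ENNReal

namespace Pool.Agent.H20.FV

open Pool.Agent.H57.KM

variable {n : ℕ}

private theorem step2_cut {C : Set (V n)} (h : IsAmp C) (z : V n)
    (hne : ∃ x ∈ C, z ⬝ᵥ x < 0) : ∃ w : Fin n → ℤ, toR w ∈ C ∧ z ⬝ᵥ toR w < 0 := by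
  have hC' : IsAmp {x : V n | x ∈ C ∧ z ⬝ᵥ x < 0} := by
    refine ⟨?_, ?_, ?_, ?_, ?_⟩
    · obtain ⟨x, hx, hx2⟩ := hne
      exact ⟨x, hx, hx2⟩
    · have h1 : IsOpen {x : V n | z ⬝ᵥ x < 0} := by
        refine isOpen_lt ?_ continuous_const
        unfold dotProduct
        fun_prop
      exact h.op.inter h1
    · rintro x ⟨hx, hx2⟩ y ⟨hy, hy2⟩
      refine ⟨h.add x hx y hy, ?_⟩
      rw [dotProduct_add]
      linarith
    · rintro c hc x ⟨hx, hx2⟩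
      refine ⟨h.smul c hc x hx, ?_⟩
      rw [dotProduct_smul, smul_eq_mul]
      exact mul_neg_of_pos_of_neg hc hx2
    · intro x hx hx2
      have hsub : {x : V n | x ∈ C ∧ z ⬝ᵥ x < 0} ⊆ C := fun y hy => hy.1
      exact h.pointed x (closure_mono hsub hx) (closure_mono hsub hx2)
  obtain ⟨w, hw⟩ := hC'.exists_int
  exact ⟨w, hw.1, hw.2⟩

private theorem step2_D {C : Set (V n)} {f : Fin n → ℤ} {K : Finset (Fin n → ℤ)}
    (h1 : ∀ k ∈ K, toR (f + k) ∈ C)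
    (h2 : ∀ w : Fin n → ℤ, toR w ∈ C → toR w - toR f ∈ cone K) (ξ : V n) :
    (∀ k ∈ K, 0 ≤ toR k ⬝ᵥ ξ) ↔ ∀ w : Fin n → ℤ, toR w ∈ C → ξ ⬝ᵥ toR f ≤ ξ ⬝ᵥ toR w := by
  constructor
  · intro hk w hw
    obtain ⟨c, hc, hcw⟩ := h2 w hw
    have h3 : ξ ⬝ᵥ (toR w - toR f) = ∑ s ∈ K, c s * (toR s ⬝ᵥ ξ) := by
      rw [hcw, dotProduct_sum]
      refine Finset.sum_congr rfl fun s _ => ?_
      rw [dotProduct_smul, smul_eq_mul, dotProduct_comm]
    have h4 : 0 ≤ ξ ⬝ᵥ (toR w - toR f) := by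
      rw [h3]
      exact Finset.sum_nonneg fun s hs => mul_nonneg (hc s) (hk s hs)
    rw [dotProduct_sub] at h4
    linarith
  · intro hw k hk
    have h3 := hw (f + k) (h1 k hk)
    rw [toR_add, dotProduct_add, dotProduct_comm ξ (toR k)] at h3
    linarith

theorem step2 {C : Set (V n)} (h : IsAmp C) {G : Subgroup (GL (Fin n) ℤ)} (hG : Pres G C)
    (hF : FinOrb G (SInd C)) : Cov (dual C) (G.map ct) := by
  classical
  obtain ⟨F0, hF0, hF1⟩ := hF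
  choose! K hK1 hK2 using fun (f : Fin n → ℤ) (hf : toR f ∈ C) => locf n C h.oc f hf
  choose T hT using fun f : Fin n → ℤ => weyl (K f)
  have hD : ∀ f : Fin n → ℤ, toR f ∈ C → ∀ ξ : V n, ξ ∈ cone (T f) ↔
      ∀ w : Fin n → ℤ, toR w ∈ C → ξ ⬝ᵥ toR f ≤ ξ ⬝ᵥ toR w := by
    intro f hf ξ
    rw [← hT f]
    exact step2_D (hK1 f hf) (hK2 f hf) ξ
  refine ⟨(hF0.toFinset.filter fun f => toR f ∈ C).biUnion T, ?_, ?_⟩
  · intro t ht
    rw [Finset.mem_biUnion] at ht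
    obtain ⟨f, hf, ht⟩ := ht
    have hfC : toR f ∈ C := (Finset.mem_filter.1 hf).2
    have h1 := (hD f hfC (toR t)).1 (toR_mem_cone ht)
    rw [closure_dual h]
    intro x hx
    by_contra hneg
    push Not at hneg
    obtain ⟨w, hw, hw2⟩ := step2_cut h (toR t) ⟨x, hx, hneg⟩
    obtain ⟨k, hk⟩ := exists_nat_gt ((toR t ⬝ᵥ toR f) / (toR t ⬝ᵥ toR w))
    have h2 : toR (((k + 1 : ℕ) : ℤ) • w) ∈ C := by
      rw [toR_smul]
      exact h.smul _ (by push_cast; positivity) _ hw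
    have h3 := h1 _ h2
    rw [toR_smul, dotProduct_smul, smul_eq_mul] at h3
    rw [div_lt_iff_of_neg hw2] at hk
    push_cast at h3
    nlinarith
  · intro ξ hξ
    obtain ⟨v, hv, hmin⟩ := mini h hξ
    obtain ⟨g, hg, f, hf, hvf⟩ := hF1 v hv
    have hfC : toR f ∈ C := by
      have h1 := hv.1
      rw [hvf] at h1
      exact (hG.iff hg _).1 h1
    have h2 : act (ct g)⁻¹ ξ ∈ cone (T f) := by
      rw [hD f hfC]
      intro w hw
      rw [act_ct_inv_dot, act_ct_inv_dot, ← hvf]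
      obtain ⟨w', hw'⟩ := exists_toR_act g w
      rw [← hw']
      apply hmin
      rw [hw']
      exact hG g hg _ hw
    refine Set.mem_iUnion₂.2 ⟨ct g, Subgroup.mem_map_of_mem ct hg, act (ct g)⁻¹ ξ, ?_,
      act_act_inv _ _⟩
    refine cone_mono ?_ h2
    refine Finset.subset_biUnion_of_mem T ?_
    exact Finset.mem_filter.2 ⟨hF0.mem_toFinset.2 hf, hfC⟩

end Pool.Agent.H20.FV
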